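import Pool.Agent.H516R2.EQP.Props

/-!
# Task AL: the amplitude of the instances
-/

namespace Pool.Agent.H516R2.EQP

open Pool.Agent.NPC Pool.Agent.H620R2.Gauge Finset H568R2 Pool.Agent.H676

lemma AL_sg_sz (b : Bool) : sg b = (sz b : ℝ) := by cases b <;> simp [sg, sz]

lemma AL_sg_xor (a b : Bool) : sg (a ^^ b) = sg a * sg b := by
  cases a <;> cases b <;> simp [sg]

lemma AL_sg_sq (a : Bool) : sg a * sg a = 1 := by cases a <;> simp [sg]

lemma AL_sg_bx {n : ℕ} (f : Fin n → Bool) : sg (bx f) = ∏ k, sg (f k) := by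
  have h1 : ∏ k, sg (f k) = (-1 : ℝ) ^ (univ.filter (fun k => f k = true)).card := by
    unfold sg
    rw [Finset.prod_ite]
    simp
  rw [h1]
  unfold bx sg
  rcases Nat.even_or_odd (univ.filter (fun k => f k = true)).card with h | h
  · rw [h.neg_one_pow]
    simp [Nat.not_odd_iff_even.2 h]
  · rw [h.neg_one_pow]
    simp [h]

/-- `List.getD` of `List.ofFn`. -/
lemma AL_getD {n : ℕ} (f : Fin n → Bool) (k : ℕ) (h : k < n) :
    (List.ofFn f).getD k false = f ⟨k, h⟩ := by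
  rw [List.getD_eq_getElem?_getD, List.getElem?_ofFn]
  simp [h]

/-- the index with given parts -/
def AL_mk {κ : ℕ} (p : (Bool × Bool × Bool) × (Fin κ → Bool) × U κ) : ℕ → Bool := fun k =>
  if k = 0 then p.1.1 else if k = 1 then p.1.2.1 else if k = 2 then p.1.2.2
  else if h : k - 3 < κ then p.2.1 ⟨k - 3, h⟩
  else if h : (k - 3 - κ) / 2 < κ then
    (if (k - 3 - κ) % 2 = 0 then (p.2.2 ⟨(k - 3 - κ) / 2, h⟩).1
      else (p.2.2 ⟨(k - 3 - κ) / 2, h⟩).2)
  else false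

def AL_mkf {κ : ℕ} (p : (Bool × Bool × Bool) × (Fin κ → Bool) × U κ) : Fin (3 + 3 * κ) → Bool :=
  fun k => AL_mk p k.val

lemma AL_mk_l {κ : ℕ} (p : (Bool × Bool × Bool) × (Fin κ → Bool) × U κ) (k : Fin κ) :
    AL_mk p (3 + k.val) = p.2.1 k := by
  unfold AL_mk
  have h1 : ¬ (3 + k.val = 0) := by omega
  have h2 : ¬ (3 + k.val = 1) := by omega
  have h3 : ¬ (3 + k.val = 2) := by omega
  have h4 : 3 + k.val - 3 < κ := by omega
  rw [if_neg h1, if_neg h2, if_neg h3, dif_pos h4]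
  have e : (⟨3 + k.val - 3, h4⟩ : Fin κ) = k := by
    apply Fin.ext
    simp
  rw [e]

lemma AL_mk_u1 {κ : ℕ} (p : (Bool × Bool × Bool) × (Fin κ → Bool) × U κ) (k : Fin κ) :
    AL_mk p (3 + κ + 2 * k.val) = (p.2.2 k).1 := by
  unfold AL_mk
  have h1 : ¬ (3 + κ + 2 * k.val = 0) := by omega
  have h2 : ¬ (3 + κ + 2 * k.val = 1) := by omega
  have h3 : ¬ (3 + κ + 2 * k.val = 2) := by omega
  have h4 : ¬ (3 + κ + 2 * k.val - 3 < κ) := by omega
  have h5 : (3 + κ + 2 * k.val - 3 - κ) / 2 = k.val := by omega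
  have h5' : (3 + κ + 2 * k.val - 3 - κ) / 2 < κ := by omega
  have h6 : (3 + κ + 2 * k.val - 3 - κ) % 2 = 0 := by omega
  rw [if_neg h1, if_neg h2, if_neg h3, dif_neg h4, dif_pos h5', if_pos h6]
  have e : (⟨(3 + κ + 2 * k.val - 3 - κ) / 2, h5'⟩ : Fin κ) = k := Fin.ext h5
  rw [e]

lemma AL_mk_u2 {κ : ℕ} (p : (Bool × Bool × Bool) × (Fin κ → Bool) × U κ) (k : Fin κ) :
    AL_mk p (3 + κ + 2 * k.val + 1) = (p.2.2 k).2 := by
  unfold AL_mk
  have h1 : ¬ (3 + κ + 2 * k.val + 1 = 0) := by omega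
  have h2 : ¬ (3 + κ + 2 * k.val + 1 = 1) := by omega
  have h3 : ¬ (3 + κ + 2 * k.val + 1 = 2) := by omega
  have h4 : ¬ (3 + κ + 2 * k.val + 1 - 3 < κ) := by omega
  have h5 : (3 + κ + 2 * k.val + 1 - 3 - κ) / 2 = k.val := by omega
  have h5' : (3 + κ + 2 * k.val + 1 - 3 - κ) / 2 < κ := by omega
  have h6 : ¬ (3 + κ + 2 * k.val + 1 - 3 - κ) % 2 = 0 := by omega
  rw [if_neg h1, if_neg h2, if_neg h3, dif_neg h4, dif_pos h5', if_neg h6]
  have e : (⟨(3 + κ + 2 * k.val + 1 - 3 - κ) / 2, h5'⟩ : Fin κ) = k := Fin.ext h5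
  rw [e]

lemma AL_getD_mkf {κ : ℕ} (p : (Bool × Bool × Bool) × (Fin κ → Bool) × U κ) (r : Bool) (k : ℕ)
    (h : k < 3 + 3 * κ) : (r :: List.ofFn (AL_mkf p)).getD (k + 1) false = AL_mk p k := by
  rw [List.getD_cons_succ, AL_getD _ _ h]
  rfl

lemma AL_cOf {κ : ℕ} (p : (Bool × Bool × Bool) × (Fin κ → Bool) × U κ) (r : Bool) :
    cOf (r :: List.ofFn (AL_mkf p)) = p.1 := by
  unfold cOf
  have h0 := AL_getD_mkf p r 0 (by omega)
  have h1 := AL_getD_mkf p r 1 (by omega)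
  have h2 := AL_getD_mkf p r 2 (by omega)
  rw [zero_add] at h0
  rw [h0, h1, h2]
  rfl

lemma AL_lOf {κ : ℕ} (p : (Bool × Bool × Bool) × (Fin κ → Bool) × U κ) (r : Bool) :
    lOf κ (r :: List.ofFn (AL_mkf p)) = p.2.1 := by
  funext k
  unfold lOf
  have hk := k.isLt
  have h := AL_getD_mkf p r (3 + k.val) (by omega)
  rw [show 4 + k.val = 3 + k.val + 1 by omega, h, AL_mk_l]

lemma AL_uOf {κ : ℕ} (p : (Bool × Bool × Bool) × (Fin κ → Bool) × U κ) (r : Bool) :
    uOf κ (r :: List.ofFn (AL_mkf p)) = p.2.2 := by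
  funext k
  unfold uOf
  have hk := k.isLt
  have h := AL_getD_mkf p r (3 + κ + 2 * k.val) (by omega)
  have h' := AL_getD_mkf p r (3 + κ + 2 * k.val + 1) (by omega)
  rw [show 4 + κ + 2 * k.val = 3 + κ + 2 * k.val + 1 by omega, h, h', AL_mk_u1, AL_mk_u2]

lemma AL_mkf_inj {κ : ℕ} : Function.Injective (AL_mkf (κ := κ)) := by
  intro p q h
  have h1 : p.1 = q.1 := by rw [← AL_cOf p false, ← AL_cOf q false, h]
  have h2 : p.2.1 = q.2.1 := by rw [← AL_lOf p false, ← AL_lOf q false, h]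
  have h3 : p.2.2 = q.2.2 := by rw [← AL_uOf p false, ← AL_uOf q false, h]
  exact Prod.ext h1 (Prod.ext h2 h3)

lemma AL_mkf_bij {κ : ℕ} : Function.Bijective (AL_mkf (κ := κ)) := by
  rw [Fintype.bijective_iff_injective_and_card]
  refine ⟨AL_mkf_inj, ?_⟩
  simp only [Fintype.card_prod, Fintype.card_bool, Fintype.card_fun, Fintype.card_fin]
  rw [pow_add, show 3 * κ = κ + (κ + κ) by ring, pow_add, pow_add]
  rw [show (2 * 2 : ℕ) = 2 ^ 2 by norm_num, ← pow_mul]
  ring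

lemma AL_prod_two (g : ℕ → ℝ) (n : ℕ) :
    ∏ k ∈ range (2 * n), g k = ∏ k ∈ range n, (g (2 * k) * g (2 * k + 1)) := by
  induction n with
  | zero => simp
  | succ n ih =>
    rw [show 2 * (n + 1) = 2 * n + 1 + 1 by ring, prod_range_succ, prod_range_succ, ih,
      prod_range_succ]
    ring

lemma AL_prod (κ : ℕ) (g : ℕ → ℝ) :
    ∏ k : Fin (3 + 3 * κ), g k.val = g 0 * g 1 * g 2 * (∏ k : Fin κ, g (3 + k.val)) *
      ∏ k : Fin κ, (g (3 + κ + 2 * k.val) * g (3 + κ + 2 * k.val + 1)) := by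
  rw [Fin.prod_univ_eq_prod_range g (3 + 3 * κ),
    Fin.prod_univ_eq_prod_range (fun k => g (3 + k)) κ,
    Fin.prod_univ_eq_prod_range (fun k => g (3 + κ + 2 * k) * g (3 + κ + 2 * k + 1)) κ]
  rw [show 3 + 3 * κ = (3 + κ) + 2 * κ by ring, prod_range_add, prod_range_add, AL_prod_two]
  simp [prod_range_succ, add_assoc]

lemma AL_kernel {κ : ℕ} (p q : (Bool × Bool × Bool) × (Fin κ → Bool) × U κ) :
    (∏ k, Kb (decide (3 + κ ≤ k.val)) (AL_mkf p k) (AL_mkf q k)) =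
      (if p.1 = q.1 then 1 else 0) * (if p.2.1 = q.2.1 then 1 else 0) *
        (sg (par1 p.2.2) * sg (par1 q.2.2) * (Hz p.2.2 q.2.2 : ℝ)) := by
  have h := AL_prod κ (fun k => Kb (decide (3 + κ ≤ k)) (AL_mk p k) (AL_mk q k))
  have e : (∏ k : Fin (3 + 3 * κ), Kb (decide (3 + κ ≤ k.val)) (AL_mkf p k) (AL_mkf q k)) =
      ∏ k : Fin (3 + 3 * κ), (fun k => Kb (decide (3 + κ ≤ k)) (AL_mk p k) (AL_mk q k)) k.val :=
    rfl
  rw [e, h]
  clear e h
  have hc : (fun k => Kb (decide (3 + κ ≤ k)) (AL_mk p k) (AL_mk q k)) 0 *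
      (fun k => Kb (decide (3 + κ ≤ k)) (AL_mk p k) (AL_mk q k)) 1 *
      (fun k => Kb (decide (3 + κ ≤ k)) (AL_mk p k) (AL_mk q k)) 2 =
        (if p.1 = q.1 then 1 else 0 : ℝ) := by
    have a0 : decide (3 + κ ≤ 0) = false := by simp
    have a1 : decide (3 + κ ≤ 1) = false := by simp; omega
    have a2 : decide (3 + κ ≤ 2) = false := by simp; omega
    simp only [a0, a1, a2, Kb]
    have b0 : ∀ p : (Bool × Bool × Bool) × (Fin κ → Bool) × U κ, AL_mk p 0 = p.1.1 := fun p => rfl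
    have b1 : ∀ p : (Bool × Bool × Bool) × (Fin κ → Bool) × U κ, AL_mk p 1 = p.1.2.1 :=
      fun p => rfl
    have b2 : ∀ p : (Bool × Bool × Bool) × (Fin κ → Bool) × U κ, AL_mk p 2 = p.1.2.2 :=
      fun p => rfl
    simp only [b0, b1, b2]
    obtain ⟨⟨p1, p2, p3⟩, pl, pu⟩ := p
    obtain ⟨⟨q1, q2, q3⟩, ql, qu⟩ := q
    simp only
    cases p1 <;> cases p2 <;> cases p3 <;> cases q1 <;> cases q2 <;> cases q3 <;> simp
  have hl : (∏ k : Fin κ, (fun k => Kb (decide (3 + κ ≤ k)) (AL_mk p k) (AL_mk q k))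
      (3 + k.val)) = (if p.2.1 = q.2.1 then 1 else 0 : ℝ) := by
    have : ∀ k : Fin κ, (fun k => Kb (decide (3 + κ ≤ k)) (AL_mk p k) (AL_mk q k)) (3 + k.val) =
        if p.2.1 k = q.2.1 k then (1 : ℝ) else 0 := by
      intro k
      have a : decide (3 + κ ≤ 3 + k.val) = false := by
        have := k.isLt
        simp
      simp only [a, AL_mk_l, Kb]
      simp
    rw [Finset.prod_congr rfl (fun k _ => this k), Finset.prod_ite_zero]
    simp [funext_iff]
  have hu : (∏ k : Fin κ, ((fun k => Kb (decide (3 + κ ≤ k)) (AL_mk p k) (AL_mk q k))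
      (3 + κ + 2 * k.val) * (fun k => Kb (decide (3 + κ ≤ k)) (AL_mk p k) (AL_mk q k))
      (3 + κ + 2 * k.val + 1))) =
      sg (par1 p.2.2) * sg (par1 q.2.2) * (Hz p.2.2 q.2.2 : ℝ) := by
    unfold par1 Hz
    rw [AL_sg_bx, AL_sg_bx, Int.cast_prod, ← Finset.prod_mul_distrib, ← Finset.prod_mul_distrib]
    refine Finset.prod_congr rfl (fun k _ => ?_)
    have a : decide (3 + κ ≤ 3 + κ + 2 * k.val) = true := by simp
    have a' : decide (3 + κ ≤ 3 + κ + 2 * k.val + 1) = true := by simp; omega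
    simp only [a, a', AL_mk_u1, AL_mk_u2, Kb]
    simp only [if_true, Int.cast_mul, ← AL_sg_sz, AL_sg_xor]
    ring
  rw [hc, hl, hu]

lemma AL_gen (κ : ℕ) (A : Oracle) (X : Bool → (Bool × Bool × Bool) → (Fin κ → Bool) → U κ → Bool)
    (h : ∀ r p, A (r :: List.ofFn (AL_mkf p)) = (par1 p.2.2 ^^ X r p.1 p.2.1 p.2.2)) :
    alpha A κ = (∑ c : Bool × Bool × Bool, ∑ l : Fin κ → Bool, ∑ u : U κ,
      sg (X false c l u) * ∑ v : U κ, (Hz u v : ℝ) * sg (X true c l v)) /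
        (2 ^ (3 + 3 * κ) * 2 ^ κ) := by
  unfold alpha
  congr 1
  have e1 : ∀ F : (Fin (3 + 3 * κ) → Bool) → ℝ, ∑ i, F i = ∑ p, F (AL_mkf (κ := κ) p) := by
    intro F
    exact (Equiv.sum_comp (Equiv.ofBijective _ AL_mkf_bij) F).symm
  rw [e1]
  simp_rw [e1, AL_kernel, h, AL_sg_xor]
  rw [Fintype.sum_prod_type]
  refine Finset.sum_congr rfl (fun c _ => ?_)
  rw [Fintype.sum_prod_type]
  refine Finset.sum_congr rfl (fun l _ => ?_)
  refine Finset.sum_congr rfl (fun u _ => ?_)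
  rw [Fintype.sum_prod_type]
  rw [Finset.sum_eq_single c]
  · rw [Fintype.sum_prod_type, Finset.sum_eq_single l]
    · rw [Finset.mul_sum]
      refine Finset.sum_congr rfl (fun v _ => ?_)
      simp only [if_true, one_mul]
      have h1 := AL_sg_sq (par1 u)
      have h2 := AL_sg_sq (par1 v)
      linear_combination (sg (par1 v) ^ 2 * (Hz u v : ℝ) * sg (X false c l u) *
        sg (X true c l v)) * h1 + ((Hz u v : ℝ) * sg (X false c l u) * sg (X true c l v)) * h2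
    · intro l' _ hl'
      apply Finset.sum_eq_zero
      intro v _
      simp [Ne.symm hl']
    · intro h; exact absurd (Finset.mem_univ _) h
  · intro c' _ hc'
    apply Finset.sum_eq_zero
    intro v _
    simp [Ne.symm hc']
  · intro h; exact absurd (Finset.mem_univ _) h

/-- the bent identity -/
lemma AL_bent {κ : ℕ} (u : U κ) :
    ∑ v : U κ, (Hz u v : ℝ) * sg (bent v) = 2 ^ κ * sg (bent u) := by
  unfold bent Hz
  simp_rw [AL_sg_bx, Int.cast_prod, ← Finset.prod_mul_distrib]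
  have h := Finset.prod_univ_sum (fun _ : Fin κ => (univ : Finset (Bool × Bool)))
    (fun k p => ((sz ((u k).1 && p.1) * sz ((u k).2 && p.2) : ℤ) : ℝ) * sg (p.1 && p.2))
  rw [Fintype.piFinset_univ] at h
  rw [← h, show (2 : ℝ) ^ κ = ∏ _k : Fin κ, (2 : ℝ) by simp, ← Finset.prod_mul_distrib]
  refine Finset.prod_congr rfl (fun k _ => ?_)
  rw [Fintype.sum_prod_type, Fintype.sum_bool, Fintype.sum_bool, Fintype.sum_bool]
  generalize u k = w
  obtain ⟨w1, w2⟩ := w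
  cases w1 <;> cases w2 <;> norm_num [sz, sg]

lemma AL_cardU (κ : ℕ) : (Fintype.card (U κ) : ℝ) = 4 ^ κ := by
  simp [U]

/-- the term of the controls `(0, 0, *)` -/
lemma AL_t0 (κ : ℕ) : ∑ _l : Fin κ → Bool, ∑ u : U κ,
    sg (bent u) * ∑ v : U κ, (Hz u v : ℝ) * sg (bent v) = 2 ^ κ * 8 ^ κ := by
  simp_rw [AL_bent]
  have : ∀ u : U κ, sg (bent u) * (2 ^ κ * sg (bent u)) = 2 ^ κ := by
    intro u
    linear_combination (2 : ℝ) ^ κ * AL_sg_sq (bent u)
  simp_rw [this]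
  rw [Finset.sum_const, Finset.sum_const]
  simp only [Finset.card_univ, nsmul_eq_mul]
  rw [AL_cardU]
  simp only [Fintype.card_fun, Fintype.card_bool, Fintype.card_fin, Nat.cast_pow, Nat.cast_ofNat]
  rw [show (8 : ℝ) = 2 * 4 by norm_num, mul_pow]
  ring

lemma AL_t1 {κ : ℕ} (z : W κ → Bool) : ∑ l : Fin κ → Bool, ∑ u : U κ,
    sg (bent u ^^ z (l, u)) * ∑ v : U κ, (Hz u v : ℝ) * sg (bent v) = 2 ^ κ * (SS z : ℝ) := by
  simp_rw [AL_bent, AL_sg_xor]
  have : ∀ l (u : U κ), sg (bent u) * sg (z (l, u)) * (2 ^ κ * sg (bent u)) =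
      2 ^ κ * (sz (z (l, u)) : ℝ) := by
    intro l u
    rw [← AL_sg_sz]
    linear_combination (2 : ℝ) ^ κ * sg (z (l, u)) * AL_sg_sq (bent u)
  simp_rw [this]
  unfold SS
  rw [Fintype.sum_prod_type]
  simp_rw [← Finset.mul_sum]
  push_cast
  rfl

lemma AL_t2 {κ : ℕ} (a : U κ ⊕ U κ → Bool) : ∑ _l : Fin κ → Bool, ∑ u : U κ,
    sg (a (Sum.inl u)) * ∑ v : U κ, (Hz u v : ℝ) * sg (a (Sum.inr v)) = 2 ^ κ * (FF a : ℝ) := by
  rw [Finset.sum_const]
  simp only [Finset.card_univ, nsmul_eq_mul, Fintype.card_fun, Fintype.card_bool,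
    Fintype.card_fin, Nat.cast_pow, Nat.cast_ofNat]
  congr 1
  unfold FF
  push_cast
  refine Finset.sum_congr rfl (fun u _ => ?_)
  rw [Finset.mul_sum]
  refine Finset.sum_congr rfl (fun v _ => ?_)
  rw [AL_sg_sz, AL_sg_sz]
  ring

lemma AL_base (κ : ℕ) : alpha base κ = 0 := by
  rw [AL_gen κ base (fun r c _ u => bent u ^^ (r && c.1))]
  · have h : (∑ c : Bool × Bool × Bool, ∑ _l : Fin κ → Bool, ∑ u : U κ,
        sg (bent u ^^ (false && c.1)) * ∑ v : U κ, (Hz u v : ℝ) * sg (bent v ^^ (true && c.1))) =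
        0 := by
      have h0 : ∀ c : Bool × Bool × Bool, (∑ _l : Fin κ → Bool, ∑ u : U κ,
        sg (bent u ^^ (false && c.1)) * ∑ v : U κ, (Hz u v : ℝ) * sg (bent v ^^ (true && c.1))) =
        sg c.1 * (2 ^ κ * 8 ^ κ) := by
        intro c
        rw [← AL_t0]
        simp only [Bool.false_and, Bool.true_and, Bool.xor_false]
        rw [Finset.mul_sum]
        refine Finset.sum_congr rfl (fun l _ => ?_)
        rw [Finset.mul_sum]
        refine Finset.sum_congr rfl (fun u _ => ?_)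
        simp_rw [AL_sg_xor]
        rw [Finset.mul_sum, Finset.mul_sum, Finset.mul_sum]
        refine Finset.sum_congr rfl (fun v _ => ?_)
        ring
      simp_rw [h0]
      rw [Fintype.sum_prod_type, Fintype.sum_bool]
      simp [sg]
    rw [h, zero_div]
  · intro r p
    unfold base
    have hlen : ((r :: List.ofFn (AL_mkf p)).length - 4) / 3 = κ := by
      rw [List.length_cons, List.length_ofFn]
      omega
    rw [hlen, AL_uOf]
    have h1 : (r :: List.ofFn (AL_mkf p)).getD 0 false = r := rfl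
    have h2 : (r :: List.ofFn (AL_mkf p)).getD 1 false = p.1.1 := by
      have := congrArg Prod.fst (AL_cOf p r)
      exact this
    rw [h1, h2]

lemma AL_emb (κ : ℕ) (B : Oracle) (a : Cube κ → Bool) : alpha (emb κ B a) κ =
    ((2 * 8 ^ κ + 5 * FF (fun i => a (Sum.inl i)) + SS (fun w => a (Sum.inr w)) : ℤ) : ℝ) /
      8 ^ (κ + 1) := by
  rw [AL_gen κ (emb κ B a) (fun r c l u =>
    (if c.1 = false ∧ c.2.1 = false then bent u
      else if c.1 = true ∧ c.2.1 = true ∧ c.2.2 = true then bent u ^^ (!r && a (Sum.inr (l, u)))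
      else if r then a (Sum.inl (Sum.inr u)) else a (Sum.inl (Sum.inl u))))]
  · have t0 := AL_t0 κ
    have t1 := AL_t1 (fun w => a (Sum.inr w))
    have t2 := AL_t2 (fun i => a (Sum.inl i))
    rw [Fintype.sum_prod_type]
    simp_rw [Fintype.sum_prod_type]
    simp_rw [Fintype.sum_bool]
    simp only [Bool.true_eq_false, Bool.false_eq_true, and_self, and_false, false_and, and_true,
      true_and, if_true, if_false, Bool.not_true, Bool.not_false, Bool.false_and, Bool.true_and,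
      Bool.xor_false]
    simp only [t0, t1, t2]
    push_cast
    have e : (2 : ℝ) ^ (3 + 3 * κ) = 8 ^ (κ + 1) := by
      rw [show 3 + 3 * κ = 3 * (κ + 1) by ring, pow_mul]
      norm_num
    rw [e]
    have h2 : (2 : ℝ) ^ κ ≠ 0 := by positivity
    have h8 : (8 : ℝ) ^ (κ + 1) ≠ 0 := by positivity
    field_simp
    ring
  · intro r p
    unfold emb
    have hlen : (r :: List.ofFn (AL_mkf p)).length = 4 + 3 * κ := by
      rw [List.length_cons, List.length_ofFn]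
      omega
    rw [if_pos hlen, AL_cOf, AL_lOf, AL_uOf]
    have h1 : (r :: List.ofFn (AL_mkf p)).getD 0 false = r := rfl
    rw [h1]
    rfl

theorem AL : St_AL := by
  refine ⟨?_, AL_base, AL_emb⟩
  intro κ A A' h
  unfold alpha
  congr 1
  refine Finset.sum_congr rfl (fun i _ => ?_)
  refine Finset.sum_congr rfl (fun j _ => ?_)
  rw [h (false :: List.ofFn i) (by simp; omega), h (true :: List.ofFn j) (by simp; omega)]

end Pool.Agent.H516R2.EQP
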