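import Pool.Agent.H516R2.EQP.Props

/-!
# Task AS: asymptotics
-/

namespace Pool.Agent.H516R2.EQP

open Filter

theorem AS_ev (K : ℝ) (e : ℕ) : ∀ᶠ n : ℕ in atTop, K * (n : ℝ) ^ e ≤ 2 ^ n := by
  have h1 := (tendsto_pow_const_div_const_pow_of_one_lt e (r := (2 : ℝ)) (by norm_num)).const_mul K
  rw [mul_zero] at h1
  filter_upwards [h1.eventually (eventually_lt_nhds (zero_lt_one))] with n hn
  have h2 : (0 : ℝ) < 2 ^ n := by positivity
  rw [← mul_div_assoc, div_lt_one h2] at hn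
  exact hn.le

theorem AS_poly_le (P : Polynomial ℕ) (n : ℕ) (hn : 1 ≤ n) :
    P.eval n ≤ P.eval 1 * n ^ P.natDegree := by
  rw [Polynomial.eval_eq_sum_range, Polynomial.eval_eq_sum_range, Finset.sum_mul]
  apply Finset.sum_le_sum
  intro i hi
  rw [one_pow, mul_one]
  apply Nat.mul_le_mul_left
  exact Nat.pow_le_pow_right hn (by have := Finset.mem_range.1 hi; omega)

theorem AS_exp {n : ℕ} {y : ℝ} (hy : 2 * (n : ℝ) + 10 ≤ y) :
    68 * 4 ^ n * Real.exp (-y) ≤ 1 / 100 := by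
  have h1 : Real.exp (-y) ≤ Real.exp (-(2 * (n : ℝ) + 10)) := Real.exp_le_exp.2 (by linarith)
  have h2 : Real.exp (-(2 * (n : ℝ) + 10)) = (Real.exp (-2)) ^ n * (Real.exp (-1)) ^ 10 := by
    rw [← Real.exp_nat_mul, ← Real.exp_nat_mul, ← Real.exp_add]
    congr 1
    push_cast
    ring
  have he : Real.exp (-1) ≤ 1 / 2.7 := by
    rw [Real.exp_neg, one_div]
    apply inv_anti₀ (by norm_num)
    have := Real.exp_one_gt_d9
    linarith
  have he2 : Real.exp (-2) ≤ 1 / 4 := by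
    have : Real.exp (-2) = Real.exp (-1) * Real.exp (-1) := by
      rw [← Real.exp_add]; norm_num
    rw [this]
    have h0 := (Real.exp_pos (-1 : ℝ)).le
    nlinarith
  have h3 : (4 : ℝ) ^ n * (Real.exp (-2)) ^ n ≤ 1 := by
    rw [← mul_pow]
    apply pow_le_one₀ (by positivity)
    linarith
  have h4 : (Real.exp (-1)) ^ 10 ≤ (1 / 2.7) ^ 10 :=
    pow_le_pow_left₀ (Real.exp_pos _).le he 10
  have h5 : (68 : ℝ) * (1 / 2.7) ^ 10 ≤ 1 / 100 := by norm_num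
  calc 68 * 4 ^ n * Real.exp (-y) ≤ 68 * 4 ^ n * ((Real.exp (-2)) ^ n * (Real.exp (-1)) ^ 10) := by
        rw [← h2]; gcongr
    _ = 68 * (4 ^ n * (Real.exp (-2)) ^ n) * (Real.exp (-1)) ^ 10 := by ring
    _ ≤ 68 * 1 * (1 / 2.7) ^ 10 := by gcongr
    _ ≤ 1 / 100 := by linarith

theorem AS_main (k : ℕ) (p : Polynomial ℕ) : ∃ κ₀ : ℕ, ∀ κ ≥ κ₀, 20 ≤ κ ∧
  p.eval κ ≤ 4 ^ κ ∧ (1 ≤ p.eval κ →
    1200 * (((24 * ((p.eval κ : ℕ) : ℝ)) ^ k) ^ 2 * (((p.eval κ : ℕ) : ℝ) ^ 2 + 1)) / 2 ^ κ +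
      210000 / 16 ^ κ ≤ 1 / 100 ∧
    68 * 4 ^ κ * (1 - (1 / (24 * ((p.eval κ : ℕ) : ℝ))) ^ k) ^ (2 ^ κ / 200) ≤ 1 / 100) := by
  set d := p.natDegree with hd
  set C : ℝ := (p.eval 1 : ℕ) + 1 with hC
  have hC1 : 1 ≤ C := by rw [hC]; have : (0 : ℝ) ≤ ((p.eval 1 : ℕ) : ℝ) := Nat.cast_nonneg _; linarith
  obtain ⟨κ₀, h⟩ := eventually_atTop.1 ((eventually_ge_atTop 20).and
    ((AS_ev C d).and ((AS_ev (1200 * 200 * ((24 * C) ^ (2 * k) * (2 * C ^ 2))) (2 * k * d + 2 * d)).and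
      (AS_ev (1200 * (24 * C) ^ k) (d * k + 1)))))
  refine ⟨κ₀, fun κ hκ => ?_⟩
  obtain ⟨h20, e1, e2, e3⟩ := h κ hκ
  have hκ1 : 1 ≤ κ := by omega
  set t : ℝ := ((p.eval κ : ℕ) : ℝ) with ht
  have hκr : (20 : ℝ) ≤ κ := by exact_mod_cast h20
  have hκp : (1 : ℝ) ≤ (κ : ℝ) ^ d := one_le_pow₀ (by linarith)
  have htle : t ≤ C * (κ : ℝ) ^ d := by
    have h1 := AS_poly_le p κ hκ1
    have h2 : t ≤ ((p.eval 1 : ℕ) : ℝ) * (κ : ℝ) ^ d := by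
      rw [ht]
      exact_mod_cast h1
    have h3 : (0 : ℝ) < (κ : ℝ) ^ d := by linarith
    rw [hC]
    nlinarith
  refine ⟨h20, ?_, fun ht1 => ⟨?_, ?_⟩⟩
  · have h1 : t ≤ 2 ^ κ := htle.trans e1
    have h2 : p.eval κ ≤ 2 ^ κ := by rw [ht] at h1; exact_mod_cast h1
    exact h2.trans (Nat.pow_le_pow_left (by norm_num) κ)
  · have ht0 : 0 ≤ t := Nat.cast_nonneg _
    have hA : ((24 * t) ^ k) ^ 2 * (t ^ 2 + 1) ≤
        (24 * C) ^ (2 * k) * (2 * C ^ 2) * (κ : ℝ) ^ (2 * k * d + 2 * d) := by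
      have hB : 1 ≤ C * (κ : ℝ) ^ d := by nlinarith
      have h1 : ((24 * t) ^ k) ^ 2 ≤ ((24 * (C * (κ : ℝ) ^ d)) ^ k) ^ 2 := by gcongr
      have h2 : t ^ 2 + 1 ≤ 2 * (C * (κ : ℝ) ^ d) ^ 2 := by
        have : t ^ 2 ≤ (C * (κ : ℝ) ^ d) ^ 2 := by gcongr
        have : 1 ≤ (C * (κ : ℝ) ^ d) ^ 2 := one_le_pow₀ hB
        linarith
      calc ((24 * t) ^ k) ^ 2 * (t ^ 2 + 1) ≤
          ((24 * (C * (κ : ℝ) ^ d)) ^ k) ^ 2 * (2 * (C * (κ : ℝ) ^ d) ^ 2) := by gcongr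
        _ = (24 * C) ^ (2 * k) * (2 * C ^ 2) * (κ : ℝ) ^ (2 * k * d + 2 * d) := by
          rw [pow_add, pow_mul' (κ : ℝ) (2 * k) d, pow_mul' (κ : ℝ) 2 d]
          rw [mul_comm 2 k, pow_mul (24 * C) k 2, pow_mul ((κ : ℝ) ^ d) k 2]
          rw [show 24 * (C * (κ : ℝ) ^ d) = 24 * C * (κ : ℝ) ^ d by ring, mul_pow (24 * C)]
          ring
    have h2κ : (0 : ℝ) < 2 ^ κ := by positivity
    have hfirst : 1200 * (((24 * t) ^ k) ^ 2 * (t ^ 2 + 1)) / 2 ^ κ ≤ 1 / 200 := by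
      rw [div_le_iff₀ h2κ]
      linarith
    have hsecond : (210000 : ℝ) / 16 ^ κ ≤ 1 / 200 := by
      have h1 : (16 : ℝ) ^ 20 ≤ 16 ^ κ := pow_le_pow_right₀ (by norm_num) h20
      rw [div_le_iff₀ (by positivity)]
      have h2 : (210000 : ℝ) ≤ 1 / 200 * 16 ^ 20 := by norm_num
      linarith
    linarith
  · have ht0 : 1 ≤ t := by rw [ht]; exact_mod_cast ht1
    set x : ℝ := (1 / (24 * t)) ^ k with hx
    set s : ℕ := 2 ^ κ / 200 with hs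
    have hx0 : 0 < x := by positivity
    have hx1 : x ≤ 1 := by
      rw [hx]
      apply pow_le_one₀ (by positivity)
      rw [div_le_one (by positivity)]
      linarith
    have hsr : (2 : ℝ) ^ κ / 400 ≤ s := by
      have h1 : 2 ^ κ < 200 * (s + 1) := by
        rw [hs]
        exact Nat.lt_mul_div_succ _ (by norm_num)
      have h2 : (2 : ℝ) ^ κ < 200 * ((s : ℝ) + 1) := by exact_mod_cast h1
      have h3 : (2 : ℝ) ^ 20 ≤ 2 ^ κ := pow_le_pow_right₀ (by norm_num) h20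
      have h4 : (400 : ℝ) ≤ 2 ^ 20 := by norm_num
      linarith
    have hxs : 2 * (κ : ℝ) + 10 ≤ x * s := by
      have hy : x * ((24 * C) ^ k * (κ : ℝ) ^ (d * k)) ≥ 1 := by
        rw [hx, pow_mul, ← mul_pow, ← mul_pow]
        apply one_le_pow₀
        rw [one_div, inv_mul_eq_div, le_div_iff₀ (by positivity), one_mul]
        nlinarith
      have h3 : 1200 * (24 * C) ^ k * (κ : ℝ) ^ (d * k + 1) ≤ 400 * s := by linarith
      rw [pow_succ] at h3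
      have h4 : 3 * (κ : ℝ) * ((24 * C) ^ k * (κ : ℝ) ^ (d * k)) ≤ s := by nlinarith
      have h5 : x * (3 * (κ : ℝ) * ((24 * C) ^ k * (κ : ℝ) ^ (d * k))) ≤ x * s := by gcongr
      have h6 : 3 * (κ : ℝ) * 1 ≤ 3 * (κ : ℝ) * (x * ((24 * C) ^ k * (κ : ℝ) ^ (d * k))) := by
        gcongr
      nlinarith
    have hexp : (1 - x) ^ s ≤ Real.exp (-(x * s)) := by
      calc (1 - x) ^ s ≤ (Real.exp (-x)) ^ s := by
            apply pow_le_pow_left₀ (by linarith)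
            have := Real.add_one_le_exp (-x)
            linarith
        _ = Real.exp (-(x * s)) := by rw [← Real.exp_nat_mul]; congr 1; ring
    calc 68 * 4 ^ κ * (1 - x) ^ s ≤ 68 * 4 ^ κ * Real.exp (-(x * s)) := by gcongr
      _ ≤ 1 / 100 := AS_exp hxs

theorem AS : St_AS := AS_main

end Pool.Agent.H516R2.EQP
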