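import Pool.Agent.H516R2.EQP.Props

/-!
# Combination
-/

namespace Pool.Agent.H516R2.EQP

open Pool.Agent.NPC Pool.Agent.H620R2.Gauge Finset H568R2 Pool.Agent.H676

section

variable {I : Type*} [Fintype I] [DecidableEq I]

lemma CM_av_mono {f g : (I → Bool) → ℝ} (h : ∀ x, f x ≤ g x) : av f ≤ av g := by
  unfold av
  exact div_le_div_of_nonneg_right (Finset.sum_le_sum fun x _ => h x) (by positivity)

lemma CM_av_smul (c : ℝ) (f : (I → Bool) → ℝ) : av (fun x => c * f x) = c * av f := by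
  unfold av
  rw [← Finset.mul_sum, mul_div_assoc]

lemma CM_ml_mono (g g' : (I → Bool) → ℝ) (P : I → ℝ) (hP : Box P) (h : ∀ a, g a ≤ g' a) :
    ml g P ≤ ml g' P := by
  unfold ml
  refine Finset.sum_le_sum fun a _ => ?_
  apply mul_le_mul_of_nonneg_left (h a)
  apply Finset.prod_nonneg
  intro i _
  have h1 := abs_le.mp (hP i)
  unfold sg
  split_ifs <;> linarith

lemma CM_ml_smul (c : ℝ) (g : (I → Bool) → ℝ) (P : I → ℝ) :
    ml (fun a => c * g a) P = c * ml g P := by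
  unfold ml
  rw [Finset.mul_sum]
  exact Finset.sum_congr rfl fun a _ => by ring

lemma CM_ml_zero (g : (I → Bool) → ℝ) : ml g (fun _ => 0) = av g := by
  unfold ml av
  rw [Finset.sum_div]
  refine Finset.sum_congr rfl fun a _ => ?_
  simp only [mul_zero, add_zero, Finset.prod_const, Finset.card_univ, one_div, inv_pow]
  rw [div_eq_inv_mul]

end

lemma CM_ES_mono {κ : ℕ} (h3 : St_P3) {η : ℝ} (h0 : 0 ≤ η) (h1 : 2 * η * 2 ^ κ ≤ 1)
    (φ ψ : (U κ ⊕ U κ → ℝ) → ℝ) (h : ∀ P, Box P → φ P ≤ ψ P) :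
    ∀ (k : ℕ) (P : U κ ⊕ U κ → ℝ), Box P → ES η φ k P ≤ ES η ψ k P := by
  intro k
  induction k with
  | zero => intro P hP; exact h P hP
  | succ k ih =>
    intro P hP
    unfold ES
    split_ifs
    · exact h P hP
    · exact CM_av_mono fun s => ih _ (h3 κ η P s h0 h1 hP).1

lemma CM_ES_smul {κ : ℕ} (η c : ℝ) (φ : (U κ ⊕ U κ → ℝ) → ℝ) :
    ∀ (k : ℕ) (P : U κ ⊕ U κ → ℝ), ES η (fun P => c * φ P) k P = c * ES η φ k P := by
  intro k
  induction k with
  | zero => intro P; rfl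
  | succ k ih =>
    intro P
    unfold ES
    split_ifs
    · rfl
    · rw [← CM_av_smul]
      congr 1
      funext s
      exact ih _

theorem CM (h4 : St_M4) (h5 : St_P5) (hr : St_R1) (h3 : St_P3) : St_CM := by
  intro κ g ℓ ε hκ hg hℓ hL hε0 hε1 hgood
  have hη0 : 0 ≤ et κ := by unfold et; positivity
  have hηpos : 0 < et κ := by unfold et; positivity
  have h256 : et κ * 256 ^ κ = 1 := by
    unfold et
    field_simp
  have hκ1 : κ ≠ 0 := by omega
  have h32 : (4 : ℝ) * 8 ^ κ ≤ 256 ^ κ := by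
    have : (256 : ℝ) ^ κ = 32 ^ κ * 8 ^ κ := by rw [← mul_pow]; norm_num
    rw [this]
    apply mul_le_mul_of_nonneg_right _ (by positivity)
    calc (4 : ℝ) ≤ 32 := by norm_num
      _ ≤ 32 ^ κ := le_self_pow₀ (by norm_num) hκ1
  have h128 : (3 : ℝ) * 2 ^ κ ≤ 256 ^ κ := by
    have : (256 : ℝ) ^ κ = 128 ^ κ * 2 ^ κ := by rw [← mul_pow]; norm_num
    rw [this]
    apply mul_le_mul_of_nonneg_right _ (by positivity)
    calc (3 : ℝ) ≤ 128 := by norm_num
      _ ≤ 128 ^ κ := le_self_pow₀ (by norm_num) hκ1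
  have hc1 : 4 * et κ * 8 ^ κ ≤ 1 := by
    calc 4 * et κ * 8 ^ κ = et κ * (4 * 8 ^ κ) := by ring
      _ ≤ et κ * 256 ^ κ := mul_le_mul_of_nonneg_left h32 hη0
      _ = 1 := h256
  have hc2 : 3 * et κ * 2 ^ κ ≤ 1 := by
    calc 3 * et κ * 2 ^ κ = et κ * (3 * 2 ^ κ) := by ring
      _ ≤ et κ * 256 ^ κ := mul_le_mul_of_nonneg_left h128 hη0
      _ = 1 := h256
  have hc3 : 2 * et κ * 2 ^ κ ≤ 1 := by
    have : 0 ≤ et κ * 2 ^ κ := by positivity
    linarith
  have hbox0 : Box (fun _ : U κ ⊕ U κ => (0 : ℝ)) := fun i => by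
    show |(0 : ℝ)| ≤ 1
    rw [abs_zero]
    exact zero_le_one
  have hM := h4 κ g ℓ (et κ) (fun _ => 0) (TT κ)
    (fun a => abs_le.mpr ⟨by linarith [(hg a).1], (hg a).2⟩) hL hℓ hη0 hc1 hbox0
  rw [CM_ml_zero] at hM
  have hP := h5 κ hκ
  -- the pointwise comparison
  have hcmp : ∀ P : U κ ⊕ U κ → ℝ, Box P → (1 - ε) * (97 / 100) *
      (if 2 / 5 ≤ Sf P ∧ Sf P ≤ 2 / 5 + 3 * et κ then (1 : ℝ) else 0) ≤ ml g P := by
    intro P hPb
    split_ifs with h
    · rw [mul_one]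
      have h98 := mul_le_mul_of_nonneg_left (hr κ P hPb) (sub_nonneg.mpr hε1)
      rw [← CM_ml_smul] at h98
      refine h98.trans (CM_ml_mono _ _ P hPb fun a => ?_)
      split_ifs with ha
      · rw [mul_one]
        apply hgood a
        have e1 : |Sf P - 2 / 5| ≤ 1 / 2 ^ κ := by
          rw [abs_le, le_div_iff₀ (by positivity)]
          have h2κ : (0 : ℝ) < 2 ^ κ := by positivity
          constructor
          · have h6 : (0 : ℝ) ≤ Sf P - 2 / 5 := by linarith [h.1]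
            have h7 : -(1 / (2 : ℝ) ^ κ) ≤ 0 := by
              have : (0 : ℝ) < 1 / 2 ^ κ := by positivity
              linarith
            linarith
          · have h6 : Sf P - 2 / 5 ≤ 3 * et κ := by linarith [h.2]
            calc (Sf P - 2 / 5) * 2 ^ κ ≤ 3 * et κ * 2 ^ κ :=
                  mul_le_mul_of_nonneg_right h6 h2κ.le
              _ ≤ 1 := hc2
        have e2 := abs_add_le ((FF a : ℝ) / 8 ^ κ - Sf P) (Sf P - 2 / 5)
        rw [sub_add_sub_cancel] at e2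
        calc |(FF a : ℝ) / 8 ^ κ - 2 / 5| ≤ 10 / 2 ^ κ + 1 / 2 ^ κ := e2.trans (add_le_add ha e1)
          _ = 11 / 2 ^ κ := by ring
      · rw [mul_zero]
        exact (hg a).1
    · rw [mul_zero]
      have h9 := CM_ml_mono (fun _ => 0) g P hPb (fun a => (hg a).1)
      have h10 : ml (fun _ : U κ ⊕ U κ → Bool => (0 : ℝ)) P = 0 := by
        unfold ml
        simp
      rw [h10] at h9
      exact h9
  have hES := CM_ES_mono h3 hη0 hc3 _ _ hcmp (TT κ) (fun _ => 0) hbox0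
  rw [CM_ES_smul] at hES
  have hmain : (1 - ε) * (97 / 100) * (19 / 20) ≤ ES (et κ) (ml g) (TT κ) (fun _ => 0) := by
    refine le_trans (mul_le_mul_of_nonneg_left ?_ ?_) hES
    · convert hP using 3
    · have : 0 ≤ 1 - ε := sub_nonneg.mpr hε1
      positivity
  -- the error
  have hT : (TT κ : ℝ) * (et κ) ^ 2 = 300 := by
    unfold TT
    have h1 : (65536 : ℝ) ^ κ * et κ ^ 2 = 1 := by
      have : (65536 : ℝ) ^ κ = (256 ^ κ) ^ 2 := by
        rw [← pow_mul, mul_comm κ 2, pow_mul]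
        norm_num
      rw [this, ← mul_pow, mul_comm, h256, one_pow]
    push_cast
    rw [mul_assoc, h1, mul_one]
  have h16 : (4096 : ℝ) ^ κ * et κ ^ 2 = 1 / 16 ^ κ := by
    rw [eq_div_iff (by positivity)]
    have h1 : (4096 : ℝ) ^ κ * 16 ^ κ = (256 ^ κ) ^ 2 := by
      rw [← mul_pow, ← pow_mul, mul_comm κ 2, pow_mul]
      norm_num
    calc (4096 : ℝ) ^ κ * et κ ^ 2 * 16 ^ κ = (4096 ^ κ * 16 ^ κ) * et κ ^ 2 := by ring
      _ = (et κ * 256 ^ κ) ^ 2 := by rw [h1]; ring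
      _ = 1 := by rw [h256, one_pow]
  have herr : (TT κ : ℝ) * err κ (et κ) ℓ = 1200 * ℓ / 2 ^ κ + 210000 / 16 ^ κ := by
    unfold err
    calc (TT κ : ℝ) * (4 * et κ ^ 2 * ℓ / 2 ^ κ + 700 * 4096 ^ κ * et κ ^ 4) =
        4 * (TT κ * et κ ^ 2) * ℓ / 2 ^ κ +
          700 * (TT κ * et κ ^ 2) * (4096 ^ κ * et κ ^ 2) := by ring
      _ = _ := by
        rw [hT, h16]
        ring
  rw [herr] at hM
  have hM2 := (abs_le.mp hM).2
  nlinarith

end Pool.Agent.H516R2.EQP
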