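import Pool.Agent.H516R2.EQP.Props
import Pool.Agent.H620R2.Gauge.Dt

/-! Oracle algorithms are decision trees in the variables of the instance -/

namespace Pool.Agent.H516R2.EQP

open Pool.Agent.NPC Pool.Agent.H620R2.Gauge Finset H568R2 Pool.Agent.H676

/-- every bit of the oracle depends on at most one variable -/
theorem DE_form (κ : ℕ) (B : Oracle) (q : List Bool) :
    (∃ c : Bool, ∀ a : Cube κ → Bool, emb κ B a q = c) ∨
      ∃ (i : Cube κ) (c : Bool), ∀ a : Cube κ → Bool, emb κ B a q = (c ^^ a i) := by
  unfold emb
  by_cases h : q.length = 4 + 3 * κ
  · simp only [if_pos h]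
    unfold cell
    by_cases h1 : (cOf q).1 = false ∧ (cOf q).2.1 = false
    · left
      refine ⟨par1 (uOf κ q) ^^ bent (uOf κ q), fun a => ?_⟩
      rw [if_pos h1]
    · by_cases h2 : (cOf q).1 = true ∧ (cOf q).2.1 = true ∧ (cOf q).2.2 = true
      · cases hr : q.getD 0 false with
        | true =>
          left
          refine ⟨par1 (uOf κ q) ^^ bent (uOf κ q), fun a => ?_⟩
          rw [if_neg h1, if_pos h2]
          simp
        | false =>
          right
          refine ⟨Sum.inr (lOf κ q, uOf κ q), par1 (uOf κ q) ^^ bent (uOf κ q), fun a => ?_⟩
          rw [if_neg h1, if_pos h2]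
          simp
      · cases hr : q.getD 0 false with
        | true =>
          right
          refine ⟨Sum.inl (Sum.inr (uOf κ q)), par1 (uOf κ q), fun a => ?_⟩
          rw [if_neg h1, if_neg h2]
          simp
        | false =>
          right
          refine ⟨Sum.inl (Sum.inl (uOf κ q)), par1 (uOf κ q), fun a => ?_⟩
          rw [if_neg h1, if_neg h2]
          simp
  · left
    exact ⟨B q, fun a => by rw [if_neg h]⟩

theorem DE_run (M : Alg) (κ : ℕ) (B : Oracle) (y : List Bool) : ∀ (n : ℕ) (acc : List Bool),
    DTr n (fun a : Cube κ → Bool => decide (M.run (emb κ B a) y n acc = some [true])) := by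
  intro n
  induction n with
  | zero =>
    intro acc
    exact ⟨false, fun a => by simp [Alg.run]⟩
  | succ n ih =>
    intro acc
    rcases hq : M.D (pairBits y acc) with _ | ⟨c, q⟩
    · exact DTr.const ⟨false, fun a => by simp [Alg.run, hq]⟩
    · cases c with
      | true => exact DTr.const ⟨decide (q = [true]), fun a => by simp [Alg.run, hq]⟩
      | false =>
        rcases DE_form κ B q with ⟨c, hc⟩ | ⟨i, c, hc⟩
        · have h2 : (fun a : Cube κ → Bool => decide (M.run (emb κ B a) y (n + 1) acc =
              some [true])) = fun a => decide (M.run (emb κ B a) y n (acc ++ [c]) =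
              some [true]) := by
            funext a
            simp only [Alg.run, hq, hc]
          rw [h2]
          exact (ih (acc ++ [c])).succ
        · refine Or.inr ⟨i, fun b => ?_⟩
          have h1 := DTr_update (ih (acc ++ [c ^^ b])) i b
          have h2 : (fun a : Cube κ → Bool => decide (M.run (emb κ B (Function.update a
              i b)) y (n + 1) acc = some [true])) = fun a => decide (M.run (emb κ B
              (Function.update a i b)) y n (acc ++ [c ^^ b]) = some [true]) := by
            funext a
            simp only [Alg.run, hq, hc, Function.update_self]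
          rw [h2]
          exact h1

theorem DE : St_DE := fun M κ B y => DE_run M κ B y _ []

end Pool.Agent.H516R2.EQP
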