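import Pool.Agent.H516R2.EQP.Props

/-! # Quantified formulas and quantified functions -/

namespace Pool.Agent.H516R2.EQP

open Pool.Agent.NPC Pool.Agent.H620R2.Gauge Finset H568R2 Pool.Agent.H676

theorem DQ : St_DQ := by
  intro M A V I F a m k
  induction k with
  | zero =>
    intro b y hV hF
    have h0 := hF y (by omega)
    have h1 := hV y
    unfold Quant QF
    rw [h0, h1]
    simp
  | succ k ih =>
    intro b y hV hF
    have key : ∀ (c : Bool) (w : List Bool), w.length ≤ m →
        (Quant m V k c (pairBits w y) ↔ QF m F k c (pairBits w y) a = true) := by
      intro c w hw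
      refine ih c (pairBits w y) hV ?_
      intro x hx
      refine hF x (hx.trans ?_)
      rw [length_pairBits]
      have : (k + 1) * (2 * m + 1) = k * (2 * m + 1) + (2 * m + 1) := by ring
      rw [this]
      omega
    cases b with
    | true =>
      simp only [Quant, QF, decide_eq_true_eq]
      constructor
      · rintro ⟨w, hw, h⟩
        exact ⟨w, hw, (key false w hw).1 h⟩
      · rintro ⟨w, hw, h⟩
        exact ⟨w, hw, (key false w hw).2 h⟩
    | false =>
      simp only [Quant, QF, decide_eq_true_eq]
      constructor
      · intro h w hw
        exact (key true w hw).1 (h w hw)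
      · intro h w hw
        exact (key true w hw).2 (h w hw)

end Pool.Agent.H516R2.EQP
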