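import Pool.Agent.H516R2.EQP.Props

/-! # Small facts on decision trees and quantified functions -/

namespace Pool.Agent.H516R2.EQP

open Pool.Agent.NPC Pool.Agent.H620R2.Gauge Finset H568R2 Pool.Agent.H676

theorem DS_left {I J : Type} [Fintype I] [DecidableEq I] [Fintype J] [DecidableEq J] (t : ℕ) :
    ∀ (f : (I ⊕ J → Bool) → Bool), DTr t f → ∀ z : J → Bool,
      DTr t (fun p : I → Bool => f (Sum.elim p z)) := by
  induction t with
  | zero =>
    rintro f ⟨c, h⟩ z
    exact ⟨c, fun x => h _⟩
  | succ t ih =>
    rintro f (⟨c, h⟩ | ⟨i, h⟩) z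
    · exact Or.inl ⟨c, fun x => h _⟩
    · cases i with
      | inl i =>
        refine Or.inr ⟨i, fun b => ?_⟩
        have h1 := ih _ (h b) z
        refine (congrArg (DTr t) (funext fun p => ?_)).mp h1
        show f (Function.update (Sum.elim p z) (Sum.inl i) b) =
          f (Sum.elim (Function.update p i b) z)
        rw [Sum.update_elim_inl]
      | inr j =>
        have h1 := (ih _ (h (z j)) z).succ
        refine (congrArg (DTr (t + 1)) (funext fun p => ?_)).mp h1
        show f (Function.update (Sum.elim p z) (Sum.inr j) (z j)) = f (Sum.elim p z)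
        rw [Sum.update_elim_inr, Function.update_eq_self]

theorem DS_right {I J : Type} [Fintype I] [DecidableEq I] [Fintype J] [DecidableEq J] (t : ℕ) :
    ∀ (f : (I ⊕ J → Bool) → Bool), DTr t f → ∀ p : I → Bool,
      DTr t (fun z : J → Bool => f (Sum.elim p z)) := by
  induction t with
  | zero =>
    rintro f ⟨c, h⟩ p
    exact ⟨c, fun x => h _⟩
  | succ t ih =>
    rintro f (⟨c, h⟩ | ⟨i, h⟩) p
    · exact Or.inl ⟨c, fun x => h _⟩
    · cases i with
      | inl i =>
        have h1 := (ih _ (h (p i)) p).succ
        refine (congrArg (DTr (t + 1)) (funext fun z => ?_)).mp h1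
        show f (Function.update (Sum.elim p z) (Sum.inl i) (p i)) = f (Sum.elim p z)
        rw [Sum.update_elim_inl, Function.update_eq_self]
      | inr j =>
        refine Or.inr ⟨j, fun b => ?_⟩
        have h1 := ih _ (h b) p
        refine (congrArg (DTr t) (funext fun z => ?_)).mp h1
        show f (Function.update (Sum.elim p z) (Sum.inr j) b) =
          f (Sum.elim p (Function.update z j b))
        rw [Sum.update_elim_inr]

theorem DS_xor {I : Type} [Fintype I] [DecidableEq I] (t : ℕ) :
    ∀ (f : (I → Bool) → Bool) (c : I → Bool), DTr t f → DTr t (fun a => f (fun i => a i ^^ c i)) := by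
  induction t with
  | zero =>
    rintro f c ⟨d, h⟩
    exact ⟨d, fun x => h _⟩
  | succ t ih =>
    rintro f c (⟨d, h⟩ | ⟨i, h⟩)
    · exact Or.inl ⟨d, fun x => h _⟩
    · refine Or.inr ⟨i, fun b => ?_⟩
      have h1 := ih _ c (h (b ^^ c i))
      refine (congrArg (DTr t) (funext fun a => ?_)).mp h1
      show f (Function.update (fun k => a k ^^ c k) i (b ^^ c i)) =
        f (fun k => Function.update a i b k ^^ c k)
      congr 1
      funext k
      by_cases hk : k = i
      · subst hk; simp
      · simp [Function.update_of_ne hk]

theorem DS_sub {I J : Type} (φ : (J → Bool) → (I → Bool)) (m : ℕ)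
    (F : List Bool → (I → Bool) → Bool) (k : ℕ) : ∀ (b : Bool) (y : List Bool) (a : J → Bool),
    QF m F k b y (φ a) = QF m (fun y a => F y (φ a)) k b y a := by
  induction k with
  | zero => intro b y a; rfl
  | succ k ih =>
    intro b y a
    have h1 : ∀ (c : Bool) (w : List Bool), QF m F k c (pairBits w y) (φ a) =
        QF m (fun y a => F y (φ a)) k c (pairBits w y) a := fun c w => ih c _ a
    rw [Bool.eq_iff_iff]
    cases b with
    | true => simp only [QF, decide_eq_true_eq, h1]
    | false => simp only [QF, decide_eq_true_eq, h1]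

theorem DS_neg {I : Type} (m : ℕ) (F : List Bool → (I → Bool) → Bool) (k : ℕ) :
    ∀ (b : Bool) (y : List Bool) (a : I → Bool),
    QF m (fun y a => !F y a) k (!b) y a = !QF m F k b y a := by
  induction k with
  | zero => intro b y a; rfl
  | succ k ih =>
    intro b y a
    cases b with
    | true =>
      have h : ∀ y, QF m (fun y a => !F y a) k true y a = !QF m F k false y a :=
        fun y => ih false y a
      rw [Bool.eq_iff_iff, Bool.not_eq_true']
      simp only [Bool.not_true, QF, h, decide_eq_true_eq, decide_eq_false_iff_not,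
        Bool.not_eq_true']
      constructor
      · rintro h1 ⟨w, hw, h2⟩
        rw [h1 w hw] at h2
        exact Bool.false_ne_true h2
      · intro h1 w hw
        rw [← Bool.not_eq_true]
        exact fun h2 => h1 ⟨w, hw, h2⟩
    | false =>
      have h : ∀ y, QF m (fun y a => !F y a) k false y a = !QF m F k true y a :=
        fun y => ih true y a
      rw [Bool.eq_iff_iff, Bool.not_eq_true']
      simp only [Bool.not_false, QF, h, decide_eq_true_eq, decide_eq_false_iff_not,
        Bool.not_eq_true']
      constructor
      · rintro ⟨w, hw, h2⟩ h1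
        rw [h1 w hw] at h2
        exact Bool.false_ne_true h2.symm
      · intro h1
        by_contra h2
        apply h1
        intro w hw
        by_contra h3
        exact h2 ⟨w, hw, by simpa using h3⟩

theorem DS : St_DS :=
  ⟨fun _ _ _ _ _ _ t f h => ⟨fun z => DS_left t f h z, fun p => DS_right t f h p⟩,
    fun _ _ _ t f c h => DS_xor t f c h,
    fun _ _ φ m F k b y a => DS_sub φ m F k b y a,
    fun _ m F k b y a => DS_neg m F k b y a⟩

end Pool.Agent.H516R2.EQP
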