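import Pool.Agent.H516R2.EQP.Props

/-!
# The theorem: diagonalisation
-/

namespace Pool.Agent.H516R2.EQP

open Pool.Agent.NPC Pool.Agent.H620R2.Gauge Finset H568R2 Pool.Agent.H676

/-- the invariant of the construction -/
def FI_Inv (s : Oracle × ℕ) : Prop :=
  (∀ w : List Bool, s.2 < w.length → s.1 w = base w) ∧
    ∀ κ : ℕ, alpha s.1 κ = 0 ∨ alpha s.1 κ = 1 / 2

/-- the language given by an oracle -/
def FI_L (A : Oracle) : Set (List Bool) := {x | alpha A x.length = 1 / 2}

/-- the algorithm `M` with the bound `p` and `k` quantifiers does not decide the language -/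
def FI_Bad (A : Oracle) (T : Alg × Polynomial ℕ × ℕ) : Prop :=
  ∀ V : List Bool → List Bool, (∀ x, T.1.out A x = some (V x)) →
    ¬ ∀ x, x ∈ FI_L A ↔ Quant (T.2.1.eval x.length) V T.2.2 true x

/-- the transition -/
def FI_Next (T : Alg × Polynomial ℕ × ℕ) (s s' : Oracle × ℕ) : Prop :=
  FI_Inv s' ∧ s.2 < s'.2 ∧ (∀ w : List Bool, w.length ≤ s.2 → s'.1 w = s.1 w) ∧
    ∀ A : Oracle, (∀ w : List Bool, w.length ≤ s'.2 → A w = s'.1 w) → FI_Bad A T

/-- a diagonalisation lemma -/
theorem FI_diag (T0 : Alg × Polynomial ℕ × ℕ)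
    (hal : ∀ (κ : ℕ) (A A' : Oracle), (∀ w : List Bool, w.length = 4 + 3 * κ → A w = A' w) →
      alpha A κ = alpha A' κ)
    (h0 : FI_Inv (base, 0))
    (hs : ∀ T s, FI_Inv s → ∃ s', FI_Next T s s') :
    ∃ A : Oracle, (∀ κ, alpha A κ = 0 ∨ alpha A κ = 1 / 2) ∧ ∀ T, FI_Bad A T := by
  classical
  have hc : Countable (Alg × Polynomial ℕ × ℕ) := by
    have h2 : Countable (Polynomial ℕ) := by
      have : Function.Injective (fun p : Polynomial ℕ => (p.toFinsupp.coeff : ℕ →₀ ℕ)) := by
        intro p q h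
        ext n
        exact DFunLike.congr_fun h n
      exact this.countable
    infer_instance
  haveI : Nonempty (Alg × Polynomial ℕ × ℕ) := ⟨T0⟩
  obtain ⟨enum, henum⟩ := exists_surjective_nat (Alg × Polynomial ℕ × ℕ)
  choose! nx hnx using hs
  let st : ℕ → Oracle × ℕ := fun e => Nat.rec (base, 0) (fun e s => nx (enum e) s) e
  have st0 : st 0 = (base, 0) := rfl
  have stS : ∀ e, st (e + 1) = nx (enum e) (st e) := fun e => rfl
  have hI : ∀ e, FI_Inv (st e) := by
    intro e
    induction e with
    | zero => rw [st0]; exact h0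
    | succ e ih => rw [stS]; exact (hnx _ _ ih).1
  have hN : ∀ e, FI_Next (enum e) (st e) (st (e + 1)) := fun e => by
    rw [stS]; exact hnx _ _ (hI e)
  have hge : ∀ e, e ≤ (st e).2 := by
    intro e
    induction e with
    | zero => exact Nat.zero_le _
    | succ e ih => have := (hN e).2.1; omega
  have hagree : ∀ e d : ℕ, (st e).2 ≤ (st (e + d)).2 ∧
      ∀ w : List Bool, w.length ≤ (st e).2 → (st (e + d)).1 w = (st e).1 w := by
    intro e d
    induction d with
    | zero => exact ⟨le_rfl, fun w _ => rfl⟩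
    | succ d ih =>
      have h1 := hN (e + d)
      refine ⟨ih.1.trans h1.2.1.le, fun w hw => ?_⟩
      rw [← ih.2 w hw]
      exact h1.2.2.1 w (hw.trans ih.1)
  let A : Oracle := fun w => (st w.length).1 w
  have hA : ∀ e, ∀ w : List Bool, w.length ≤ (st e).2 → A w = (st e).1 w := by
    intro e w hw
    rcases le_total w.length e with h | h
    · obtain ⟨d, rfl⟩ := Nat.exists_eq_add_of_le h
      exact ((hagree w.length d).2 w (hge _)).symm
    · obtain ⟨d, hd⟩ := Nat.exists_eq_add_of_le h
      show (st w.length).1 w = _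
      rw [hd]
      exact (hagree e d).2 w hw
  refine ⟨A, fun κ => ?_, fun T => ?_⟩
  · have h1 : alpha A κ = alpha (st (4 + 3 * κ)).1 κ := by
      apply hal
      intro w hw
      apply hA
      rw [hw]
      exact hge _
    rw [h1]
    exact (hI _).2 κ
  · obtain ⟨e, rfl⟩ := henum T
    exact (hN e).2.2.2 A (hA (e + 1))

/-- one step of the construction -/
theorem FI_step (hal : St_AL) (hde : St_DE) (hdq : St_DQ) (h2 : St_H2)
    (T : Alg × Polynomial ℕ × ℕ) (s : Oracle × ℕ) (hs : FI_Inv s) : ∃ s', FI_Next T s s' := by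
  obtain ⟨M, p, k⟩ := T
  obtain ⟨B, n⟩ := s
  obtain ⟨hal1, -, hal3⟩ := hal
  obtain ⟨hs1, hs2⟩ := hs
  simp only at hs1 hs2
  let len : Polynomial ℕ := Polynomial.X + Polynomial.C k * (Polynomial.C 2 * p + Polynomial.C 1)
  let P : Polynomial ℕ := M.p.comp len + len + Polynomial.C 2 +
    Polynomial.C 4 * Polynomial.X + Polynomial.C k
  obtain ⟨κ₀, hκ₀⟩ := h2 k P
  let κ : ℕ := κ₀ + n
  have hκ : κ ≥ κ₀ := Nat.le_add_right _ _
  have hκn : n ≤ κ := Nat.le_add_left _ _
  let m : ℕ := p.eval κ
  have hlen : len.eval κ = κ + k * (2 * m + 1) := by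
    simp only [len, Polynomial.eval_add, Polynomial.eval_mul, Polynomial.eval_X, Polynomial.eval_C]
    rfl
  have hP : P.eval κ = M.p.eval (κ + k * (2 * m + 1)) + (κ + k * (2 * m + 1)) + 2 + 4 * κ + k := by
    simp only [P, Polynomial.eval_add, Polynomial.eval_mul, Polynomial.eval_X, Polynomial.eval_C,
      Polynomial.eval_comp, hlen]
  let y : List Bool := List.replicate κ true
  have hy : y.length = κ := List.length_replicate
  let F : List Bool → (Cube κ → Bool) → Bool :=
    fun y' a => decide (M.out (emb κ B a) y' = some [true])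
  have hAdm : Adm κ (P.eval κ) m k F y := by
    refine ⟨by omega, by rw [hy, hP]; omega, ?_⟩
    intro y' hy'
    refine (hde M κ B y').mono ?_
    have h3 : M.p.eval y'.length ≤ M.p.eval (κ + k * (2 * m + 1)) := by
      apply eval_mono
      rw [← hy]
      exact hy'
    rw [hP]
    omega
  have hH := hκ₀ κ hκ m F y hAdm
  obtain ⟨qb, hqb⟩ := M.out_local
  -- the value of alpha at the new instance
  have hY : ∀ a : Cube κ → Bool, Yes a → alpha (emb κ B a) κ = 1 / 2 := by
    intro a ha
    rw [hal3]
    have h3 : (2 * 8 ^ κ + 5 * FF (fun i => a (Sum.inl i)) + SS (fun w => a (Sum.inr w)) : ℤ) =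
        4 * 8 ^ κ := by
      unfold Yes at ha
      linarith
    rw [h3]
    push_cast
    rw [pow_succ]
    have h4 : (8 : ℝ) ^ κ ≠ 0 := by positivity
    field_simp
    norm_num
  have hN : ∀ a : Cube κ → Bool, No a → alpha (emb κ B a) κ = 0 := by
    intro a ha
    rw [hal3]
    have h3 : (2 * 8 ^ κ + 5 * FF (fun i => a (Sum.inl i)) + SS (fun w => a (Sum.inr w)) : ℤ) =
        0 := by
      unfold No at ha
      linarith
    rw [h3]
    simp
  have main : ∀ a : Cube κ → Bool, (Yes a ∧ QF m F k true y a = false ∨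
      No a ∧ QF m F k true y a = true) →
      FI_Next (M, p, k) (B, n) (emb κ B a, n + 1 + (4 + 3 * κ) + qb.eval (κ + k * (2 * m + 1))) := by
    intro a ha
    refine ⟨⟨?_, ?_⟩, ?_, ?_, ?_⟩
    · intro w hw
      simp only at hw ⊢
      have h3 : w.length ≠ 4 + 3 * κ := by omega
      unfold emb
      rw [if_neg h3]
      exact hs1 w (by omega)
    · intro κ'
      simp only
      by_cases h3 : κ' = κ
      · subst h3
        rcases ha with ha | ha
        · exact Or.inr (hY a ha.1)
        · exact Or.inl (hN a ha.1)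
      · have h4 : alpha (emb κ B a) κ' = alpha B κ' := by
          apply hal1
          intro w hw
          have h5 : w.length ≠ 4 + 3 * κ := by omega
          unfold emb
          rw [if_neg h5]
        rw [h4]
        exact hs2 κ'
    · simp only
      omega
    · intro w hw
      simp only at hw ⊢
      have h3 : w.length ≠ 4 + 3 * κ := by omega
      unfold emb
      rw [if_neg h3]
    · intro A hA V hV hL
      simp only at hA hV hL
      have hout : ∀ x : List Bool, x.length ≤ y.length + k * (2 * m + 1) →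
          F x a = decide (M.out A x = some [true]) := by
        intro x hx
        obtain ⟨Q, -, hQ2, hQ3⟩ := hqb (emb κ B a) x
        have h3 : M.out A x = M.out (emb κ B a) x := by
          apply hQ3
          intro q hq
          apply hA
          have h4 := hQ2 q hq
          have h5 : qb.eval x.length ≤ qb.eval (κ + k * (2 * m + 1)) := by
            apply eval_mono
            rw [← hy]
            exact hx
          omega
        show decide (M.out (emb κ B a) x = some [true]) = _
        rw [h3]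
      have hQ := hdq M A V (Cube κ) F a m k true y hV hout
      have hLy := hL y
      rw [hy] at hLy
      have hmem : y ∈ FI_L A ↔ alpha (emb κ B a) κ = 1 / 2 := by
        show alpha A y.length = 1 / 2 ↔ _
        rw [hy, hal1 κ A (emb κ B a)]
        intro w hw
        apply hA
        omega
      rw [hmem] at hLy
      rcases ha with ⟨ha1, ha2⟩ | ⟨ha1, ha2⟩
      · have h3 := hQ.1 (hLy.1 (hY a ha1))
        rw [ha2] at h3
        exact absurd h3 (by decide)
      · have h3 := hLy.2 (hQ.2 ha2)
        rw [hN a ha1] at h3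
        norm_num at h3
  rcases hH with ⟨a, ha⟩ | ⟨a, ha⟩
  · exact ⟨_, main a (Or.inl ha)⟩
  · exact ⟨_, main a (Or.inr ha)⟩

/-- the theorem -/
theorem FI (hqf : St_QF) (hqc : St_QC) (hal : St_AL) (hde : St_DE) (hdq : St_DQ) (h2 : St_H2) :
    St_FI := by
  obtain ⟨A, hA1, hA2⟩ := FI_diag (⟨fun x => x, polyTime_id, 0⟩, 0, 0) hal.1
    ⟨fun w _ => rfl, fun κ => Or.inl (hal.2.1 κ)⟩
    (fun T s hs => FI_step hal hde hdq h2 T s hs)
  refine ⟨A, FI_L A, ⟨fun x => circ x.length, hqc.1, fun x => ⟨(hqc.2 _).le, ?_, ?_⟩⟩, ?_⟩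
  · intro hx
    rw [hqf]
    have h3 : alpha A x.length = 1 / 2 := hx
    rw [h3]
    norm_num
  · intro hx
    rw [hqf]
    have h3 : alpha A x.length = 0 := (hA1 _).resolve_right hx
    rw [h3]
    norm_num
  · rintro ⟨V, p, k, ⟨M, hM⟩, hL⟩
    exact hA2 (M, p, k) V hM hL

end Pool.Agent.H516R2.EQP
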