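import Pool.Agent.H516R2.EQP.Props

/-! Basic facts about the Hadamard matrix and random signs. -/

namespace Pool.Agent.H516R2.EQP

open Pool.Agent.NPC Pool.Agent.H620R2.Gauge Finset H568R2 Pool.Agent.H676

lemma B_sg_sq (b : Bool) : sg b * sg b = 1 := by cases b <;> simp [sg]

lemma B_sz_cast (b : Bool) : ((sz b : ℤ) : ℝ) = sg b := by cases b <;> simp [sz, sg]

lemma B_cardU (κ : ℕ) : Fintype.card (U κ) = 4 ^ κ := by
  simp [U]

lemma B_cardW (κ : ℕ) : Fintype.card (W κ) = 8 ^ κ := by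
  have : Fintype.card (W κ) = 2 ^ κ * 4 ^ κ := by simp [W]
  rw [this, ← mul_pow]; norm_num

lemma B_Hz_comm {κ : ℕ} (u v : U κ) : Hz u v = Hz v u := by
  unfold Hz
  refine Finset.prod_congr rfl fun k _ => ?_
  rw [Bool.and_comm (u k).1, Bool.and_comm (u k).2]

lemma B_Hz_abs {κ : ℕ} (u v : U κ) : |Hz u v| = 1 := by
  unfold Hz
  rw [Finset.abs_prod]
  refine Finset.prod_eq_one fun k _ => ?_
  cases (u k).1 <;> cases (u k).2 <;> cases (v k).1 <;> cases (v k).2 <;> simp [sz]

lemma B_Hd_comm {κ : ℕ} (u v : U κ) : Hd u v = Hd v u := by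
  unfold Hd; rw [B_Hz_comm]

lemma B_Hd_abs {κ : ℕ} (u v : U κ) : |Hd u v| = 1 / 2 ^ κ := by
  unfold Hd
  rw [abs_div, ← Int.cast_abs, B_Hz_abs]
  simp

lemma B_orth {κ : ℕ} (u u' : U κ) :
    ∑ v, Hd u v * Hd u' v = if u = u' then (1 : ℝ) else 0 := by
  have h1 : ∀ v : U κ, Hd u v * Hd u' v = (∏ k, (sg ((u k).1 && (v k).1) *
      sg ((u k).2 && (v k).2) * (sg ((u' k).1 && (v k).1) * sg ((u' k).2 && (v k).2)))) / 4 ^ κ := by
    intro v
    unfold Hd Hz
    push_cast
    simp_rw [B_sz_cast]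
    rw [div_mul_div_comm, ← Finset.prod_mul_distrib, ← mul_pow]
    norm_num
  rw [Finset.sum_congr rfl fun v _ => h1 v, ← Finset.sum_div]
  have h2 := Finset.prod_univ_sum (fun _ : Fin κ => (univ : Finset (Bool × Bool)))
    (fun k c => (sg ((u k).1 && c.1) * sg ((u k).2 && c.2) *
      (sg ((u' k).1 && c.1) * sg ((u' k).2 && c.2))))
  rw [Fintype.piFinset_univ] at h2
  rw [← h2]
  by_cases h : u = u'
  · subst h
    rw [if_pos rfl]
    have h3 : ∀ k ∈ (univ : Finset (Fin κ)), (∑ c : Bool × Bool, (sg ((u k).1 && c.1) *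
        sg ((u k).2 && c.2) * (sg ((u k).1 && c.1) * sg ((u k).2 && c.2)))) = 4 := by
      intro k _
      rw [Fintype.sum_prod_type]
      simp only [Fintype.sum_bool]
      cases (u k).1 <;> cases (u k).2 <;> simp [sg] <;> norm_num
    rw [Finset.prod_congr rfl h3]
    simp
  · rw [if_neg h]
    obtain ⟨k, hk⟩ := Function.ne_iff.1 h
    have : (∏ k, ∑ c : Bool × Bool, (sg ((u k).1 && c.1) * sg ((u k).2 && c.2) *
      (sg ((u' k).1 && c.1) * sg ((u' k).2 && c.2)))) = 0 := by
      refine Finset.prod_eq_zero (Finset.mem_univ k) ?_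
      rw [Fintype.sum_prod_type]
      simp only [Fintype.sum_bool]
      rcases hu : u k with ⟨a, b⟩
      rcases hu' : u' k with ⟨a', b'⟩
      rw [hu, hu'] at hk
      cases a <;> cases b <;> cases a' <;> cases b' <;> simp [sg] at hk ⊢
    rw [this]; simp

lemma B_pars {κ : ℕ} (f : U κ → ℝ) : ∑ v, (∑ u, Hd v u * f u) ^ 2 = ∑ u, f u ^ 2 := by
  have h1 : ∀ v : U κ, (∑ u, Hd v u * f u) ^ 2 =
      ∑ u, ∑ u', Hd u v * Hd u' v * (f u * f u') := by
    intro v
    rw [sq, Finset.sum_mul_sum]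
    refine Finset.sum_congr rfl fun u _ => Finset.sum_congr rfl fun u' _ => ?_
    rw [B_Hd_comm v u, B_Hd_comm v u']; ring
  rw [Finset.sum_congr rfl fun v _ => h1 v, Finset.sum_comm]
  refine Finset.sum_congr rfl fun u _ => ?_
  rw [Finset.sum_comm]
  have h2 : ∀ u' : U κ, ∑ v, Hd u v * Hd u' v * (f u * f u') =
      if u = u' then f u * f u' else 0 := by
    intro u'
    rw [← Finset.sum_mul, B_orth]
    split_ifs <;> simp
  rw [Finset.sum_congr rfl fun u' _ => h2 u']
  simp [sq]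

section
variable {J : Type*} [Fintype J] [DecidableEq J]

lemma B_av_odd (F : (J → Bool) → ℝ) (h : ∀ s, F (fun u => !s u) = - F s) : av F = 0 := by
  unfold av
  have h1 : ∑ s : J → Bool, F (fun u => !s u) = ∑ s, F s := by
    refine Fintype.sum_equiv ⟨fun s u => !s u, fun s u => !s u, fun s => by simp, fun s => by simp⟩
      _ _ (fun s => rfl)
  rw [Finset.sum_congr rfl fun s _ => h s, Finset.sum_neg_distrib] at h1
  have h2 : ∑ s : J → Bool, F s = 0 := by linarith
  rw [h2]; simp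

lemma B_av_two (u u' : J) : av (fun s : J → Bool => sg (s u) * sg (s u')) =
    if u = u' then (1 : ℝ) else 0 := by
  by_cases h : u = u'
  · subst h
    rw [if_pos rfl]
    unfold av
    simp only [B_sg_sq]
    simp
  · rw [if_neg h]
    unfold av
    have h1 : ∑ s : J → Bool, sg (s u) * sg (s u') =
        ∑ s : J → Bool, - (sg (s u) * sg (s u')) := by
      refine Fintype.sum_equiv (flp u) _ _ (fun s => ?_)
      have e1 : (flp u s) u = !(s u) := by simp [flp]
      have e2 : (flp u s) u' = s u' := by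
        simp [flp, Function.update_of_ne (Ne.symm h)]
      rw [e1, e2]
      cases s u <;> cases s u' <;> simp [sg]
    rw [Finset.sum_neg_distrib] at h1
    have h2 : ∑ s : J → Bool, sg (s u) * sg (s u') = 0 := by linarith
    rw [h2]; simp

lemma B_av_sum {K : Type*} (t : Finset K) (F : K → (J → Bool) → ℝ) :
    av (fun s => ∑ k ∈ t, F k s) = ∑ k ∈ t, av (F k) := by
  unfold av
  rw [Finset.sum_comm, Finset.sum_div]

lemma B_av_mul (c : ℝ) (F : (J → Bool) → ℝ) : av (fun s => c * F s) = c * av F := by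
  unfold av
  rw [← Finset.mul_sum, mul_div_assoc]

lemma B_av_lin (c c' : J → ℝ) :
    av (fun s : J → Bool => (∑ u, c u * sg (s u)) * (∑ u, c' u * sg (s u))) = ∑ u, c u * c' u := by
  have h1 : (fun s : J → Bool => (∑ u, c u * sg (s u)) * (∑ u, c' u * sg (s u))) =
      fun s => ∑ u, ∑ u', (c u * c' u') * (sg (s u) * sg (s u')) := by
    funext s
    rw [Finset.sum_mul_sum]
    refine Finset.sum_congr rfl fun u _ => Finset.sum_congr rfl fun u' _ => ?_
    ring
  rw [h1, B_av_sum]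
  refine Finset.sum_congr rfl fun u _ => ?_
  rw [B_av_sum]
  have h2 : ∀ u' ∈ (univ : Finset J), av (fun s : J → Bool => (c u * c' u') *
      (sg (s u) * sg (s u'))) = if u = u' then c u * c' u' else 0 := by
    intro u' _
    rw [B_av_mul, B_av_two]
    split_ifs <;> simp
  rw [Finset.sum_congr rfl h2]
  simp

end

theorem B : St_B := by
  intro κ
  refine ⟨B_Hd_comm, B_Hd_abs, B_orth, B_pars, B_av_two, B_av_lin, B_av_odd, ?_, B_cardU κ,
    B_cardW κ⟩
  intro s
  have h1 : ∑ u : U κ, sg (s u) ^ 2 = 4 ^ κ := by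
    have : ∀ u ∈ (univ : Finset (U κ)), sg (s u) ^ 2 = 1 := by
      intro u _; rw [sq, B_sg_sq]
    rw [Finset.sum_congr rfl this]
    simp
  refine ⟨by simpa [gg] using h1, ?_⟩
  have h2 := B_pars (fun u : U κ => sg (s u))
  rw [h1] at h2
  simpa [gg] using h2

end Pool.Agent.H516R2.EQP
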