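import Pool.Agent.H516R2.EQP.Props
import Pool.Agent.H516R2.EQP.B

/-!
# A quantified function which is true at all yes-instances is mostly true
-/

set_option autoImplicit false

namespace Pool.Agent.H516R2.EQP

open Pool.Agent.NPC Pool.Agent.H620R2.Gauge Finset H568R2 Pool.Agent.H676

section
variable {I J : Type} [Fintype I] [DecidableEq I] [Fintype J] [DecidableEq J]

lemma H1_av_sum (f : (I ⊕ J → Bool) → ℝ) :
    av f = av (fun a : I → Bool => av (fun z : J → Bool => f (Sum.elim a z))) := by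
  unfold av
  rw [← Finset.sum_div, div_div, Fintype.card_sum, pow_add, mul_comm ((2 : ℝ) ^ Fintype.card J)]
  congr 1
  rw [← (Equiv.sumArrowEquivProdArrow I J Bool).symm.sum_comp, Fintype.sum_prod_type]
  rfl

lemma H1_av_nonneg {f : (I → Bool) → ℝ} (h : ∀ x, 0 ≤ f x) : 0 ≤ av f := by
  unfold av
  exact div_nonneg (Finset.sum_nonneg fun x _ => h x) (by positivity)

lemma H1_abs_av (f : (I → Bool) → ℝ) : |av f| ≤ av (fun x => |f x|) := by
  unfold av
  rw [abs_div, abs_of_pos (show (0 : ℝ) < 2 ^ Fintype.card I by positivity)]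
  exact div_le_div_of_nonneg_right (Finset.abs_sum_le_sum_abs _ _) (by positivity)

lemma H1_av_sum_comm {K : Type*} (s : Finset K) (f : K → (I → Bool) → ℝ) :
    av (fun x => ∑ k ∈ s, f k x) = ∑ k ∈ s, av (f k) := by
  unfold av
  rw [← Finset.sum_div, Finset.sum_comm]

lemma H1_co_av (f : (I → Bool) → (J → Bool) → ℝ) (S : I → Bool) :
    co (fun x => av (fun z => f x z)) S = av (fun z => co (fun x => f x z) S) := by
  unfold co av
  have h : ∀ x : I → Bool, (∑ z : J → Bool, f x z) / 2 ^ Fintype.card J * ch S x =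
      (∑ z : J → Bool, f x z * ch S x) / 2 ^ Fintype.card J := by
    intro x
    rw [div_mul_eq_mul_div, Finset.sum_mul]
  simp_rw [h]
  rw [← Finset.sum_div, ← Finset.sum_div, Finset.sum_comm, div_div, div_div, mul_comm]

/-- the weight of an average -/
lemma H1_L12_av {V : Type} [Fintype V] [DecidableEq V]
    (f : (V ⊕ V → Bool) → (J → Bool) → ℝ) :
    L12 (fun x => av (fun z => f x z)) ≤ av (fun z => L12 (fun x => f x z)) := by
  unfold L12
  rw [H1_av_sum_comm]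
  refine Finset.sum_le_sum fun i _ => ?_
  rw [H1_av_sum_comm]
  refine Finset.sum_le_sum fun j _ => ?_
  rw [H1_co_av]
  exact H1_abs_av _

end

lemma H1_sz_odd (b : Bool) : Odd (sz b) := by
  cases b <;> simp [sz]

lemma H1_Hz_odd {κ : ℕ} (u v : U κ) : Odd (Hz u v) := by
  unfold Hz
  refine Finset.prod_induction _ Odd (fun a b ha hb => ha.mul hb) odd_one fun k _ => ?_
  exact (H1_sz_odd _).mul (H1_sz_odd _)

lemma H1_sum_odd {K : Type*} (s : Finset K) (f : K → ℤ) (hf : ∀ k ∈ s, Odd (f k))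
    (hs : Even s.card) : Even (∑ k ∈ s, f k) := by
  classical
  have h : ∀ s : Finset K, (∀ k ∈ s, Odd (f k)) → Even ((∑ k ∈ s, f k) - s.card) := by
    intro s
    induction s using Finset.induction_on with
    | empty => intro _; simp
    | insert a s ha ih =>
      intro h
      rw [Finset.sum_insert ha, Finset.card_insert_of_notMem ha]
      have h1 := ih fun k hk => h k (Finset.mem_insert_of_mem hk)
      have h2 : Even (f a - 1) := (h a (Finset.mem_insert_self _ _)).sub_odd odd_one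
      have h3 := h2.add h1
      have h4 : f a - 1 + (∑ k ∈ s, f k - (s.card : ℤ)) =
          f a + ∑ k ∈ s, f k - ((s.card + 1 : ℕ) : ℤ) := by
        push_cast
        ring
      rw [← h4]
      exact h3
  have h1 := h s hf
  have h2 : Even ((s.card : ℕ) : ℤ) := (Int.even_coe_nat _).2 hs
  have := h1.add h2
  simpa using this

lemma H1_even_card {κ : ℕ} (hκ : 1 ≤ κ) : Even (Fintype.card (U κ)) := by
  rw [B_cardU]
  exact (Nat.even_pow.2 ⟨by decide, by omega⟩)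

lemma H1_FF_even {κ : ℕ} (hκ : 1 ≤ κ) (a : U κ ⊕ U κ → Bool) : Even (FF a) := by
  unfold FF
  have h1 : ∀ u : U κ, Even (∑ v, sz (a (Sum.inl u)) * Hz u v * sz (a (Sum.inr v))) := by
    intro u
    refine H1_sum_odd _ _ (fun v _ => ((H1_sz_odd _).mul (H1_Hz_odd _ _)).mul (H1_sz_odd _)) ?_
    exact H1_even_card hκ
  exact Finset.sum_induction _ Even (fun a b ha hb => ha.add hb) Even.zero fun u _ => h1 u

/-- the bound of the switching lemma is small -/
lemma H1_eps {κ t m k len : ℕ} (ht : 1 ≤ t)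
    (h : len + k * (2 * m + 1) + 2 + 4 * κ + k ≤ t) :
    0 ≤ eps t m k len (1 / (24 * (t : ℝ))) ∧ eps t m k len (1 / (24 * (t : ℝ))) ≤ 1 / 16 ^ κ := by
  have ht0 : (0 : ℝ) < t := by exact_mod_cast ht
  have h1 : 12 * (t : ℝ) * (1 / (24 * (t : ℝ))) = 1 / 2 := by
    field_simp
    norm_num
  unfold eps
  rw [h1]
  refine ⟨by positivity, ?_⟩
  have h2 : (k : ℝ) ≤ 2 ^ k := by exact_mod_cast Nat.lt_two_pow_self.le
  have h3 : ((1 : ℝ) / 2) ^ (t + 1) ≤
      (1 / 2) ^ (len + k * (2 * m + 1) + 2 + 4 * κ + k) :=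
    pow_le_pow_of_le_one (by norm_num) (by norm_num) (by omega)
  have h4 : ((1 : ℝ) / 2) ^ (len + k * (2 * m + 1) + 2 + 4 * κ + k) *
      (2 ^ k * 2 ^ (len + k * (2 * m + 1) + 2)) = 1 / 16 ^ κ := by
    rw [pow_add _ (len + k * (2 * m + 1) + 2 + 4 * κ) k,
      pow_add _ (len + k * (2 * m + 1) + 2) (4 * κ), pow_mul _ 4 κ, one_div_pow, one_div_pow,
      one_div_pow, one_div_pow]
    norm_num
    field_simp
  calc (k : ℝ) * 2 ^ (len + k * (2 * m + 1) + 2) * (1 / 2) ^ (t + 1)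
      ≤ 2 ^ k * 2 ^ (len + k * (2 * m + 1) + 2) *
        (1 / 2) ^ (len + k * (2 * m + 1) + 2 + 4 * κ + k) := by
        gcongr
    _ = 1 / 16 ^ κ := by rw [mul_comm]; exact h4

lemma H1_sum_elim_inl {κ : ℕ} (a : U κ ⊕ U κ → Bool) (z : W κ → Bool) :
    (fun i => (Sum.elim a z : Cube κ → Bool) (Sum.inl i)) = a := rfl

lemma H1_yes {κ : ℕ} (a : U κ ⊕ U κ → Bool) (z : W κ → Bool)
    (h : SS z = 2 * 8 ^ κ - 5 * FF a) : Yes (Sum.elim a z : Cube κ → Bool) := by
  unfold Yes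
  have h1 : (fun i => (Sum.elim a z : Cube κ → Bool) (Sum.inl i)) = a := rfl
  have h2 : (fun w => (Sum.elim a z : Cube κ → Bool) (Sum.inr w)) = z := rfl
  rw [h1, h2, h]
  ring

lemma H1_abs {κ : ℕ} (a : U κ ⊕ U κ → Bool)
    (h : |(FF a : ℝ) / 8 ^ κ - 2 / 5| ≤ 11 / 2 ^ κ) :
    |((2 * 8 ^ κ - 5 * FF a : ℤ) : ℝ)| ≤ 55 * 4 ^ κ := by
  have h8 : (0 : ℝ) < 8 ^ κ := by positivity
  have h1 : ((2 * 8 ^ κ - 5 * FF a : ℤ) : ℝ) =
      -(5 * 8 ^ κ * ((FF a : ℝ) / 8 ^ κ - 2 / 5)) := by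
    push_cast
    field_simp
    ring
  rw [h1, abs_neg, abs_mul, abs_of_pos (show (0 : ℝ) < 5 * 8 ^ κ by positivity)]
  have h2 : (8 : ℝ) ^ κ = 2 ^ κ * 4 ^ κ := by rw [← mul_pow]; norm_num
  have h3 : (0 : ℝ) < 2 ^ κ := by positivity
  calc 5 * 8 ^ κ * |(FF a : ℝ) / 8 ^ κ - 2 / 5| ≤ 5 * 8 ^ κ * (11 / 2 ^ κ) := by gcongr
    _ = 55 * 4 ^ κ := by
      rw [h2]
      field_simp
      norm_num

lemma H1_sqrt (κ : ℕ) : Real.sqrt (8 ^ κ) ≤ 4 ^ κ := by
  rw [Real.sqrt_le_left (by positivity), ← pow_mul, mul_comm κ 2, pow_mul]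
  exact pow_le_pow_left₀ (by norm_num) (by norm_num) κ

lemma H1_br01 {I : Type*} (f : (I → Bool) → Bool) (x : I → Bool) : 0 ≤ br f x ∧ br f x ≤ 1 := by
  unfold br
  split_ifs <;> norm_num

theorem H1 (_hB : St_B) (hds : St_DS) (hl : St_L2) (hz : St_Z3) (hcm : St_CM) (has : St_AS) :
    St_H1 := by
  intro k p
  obtain ⟨κ₀, hκ₀⟩ := has k p
  refine ⟨κ₀, fun κ hκ m F y b hadm hyes => ?_⟩
  obtain ⟨h20, hp4, hAS⟩ := hκ₀ κ hκ
  obtain ⟨ht, hlen, hDT⟩ := hadm
  obtain ⟨hA1, hA2⟩ := hAS ht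
  obtain ⟨hds1, -, hds3, -⟩ := hds
  set t := p.eval κ with htdef
  have ht0 : (0 : ℝ) < t := by exact_mod_cast ht
  have ht1 : (1 : ℝ) ≤ t := by exact_mod_cast ht
  set q : ℝ := 1 / (24 * (t : ℝ)) with hq
  have hq0 : 0 < q := by positivity
  have hq3 : q ≤ 1 / 3 := by
    rw [hq]
    exact one_div_le_one_div_of_le (by norm_num) (by linarith)
  obtain ⟨he0, he1⟩ := H1_eps (κ := κ) (m := m) (k := k) (len := y.length) ht hlen
  rw [← hq] at he0 he1
  set g : (U κ ⊕ U κ → Bool) → ℝ := fun a =>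
    av (fun z : W κ → Bool => br (QF m F k b y) (Sum.elim a z)) with hg
  -- the average of `g`
  have havg : av (br (QF m F k b y)) = av g := by
    rw [H1_av_sum (I := U κ ⊕ U κ) (J := W κ)]
  have hg01 : ∀ a, 0 ≤ g a ∧ g a ≤ 1 := fun a =>
    ⟨H1_av_nonneg fun z => (H1_br01 _ _).1, av_le fun z => (H1_br01 _ _).2⟩
  -- the quantified function with one group of variables fixed
  have hQ1 : ∀ (a : U κ ⊕ U κ → Bool) (z : W κ → Bool), QF m F k b y (Sum.elim a z) =
      QF m (fun y' z' => F y' (Sum.elim a z')) k b y z := fun a z =>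
    hds3 _ _ (fun z' : W κ → Bool => (Sum.elim a z' : Cube κ → Bool)) m F k b y z
  have hQ2 : ∀ (a : U κ ⊕ U κ → Bool) (z : W κ → Bool), QF m F k b y (Sum.elim a z) =
      QF m (fun y' a' => F y' (Sum.elim a' z)) k b y a := fun a z =>
    hds3 _ _ (fun a' : U κ ⊕ U κ → Bool => (Sum.elim a' z : Cube κ → Bool)) m F k b y a
  have hcW : Fintype.card (W κ) = 8 ^ κ := B_cardW κ
  have hcU : Fintype.card (U κ) = 4 ^ κ := B_cardU κ
  have h48 : (4 : ℕ) ^ κ * 2 ^ κ = 8 ^ κ := by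
    rw [← mul_pow]
    norm_num
  have h820 : (8 : ℝ) ^ 20 ≤ 8 ^ κ := pow_le_pow_right₀ (by norm_num) h20
  have h1620 : (16 : ℝ) ^ 20 ≤ 16 ^ κ := pow_le_pow_right₀ (by norm_num) h20
  -- (1)
  have step1 : ∀ a, |(FF a : ℝ) / 8 ^ κ - 2 / 5| ≤ 11 / 2 ^ κ → 1 - 3 / 100 ≤ g a := by
    intro a ha
    have hs := H1_abs a ha
    have hz' := hz (W κ) t m k (33 * 4 ^ κ) (2 ^ κ / 200) q (2 * 8 ^ κ - 5 * FF a)
      (fun y' z' => F y' (Sum.elim a z')) y b ht hq0.le hq3
      (by rw [hcW]; exact Nat.one_le_pow _ _ (by norm_num))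
      (fun y' hy' => (hds1 _ _ t (F y') (hDT y' hy')).2 a) ?_ ?_ ?_ ?_
    · have hgg : g a = av (br (QF m (fun y' z' => F y' (Sum.elim a z')) k b y)) := by
        refine congrArg av (funext fun z => ?_)
        unfold br
        rw [hQ1 a z]
      rw [hgg]
      refine le_trans ?_ hz'
      rw [hcW]
      have h4 : (4 : ℝ) / ((8 ^ κ : ℕ) : ℝ) ≤ 1 / 1000 := by
        push_cast
        rw [div_le_div_iff₀ (by positivity) (by norm_num)]
        have : (8 : ℝ) ^ 20 = 1152921504606846976 := by norm_num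
        linarith
      have h5 : (1 : ℝ) / 16 ^ κ ≤ 1 / 1000 := by
        apply one_div_le_one_div_of_le (by norm_num)
        have : (16 : ℝ) ^ 20 = 1208925819614629174706176 := by norm_num
        linarith
      have hqk0 : 0 ≤ 1 - q ^ k := by
        have : q ^ k ≤ 1 := pow_le_one₀ hq0.le (by linarith)
        linarith
      have h6 : 2 * (((33 * 4 ^ κ : ℕ) : ℝ) + (t : ℝ)) * (1 - q ^ k) ^ (2 ^ κ / 200) ≤ 1 / 100 := by
        refine le_trans ?_ hA2
        have h7 : (t : ℝ) ≤ 4 ^ κ := by exact_mod_cast hp4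
        have h8 : 2 * (((33 * 4 ^ κ : ℕ) : ℝ) + (t : ℝ)) ≤ 68 * 4 ^ κ := by
          push_cast
          linarith
        exact mul_le_mul_of_nonneg_right h8 (pow_nonneg hqk0 _)
      linarith
    · -- parity
      rw [hcW]
      have h1 : Even (FF a) := H1_FF_even (by omega) a
      have h2 : Even ((8 : ℤ) ^ κ) := Int.even_pow.2 ⟨by decide, by omega⟩
      push_cast
      exact ((h2.mul_left 2).sub (h1.mul_left 5)).add h2
    · intro z hz1
      rw [← hQ1 a z]
      exact hyes _ (H1_yes a z hz1)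
    · rw [hcW]
      push_cast at hs ⊢
      have h1 := H1_sqrt κ
      have h2 : (0 : ℝ) < 4 ^ κ := by positivity
      linarith
    · rw [hcW, ← h48]
      have h1 : 200 * (2 ^ κ / 200) ≤ 2 ^ κ := Nat.mul_div_le _ _
      have h2 : 33 * 4 ^ κ + t ≤ 34 * 4 ^ κ := by omega
      calc 4 * (33 * 4 ^ κ + t) * (2 ^ κ / 200) ≤ 4 * (34 * 4 ^ κ) * (2 ^ κ / 200) := by gcongr
        _ = 4 ^ κ * (136 * (2 ^ κ / 200)) := by ring
        _ ≤ 4 ^ κ * 2 ^ κ := by
          gcongr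
          omega
  -- (2)
  set ℓ : ℝ := ((24 * (t : ℝ)) ^ k) ^ 2 * ((t : ℝ) ^ 2 + 1) with hℓ
  have step2 : ∀ ρ, L12 (rr g ρ) ≤ ℓ := by
    intro ρ
    have h1 : rr g ρ = fun x => av (fun z : W κ → Bool =>
        rr (br (QF m (fun y' a' => F y' (Sum.elim a' z)) k b y)) ρ x) := by
      funext x
      refine congrArg av (funext fun z => ?_)
      unfold rr br
      rw [hQ2]
    rw [h1]
    refine (H1_L12_av _).trans (av_le fun z => ?_)
    have h2 := hl (U κ) t m k q (fun y' a' => F y' (Sum.elim a' z)) y b ht hq0 hq3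
      (fun y' hy' => (hds1 _ _ t (F y') (hDT y' hy')).1 z) ρ
    refine h2.trans ?_
    rw [hcU]
    have h3 : 1 / q ^ k = (24 * (t : ℝ)) ^ k := by
      rw [hq, one_div_pow, one_div_one_div]
    rw [h3]
    have h4 : eps t m k y.length q * (((4 ^ κ : ℕ) : ℝ)) ^ 2 ≤ 1 := by
      have h5 : (((4 ^ κ : ℕ) : ℝ)) ^ 2 = 16 ^ κ := by
        push_cast
        rw [← pow_mul, mul_comm κ 2, pow_mul]
        norm_num
      rw [h5]
      calc eps t m k y.length q * 16 ^ κ ≤ 1 / 16 ^ κ * 16 ^ κ := by gcongr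
        _ = 1 := by field_simp
    rw [hℓ]
    gcongr
  -- (3)
  have h3 := hcm κ g ℓ (3 / 100) h20 hg01 (by positivity) step2 (by norm_num) (by norm_num) step1
  rw [havg]
  linarith

end Pool.Agent.H516R2.EQP
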