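import Pool.Agent.H516R2.EQP.Props

/-!
# Fourier weight of decision trees at the second level
-/

namespace Pool.Agent.H516R2.EQP

open Pool.Agent.NPC Pool.Agent.H620R2.Gauge Finset H568R2 Pool.Agent.H676

section

variable {I : Type*} [Fintype I] [DecidableEq I]

/-- Fourier weight at level `k` -/
noncomputable def L1_W (k : ℕ) (g : (I → Bool) → ℝ) : ℝ :=
  ∑ S : I → Bool, if wt S = k then |co g S| else 0

lemma L1_ch_flp (S x : I → Bool) (i : I) :
    ch (flp i S) x = (if x i then (-1 : ℝ) else 1) * ch S x := by
  unfold ch
  rw [← Finset.mul_prod_erase univ _ (Finset.mem_univ i),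
    ← Finset.mul_prod_erase univ (fun j => if S j && x j then (-1 : ℝ) else 1) (Finset.mem_univ i)]
  have h1 : ∏ j ∈ univ.erase i, (if flp i S j && x j then (-1 : ℝ) else 1) =
      ∏ j ∈ univ.erase i, (if S j && x j then (-1 : ℝ) else 1) := by
    refine Finset.prod_congr rfl fun j hj => ?_
    have hji : j ≠ i := Finset.ne_of_mem_erase hj
    show (if Function.update S i (!S i) j && x j then (-1 : ℝ) else 1) = _
    rw [Function.update_of_ne hji]
  rw [h1, ← mul_assoc]
  congr 1
  show (if Function.update S i (!S i) i && x i then (-1 : ℝ) else 1) = _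
  rw [Function.update_self]
  cases S i <;> cases x i <;> simp

lemma L1_co_zero (g : (I → Bool) → ℝ) (i : I) (b : Bool) (S : I → Bool) (hS : S i = true) :
    co (fun x => g (Function.update x i b)) S = 0 := by
  have h1 : co (fun x => g (Function.update x i b)) S =
      - co (fun x => g (Function.update x i b)) S := by
    unfold co av
    rw [← neg_div]
    congr 1
    rw [← Finset.sum_neg_distrib, ← (flp i).sum_comp]
    refine Finset.sum_congr rfl fun x _ => ?_
    rw [ch_flp S x i hS]
    have h2 : Function.update (flp i x) i b = Function.update x i b := by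
      show Function.update (Function.update x i (!x i)) i b = Function.update x i b
      rw [Function.update_idem]
    show g (Function.update (flp i x) i b) * -ch S x = -(g (Function.update x i b) * ch S x)
    rw [h2]
    ring
  linarith

lemma L1_co_split (g : (I → Bool) → ℝ) (i : I) (S : I → Bool) :
    co g S = (co (fun x => g (Function.update x i false)) S +
      co (fun x => g (Function.update x i true)) S) / 2 +
      (co (fun x => g (Function.update x i false)) (flp i S) -
        co (fun x => g (Function.update x i true)) (flp i S)) / 2 := by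
  have key : ∑ x, g x * ch S x =
      (∑ x, g (Function.update x i false) * ch S x +
        ∑ x, g (Function.update x i true) * ch S x) / 2 +
      (∑ x, g (Function.update x i false) * ch (flp i S) x -
        ∑ x, g (Function.update x i true) * ch (flp i S) x) / 2 := by
    rw [← Finset.sum_add_distrib, ← Finset.sum_sub_distrib, ← add_div, ← Finset.sum_add_distrib,
      Finset.sum_div]
    refine Finset.sum_congr rfl fun x _ => ?_
    rw [L1_ch_flp]
    cases hx : x i with
    | false =>
      have h1 : Function.update x i false = x := by
        rw [← hx]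
        exact Function.update_eq_self i x
      rw [h1]
      simp only [Bool.false_eq_true, if_false]
      ring
    | true =>
      have h1 : Function.update x i true = x := by
        rw [← hx]
        exact Function.update_eq_self i x
      rw [h1]
      simp only [if_true]
      ring
  unfold co av
  rw [key]
  ring

lemma L1_wt_flp (T : I → Bool) (i : I) (hT : T i = false) : wt (flp i T) = wt T + 1 := by
  unfold wt
  have h1 : univ.filter (fun j => flp i T j = true) =
      insert i (univ.filter (fun j => T j = true)) := by
    ext j
    simp only [Finset.mem_filter, Finset.mem_univ, true_and, Finset.mem_insert]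
    show Function.update T i (!T i) j = true ↔ _
    by_cases hj : j = i
    · subst hj
      rw [Function.update_self, hT]
      simp
    · rw [Function.update_of_ne hj]
      simp [hj]
  rw [h1, Finset.card_insert_of_notMem]
  simp [hT]

lemma L1_sum_flp (g : (I → Bool) → ℝ) (i : I) (b : Bool) (k : ℕ) :
    ∑ S : I → Bool, (if wt S = k + 1 then
      |co (fun x => g (Function.update x i b)) (flp i S)| else 0) ≤
      L1_W k (fun x => g (Function.update x i b)) := by
  unfold L1_W
  rw [← (flp i).sum_comp]
  refine Finset.sum_le_sum fun T _ => ?_
  have h1 : flp i (flp i T) = T := (flp i).left_inv T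
  rw [h1]
  by_cases hT : T i = true
  · rw [L1_co_zero g i b T hT]
    simp
  · have hT' : T i = false := by simpa using hT
    rw [L1_wt_flp T i hT']
    simp

lemma L1_step (g : (I → Bool) → ℝ) (i : I) (k : ℕ) :
    L1_W (k + 1) g ≤ (L1_W (k + 1) (fun x => g (Function.update x i false)) +
      L1_W (k + 1) (fun x => g (Function.update x i true))) / 2 +
      (L1_W k (fun x => g (Function.update x i false)) +
        L1_W k (fun x => g (Function.update x i true))) / 2 := by
  have h0 := L1_sum_flp g i false k
  have h1 := L1_sum_flp g i true k
  have h2 : L1_W (k + 1) g ≤ (L1_W (k + 1) (fun x => g (Function.update x i false)) +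
      L1_W (k + 1) (fun x => g (Function.update x i true))) / 2 +
      (∑ S : I → Bool, (if wt S = k + 1 then
        |co (fun x => g (Function.update x i false)) (flp i S)| else 0) +
      ∑ S : I → Bool, (if wt S = k + 1 then
        |co (fun x => g (Function.update x i true)) (flp i S)| else 0)) / 2 := by
    unfold L1_W
    rw [← Finset.sum_add_distrib, ← Finset.sum_add_distrib, Finset.sum_div, Finset.sum_div,
      ← Finset.sum_add_distrib]
    refine Finset.sum_le_sum fun S _ => ?_
    split_ifs with h
    · have h3 := L1_co_split g i S
      rw [h3]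
      have a1 := abs_le.mp (le_refl |co (fun x => g (Function.update x i false)) S|)
      have a2 := abs_le.mp (le_refl |co (fun x => g (Function.update x i true)) S|)
      have a3 := abs_le.mp (le_refl |co (fun x => g (Function.update x i false)) (flp i S)|)
      have a4 := abs_le.mp (le_refl |co (fun x => g (Function.update x i true)) (flp i S)|)
      rw [abs_le]
      constructor <;> linarith
    · simp
  linarith

lemma L1_const (c : ℝ) (k : ℕ) (hk : 0 < k) : L1_W k (fun _ : I → Bool => c) = 0 := by
  unfold L1_W
  refine Finset.sum_eq_zero fun S _ => ?_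
  split_ifs with h
  · rw [Deg.const c S (by omega), abs_zero]
  · rfl

lemma L1_W0 (f : (I → Bool) → Bool) : L1_W 0 (br f) ≤ 1 := by
  unfold L1_W
  rw [Finset.sum_eq_single (fun _ => false)]
  · have h1 : |co (br f) (fun _ => false)| ≤ 1 := by
      unfold co
      have h2 : ∀ x : I → Bool, br f x * ch (fun _ => false) x = br f x := by
        intro x
        unfold ch
        simp
      simp_rw [h2]
      rw [abs_le]
      constructor
      · have : 0 ≤ av (br f) := by
          unfold av
          apply div_nonneg _ (by positivity)
          apply Finset.sum_nonneg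
          intro x _
          unfold br
          split_ifs <;> norm_num
        have h3 : av (fun x => br f x) = av (br f) := rfl
        rw [h3]
        linarith
      · apply av_le
        intro x
        unfold br
        split_ifs <;> norm_num
    split_ifs
    · exact h1
    · exact zero_le_one
  · intro S _ hS
    rw [if_neg]
    intro h
    apply hS
    funext i
    unfold wt at h
    rw [Finset.card_eq_zero, Finset.filter_eq_empty_iff] at h
    have := h (Finset.mem_univ i)
    simpa using this
  · intro h
    exact absurd (Finset.mem_univ _) h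

lemma L1_main : ∀ (t : ℕ) (f : (I → Bool) → Bool), DTr t f →
    L1_W 1 (br f) ≤ t ∧ L1_W 2 (br f) ≤ (t : ℝ) ^ 2 := by
  intro t
  induction t with
  | zero =>
    rintro f ⟨c, h⟩
    have h1 : br f = fun _ => (if c then (1 : ℝ) else 0) := by
      funext x; unfold br; rw [h]
    rw [h1, L1_const _ 1 (by norm_num), L1_const _ 2 (by norm_num)]
    simp
  | succ t ih =>
    intro f h
    rcases h with ⟨c, h⟩ | ⟨i, h⟩
    · have h1 : br f = fun _ => (if c then (1 : ℝ) else 0) := by
        funext x; unfold br; rw [h]
      rw [h1, L1_const _ 1 (by norm_num), L1_const _ 2 (by norm_num)]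
      constructor <;> positivity
    · have e : ∀ b, (fun x => br f (Function.update x i b)) =
          br (fun x => f (Function.update x i b)) := fun b => rfl
      have s1 := L1_step (br f) i 0
      have s2 := L1_step (br f) i 1
      rw [e, e] at s1 s2
      obtain ⟨f1, f2⟩ := ih _ (h false)
      obtain ⟨t1, t2⟩ := ih _ (h true)
      have z1 := L1_W0 (fun x => f (Function.update x i false))
      have z2 := L1_W0 (fun x => f (Function.update x i true))
      norm_num at s1 s2
      push_cast
      constructor
      · linarith
      · nlinarith [Nat.cast_nonneg (α := ℝ) t]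

end

lemma L1_pr_wt {V : Type} [Fintype V] [DecidableEq V] (i j : V) :
    wt (pr (Sum.inl i : V ⊕ V) (Sum.inr j)) = 2 := by
  unfold wt pr
  have h1 : univ.filter (fun k : V ⊕ V => decide (k = Sum.inl i ∨ k = Sum.inr j) = true) =
      {Sum.inl i, Sum.inr j} := by
    ext k
    simp
  rw [h1, Finset.card_pair (by simp)]

lemma L1_pr_inj {V : Type} [Fintype V] [DecidableEq V] :
    Function.Injective (fun p : V × V => pr (Sum.inl p.1 : V ⊕ V) (Sum.inr p.2)) := by
  rintro ⟨i, j⟩ ⟨i', j'⟩ h
  have h1 := congrFun h (Sum.inl i)
  have h2 := congrFun h (Sum.inr j)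
  simp only [pr, Sum.inl.injEq, reduceCtorEq, or_false, false_or, Sum.inr.injEq,
    decide_true, true_eq_decide_iff] at h1 h2
  rw [h1, h2]

theorem L1 : St_L1 := by
  intro V _ _ t f hf
  refine le_trans ?_ (L1_main t f hf).2
  unfold L12 L1_W
  rw [← Finset.sum_filter]
  have h1 : ∑ i : V, ∑ j : V, |co (br f) (pr (Sum.inl i) (Sum.inr j))| =
      ∑ p : V × V, |co (br f) (pr (Sum.inl p.1) (Sum.inr p.2))| :=
    (Fintype.sum_prod_type' (fun i j : V => |co (br f) (pr (Sum.inl i) (Sum.inr j))|)).symm
  have h2 : ∑ p : V × V, |co (br f) (pr (Sum.inl p.1) (Sum.inr p.2))| =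
      ∑ S ∈ (univ : Finset (V × V)).image
        (fun p : V × V => pr (Sum.inl p.1 : V ⊕ V) (Sum.inr p.2)), |co (br f) S| := by
    rw [Finset.sum_image]
    intro p _ q _ h
    exact L1_pr_inj h
  rw [h1, h2]
  apply Finset.sum_le_sum_of_subset_of_nonneg
  · intro S hS
    obtain ⟨p, _, rfl⟩ := Finset.mem_image.mp hS
    exact Finset.mem_filter.mpr ⟨Finset.mem_univ _, L1_pr_wt p.1 p.2⟩
  · intro S _ _
    exact abs_nonneg _

end Pool.Agent.H516R2.EQP
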