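import Pool.Agent.H516R2.EQP.Props
/-!
# M1: moments of the directions
-/
namespace Pool.Agent.H516R2.EQP
open Pool.Agent.NPC Pool.Agent.H620R2.Gauge Finset H568R2 Pool.Agent.H676

theorem M1_sg_not (b : Bool) : sg (!b) = - sg b := by cases b <;> simp [sg]

theorem M1_abs_sg (b : Bool) : |sg b| = 1 := by cases b <;> simp [sg]

theorem M1_gg_neg {κ : ℕ} (s : U κ → Bool) (i : U κ ⊕ U κ) :
    gg (fun u => !s u) i = - gg s i := by
  cases i with
  | inl u => simp only [gg, Sum.elim_inl]; exact M1_sg_not _
  | inr v =>
    simp only [gg, Sum.elim_inr, M1_sg_not, mul_neg, sum_neg_distrib]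

theorem M1_prod {I : Type*} [Fintype I] [DecidableEq I] (S : I → Bool) (f : I → ℝ) :
    ∏ i, (if S i then f i else 1) = ∏ i ∈ univ.filter (fun i => S i = true), f i := by
  rw [Finset.prod_filter]

theorem M1 (hB : St_B) : St_M1 := by
  intro κ
  obtain ⟨hsym, habs, horth, -, hav, hav2, hodd, -, hcard, -⟩ := hB κ
  have h2 : (0 : ℝ) < 2 ^ κ := by positivity
  have h1 : (1 : ℝ) ≤ 2 ^ κ := one_le_pow₀ (by norm_num)
  refine ⟨?_, ?_, ?_, ?_⟩
  · intro s i
    cases i with
    | inl u => simp only [gg, Sum.elim_inl]; rw [M1_abs_sg]; exact h1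
    | inr v =>
      simp only [gg, Sum.elim_inr]
      refine (abs_sum_le_sum_abs _ _).trans ?_
      have : ∀ u ∈ (univ : Finset (U κ)), |Hd v u * sg (s u)| = 1 / 2 ^ κ := by
        intro u _
        rw [abs_mul, habs, M1_abs_sg, mul_one]
      rw [sum_congr rfl this, sum_const, card_univ, hcard, nsmul_eq_mul]
      push_cast
      have h4 : (4 : ℝ) ^ κ = 2 ^ κ * 2 ^ κ := by rw [← mul_pow]; norm_num
      rw [h4]
      apply le_of_eq
      field_simp
  · intro S hS
    refine hodd _ ?_
    intro s
    have : ∀ i, (if S i then gg (fun u => !s u) i else 1) =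
        (if S i then (-1 : ℝ) else 1) * (if S i then gg s i else 1) := by
      intro i
      rw [M1_gg_neg]
      split_ifs <;> ring
    rw [prod_congr rfl (fun i _ => this i), prod_mul_distrib]
    have h3 : ∏ i, (if S i then (-1 : ℝ) else 1) = -1 := by
      rw [M1_prod, prod_const]
      exact Odd.neg_one_pow hS
    rw [h3]; ring
  · intro S hS hne
    obtain ⟨i, j, hij, hf⟩ := Finset.card_eq_two.mp (show (univ.filter (fun i => S i = true)).card = 2 from hS)
    have hmem : ∀ k, S k = true ↔ k = i ∨ k = j := by
      intro k
      have : k ∈ univ.filter (fun i => S i = true) ↔ k ∈ ({i, j} : Finset _) := by rw [hf]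
      simpa using this
    have hprod : ∀ s : U κ → Bool, ∏ l, (if S l then gg s l else 1) = gg s i * gg s j := by
      intro s
      rw [M1_prod, hf, prod_pair hij]
    rw [show (fun s : U κ → Bool => ∏ l, (if S l then gg s l else 1)) = fun s => gg s i * gg s j from
      funext hprod]
    cases i with
    | inl u =>
      cases j with
      | inl u' =>
        have huu : u ≠ u' := fun h => hij (by rw [h])
        have := hav u u'
        rw [if_neg huu] at this
        exact this
      | inr v =>
        exfalso
        apply hne u v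
        funext k
        unfold pr
        rw [Bool.eq_iff_iff, decide_eq_true_iff]
        exact hmem k
    | inr v =>
      cases j with
      | inl u =>
        exfalso
        apply hne u v
        funext k
        unfold pr
        rw [Bool.eq_iff_iff, decide_eq_true_iff, or_comm]
        exact hmem k
      | inr v' =>
        have hvv : v ≠ v' := fun h => hij (by rw [h])
        have h3 := hav2 (fun u => Hd v u) (fun u => Hd v' u)
        rw [horth v v', if_neg hvv] at h3
        exact h3
  · intro u v
    have h3 := hav2 (fun w => if w = u then (1 : ℝ) else 0) (fun w => Hd v w)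
    have h4 : (fun s : U κ → Bool => gg s (Sum.inl u) * gg s (Sum.inr v)) =
        fun s => (∑ w, (if w = u then (1 : ℝ) else 0) * sg (s w)) * (∑ w, Hd v w * sg (s w)) := by
      funext s
      simp only [gg, Sum.elim_inl, Sum.elim_inr]
      congr 1
      simp
    rw [h4, h3]
    have h5 : ∑ w, (if w = u then (1 : ℝ) else 0) * Hd v w = Hd v u := by simp
    rw [h5, habs]

end Pool.Agent.H516R2.EQP
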