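import Pool.Agent.H516R2.EQP.Props

/-!
# The multilinear extension: decomposition and Fourier expansion
-/

namespace Pool.Agent.H516R2.EQP

open Pool.Agent.NPC Pool.Agent.H620R2.Gauge Finset H568R2 Pool.Agent.H676

section
variable {I : Type} [Fintype I] [DecidableEq I]

open Classical in
/-- local weight -/
noncomputable def M2_w (P : I → ℝ) (i : I) (o : Option Bool) : ℝ :=
  match o with
    | none => 1 - |P i|
    | some b => if (b = true ↔ P i < 0) then |P i| else 0

omit [DecidableEq I] in
lemma M2_wP (P : I → ℝ) (ρ : Restr I) : wP P ρ = ∏ i, M2_w P i (ρ i) := rfl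

omit [Fintype I] [DecidableEq I] in
lemma M2_sum (P : I → ℝ) (i : I) : ∑ o, M2_w P i o = 1 := by
  rw [Fintype.sum_option, Fintype.sum_bool]
  unfold M2_w
  by_cases h : P i < 0
  · simp [h]
  · simp [h]

omit [Fintype I] [DecidableEq I] in
lemma M2_loc (P δ : I → ℝ) (i : I) (b : Bool) :
    M2_w P i none * ((1 + sg b * δ i) / 2) + M2_w P i (some b) =
      (1 + sg b * (P i + (1 - |P i|) * δ i)) / 2 := by
  unfold M2_w sg
  by_cases h : P i < 0
  · have h1 : |P i| = - P i := abs_of_neg h
    cases b
    · simp [h, h1]; ring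
    · simp [h, h1]; ring
  · have h1 : |P i| = P i := abs_of_nonneg (not_lt.1 h)
    cases b
    · simp [h, h1]; ring
    · simp [h, h1]; ring

lemma M2_dec (g : (I → Bool) → ℝ) (P δ : I → ℝ) :
    ml g (fun i => P i + (1 - |P i|) * δ i) = ∑ ρ : Restr I, wP P ρ * ml (rr g ρ) δ := by
  have h1 : ∀ ρ : Restr I, wP P ρ * ml (rr g ρ) δ = ∑ a : I → Bool, ∑ a' : I → Bool,
      (∏ i, (if (ρ i).getD (a' i) = a i then M2_w P i (ρ i) * ((1 + sg (a' i) * δ i) / 2)
        else 0)) * g a := by
    intro ρ
    unfold ml rr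
    rw [M2_wP, Finset.mul_sum, Finset.sum_comm]
    refine Finset.sum_congr rfl fun a' _ => ?_
    rw [Finset.sum_eq_single (ov ρ a')]
    · rw [← mul_assoc, ← Finset.prod_mul_distrib]
      congr 1
      refine Finset.prod_congr rfl fun i _ => ?_
      exact (if_pos (rfl : (ρ i).getD (a' i) = ov ρ a' i)).symm
    · intro a _ ha
      have : ∃ i, (ρ i).getD (a' i) ≠ a i := by
        by_contra hcon
        push Not at hcon
        exact ha (funext fun i => (hcon i).symm)
      obtain ⟨i, hi⟩ := this
      rw [Finset.prod_eq_zero (Finset.mem_univ i), zero_mul]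
      rw [if_neg hi]
    · intro h
      exact absurd (Finset.mem_univ _) h
  rw [Finset.sum_congr rfl fun ρ _ => h1 ρ, Finset.sum_comm]
  unfold ml
  refine Finset.sum_congr rfl fun a _ => ?_
  have h2 : ∀ ρ : Restr I, ∑ a' : I → Bool,
      (∏ i, (if (ρ i).getD (a' i) = a i then M2_w P i (ρ i) * ((1 + sg (a' i) * δ i) / 2)
        else 0)) * g a = (∏ i, (fun (i : I) (o : Option Bool) =>
          ((if o.getD false = a i then M2_w P i o * ((1 + sg false * δ i) / 2) else 0) +
          (if o.getD true = a i then M2_w P i o * ((1 + sg true * δ i) / 2) else 0))) i (ρ i)) *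
          g a := by
    intro ρ
    rw [← Finset.sum_mul]
    congr 1
    exact sum_prod (fun i b => if (ρ i).getD b = a i then
      M2_w P i (ρ i) * ((1 + sg b * δ i) / 2) else 0)
  rw [Finset.sum_congr rfl fun ρ _ => h2 ρ, ← Finset.sum_mul]
  congr 1
  have h3 := sum_prodO (fun (i : I) (o : Option Bool) =>
          ((if o.getD false = a i then M2_w P i o * ((1 + sg false * δ i) / 2) else 0) +
          (if o.getD true = a i then M2_w P i o * ((1 + sg true * δ i) / 2) else 0)))
  rw [h3]
  refine Finset.prod_congr rfl fun i _ => ?_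
  rw [← M2_loc, Fintype.sum_option, Fintype.sum_bool]
  cases a i
  · simp [sg]; ring
  · simp [sg]; ring

lemma M2_four (g : (I → Bool) → ℝ) (P : I → ℝ) :
    ml g P = ∑ S : I → Bool, co g S * ∏ i, (if S i then P i else 1) := by
  unfold ml
  have h1 : ∀ a : I → Bool, (∏ i, (1 + sg (a i) * P i) / 2) * g a =
      ∑ S : I → Bool, co g S * ∏ i, ((1 + sg (a i) * P i) / 2 *
        (if S i && a i then (-1 : ℝ) else 1)) := by
    intro a
    conv_lhs => rw [inversion g a]
    rw [Finset.mul_sum]
    refine Finset.sum_congr rfl fun S _ => ?_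
    rw [Finset.prod_mul_distrib]
    unfold ch
    ring
  rw [Finset.sum_congr rfl fun a _ => h1 a, Finset.sum_comm]
  refine Finset.sum_congr rfl fun S _ => ?_
  rw [← Finset.mul_sum]
  congr 1
  rw [sum_prod (fun i b => (1 + sg b * P i) / 2 * (if S i && b then (-1 : ℝ) else 1))]
  refine Finset.prod_congr rfl fun i _ => ?_
  cases S i
  · simp [sg]; ring
  · simp [sg]; ring

end

theorem M2 : St_M2 := by
  intro I _ _ g P
  refine ⟨fun hP => ⟨fun ρ => ?_, ?_, fun δ => M2_dec g P δ⟩, M2_four g P⟩
  · rw [M2_wP]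
    refine Finset.prod_nonneg fun i _ => ?_
    have h1 := hP i
    have h2 := abs_nonneg (P i)
    unfold M2_w
    cases ρ i with
    | none => simp only; linarith
    | some b =>
      simp only
      split_ifs
      · exact h2
      · exact le_refl _
  · have h1 : ∀ ρ : Restr I, wP P ρ = ∏ i, M2_w P i (ρ i) := fun ρ => M2_wP P ρ
    rw [Finset.sum_congr rfl fun ρ _ => h1 ρ]
    have h2 := sum_prodO (fun (i : I) (o : Option Bool) => M2_w P i o)
    rw [h2]
    exact Finset.prod_eq_one fun i _ => M2_sum P i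

end Pool.Agent.H516R2.EQP
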