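import Pool.Agent.H516R2.EQP.Props

/-!
# One step of the walk
-/

namespace Pool.Agent.H516R2.EQP

open Pool.Agent.NPC Pool.Agent.H620R2.Gauge Finset H568R2 Pool.Agent.H676

lemma M3_card (κ : ℕ) : (Fintype.card (U κ ⊕ U κ) : ℝ) = 2 * 4 ^ κ := by
  have h : Fintype.card (U κ) = 4 ^ κ := by
    simp [U]
  rw [Fintype.card_sum, h]
  push_cast
  ring

lemma M3_av_sum {J : Type*} [Fintype J] [DecidableEq J] {T : Type*} [Fintype T]
    (c : T → ℝ) (F : T → (J → Bool) → ℝ) :
    av (fun s => ∑ t, c t * F t s) = ∑ t, c t * av (F t) := by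
  unfold av
  rw [Finset.sum_comm, Finset.sum_div]
  refine Finset.sum_congr rfl fun t _ => ?_
  rw [← Finset.mul_sum, mul_div_assoc]

lemma M3_av_const {J : Type*} [Fintype J] [DecidableEq J] (c : ℝ) :
    av (fun _ : J → Bool => c) = c := by
  unfold av
  rw [Finset.sum_const, Finset.card_univ, Fintype.card_fun, Fintype.card_bool, nsmul_eq_mul]
  push_cast
  have : (2 : ℝ) ^ Fintype.card J ≠ 0 := by positivity
  field_simp

lemma M3_av_abs {J : Type*} [Fintype J] [DecidableEq J] {F : (J → Bool) → ℝ} {c : ℝ}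
    (h : ∀ s, |F s| ≤ c) : |av F| ≤ c := by
  rw [abs_le]
  constructor
  · have h1 : av (fun s => - F s) ≤ c := av_le fun s => by
      have := (abs_le.1 (h s)).1
      linarith
    have h2 : av (fun s => - F s) = - av F := by
      unfold av
      rw [Finset.sum_neg_distrib, neg_div]
    linarith
  · exact av_le fun s => (abs_le.1 (h s)).2

lemma M3_ch_abs {I : Type} [Fintype I] [DecidableEq I] (S x : I → Bool) : |ch S x| = 1 := by
  unfold ch
  rw [Finset.abs_prod]
  refine Finset.prod_eq_one fun i _ => ?_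
  split_ifs <;> simp

lemma M3_co_abs {I : Type} [Fintype I] [DecidableEq I] {f : (I → Bool) → ℝ}
    (hf : ∀ a, |f a| ≤ 1) (S : I → Bool) : |co f S| ≤ 1 := by
  unfold co
  apply M3_av_abs
  intro s
  rw [abs_mul, M3_ch_abs, mul_one]
  exact hf s

lemma M3_wt_sum {I : Type} [Fintype I] [DecidableEq I] (z : ℝ) :
    ∑ S : I → Bool, z ^ wt S = (1 + z) ^ Fintype.card I := by
  rw [Finset.sum_congr rfl fun S _ => pow_wt z S]
  rw [sum_prod (fun _ b => if b then z else 1)]
  simp

lemma M3_wt_zero {I : Type} [Fintype I] [DecidableEq I] {S : I → Bool} (h : wt S = 0) :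
    S = fun _ => false := by
  unfold wt at h
  rw [Finset.card_eq_zero] at h
  funext i
  by_contra hcon
  have : i ∈ (univ.filter (fun i => S i = true)) := by
    rw [Finset.mem_filter]
    exact ⟨Finset.mem_univ _, by simpa using hcon⟩
  rw [h] at this
  exact absurd this (Finset.notMem_empty _)

lemma M3_e {N : ℝ} {n : ℕ} (hN : 0 < N) (hn : (n : ℝ) = N) : (1 + 1 / N) ^ n ≤ 2.7183 := by
  have h1 : (1 + 1 / N) ≤ Real.exp (1 / N) := by
    have := Real.add_one_le_exp (1 / N)
    linarith
  have h2 : (1 + 1 / N) ^ n ≤ Real.exp (1 / N) ^ n :=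
    pow_le_pow_left₀ (by positivity) h1 n
  have h3 : Real.exp (1 / N) ^ n = Real.exp 1 := by
    rw [← Real.exp_nat_mul, hn]
    congr 1
    field_simp
  rw [h3] at h2
  have := Real.exp_one_lt_d9
  linarith

/-- the local bound for one Fourier coefficient -/
lemma M3_term (h1 : St_M1) {κ : ℕ} {f : (U κ ⊕ U κ → Bool) → ℝ} (hf : ∀ a, |f a| ≤ 1)
    {η : ℝ} (hη : 0 ≤ η) {c : U κ ⊕ U κ → ℝ} (hc : ∀ i, |c i| ≤ 2 * η) (S : U κ ⊕ U κ → Bool)
    (hS : wt S ≠ 0) :
    |co f S * av (fun s : U κ → Bool => ∏ i, (if S i then c i * gg s i else 1))| ≤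
      (if ∃ uv : U κ × U κ, S = pr (Sum.inl uv.1) (Sum.inr uv.2) then
        |co f S| * ((2 * η) ^ 2 / 2 ^ κ) else 0) +
      (if 4 ≤ wt S then (2 * η * 2 ^ κ) ^ wt S else 0) := by
  classical
  have hsplit : ∀ s : U κ → Bool, (∏ i, (if S i then c i * gg s i else 1)) =
      (∏ i, (if S i then c i else 1)) * ∏ i, (if S i then gg s i else 1) := by
    intro s
    rw [← Finset.prod_mul_distrib]
    refine Finset.prod_congr rfl fun i _ => ?_
    split_ifs <;> simp
  have hav : av (fun s : U κ → Bool => ∏ i, (if S i then c i * gg s i else 1)) =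
      (∏ i, (if S i then c i else 1)) *
        av (fun s : U κ → Bool => ∏ i, (if S i then gg s i else 1)) := by
    unfold av
    rw [Finset.sum_congr rfl fun s _ => hsplit s, ← Finset.mul_sum, mul_div_assoc]
  have hcprod : |∏ i, (if S i then c i else 1)| ≤ (2 * η) ^ wt S := by
    rw [Finset.abs_prod, pow_wt]
    refine Finset.prod_le_prod (fun i _ => abs_nonneg _) fun i _ => ?_
    split_ifs
    · exact hc i
    · simp
  have hA : 0 ≤ (if ∃ uv : U κ × U κ, S = pr (Sum.inl uv.1) (Sum.inr uv.2) then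
        |co f S| * ((2 * η) ^ 2 / 2 ^ κ) else 0) := by
    split_ifs
    · positivity
    · exact le_refl _
  have hB : 0 ≤ (if 4 ≤ wt S then (2 * η * 2 ^ κ) ^ wt S else 0) := by
    split_ifs
    · positivity
    · exact le_refl _
  rw [hav]
  obtain ⟨hg, hodd, htwo, hcross⟩ := h1 κ
  by_cases h4 : 4 ≤ wt S
  · rw [if_pos h4]
    have hm : |av (fun s : U κ → Bool => ∏ i, (if S i then gg s i else 1))| ≤ (2 ^ κ) ^ wt S := by
      apply M3_av_abs
      intro s
      rw [Finset.abs_prod, pow_wt]
      refine Finset.prod_le_prod (fun i _ => abs_nonneg _) fun i _ => ?_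
      split_ifs
      · exact hg s i
      · simp
    have : |co f S * ((∏ i, (if S i then c i else 1)) *
        av (fun s : U κ → Bool => ∏ i, (if S i then gg s i else 1)))| ≤
        (2 * η * 2 ^ κ) ^ wt S := by
      rw [abs_mul, abs_mul]
      calc _ ≤ 1 * ((2 * η) ^ wt S * (2 ^ κ) ^ wt S) := by
            refine mul_le_mul (M3_co_abs hf S) ?_ (by positivity) (by norm_num)
            exact mul_le_mul hcprod hm (abs_nonneg _) (by positivity)
        _ = (2 * η * 2 ^ κ) ^ wt S := by rw [one_mul, ← mul_pow]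
    linarith
  · by_cases ho : Odd (wt S)
    · rw [hodd S ho]
      simp only [mul_zero, abs_zero]
      linarith
    · have h2 : wt S = 2 := by
        rw [Nat.not_odd_iff_even] at ho
        obtain ⟨m, hm⟩ := ho
        omega
      by_cases hx : ∃ uv : U κ × U κ, S = pr (Sum.inl uv.1) (Sum.inr uv.2)
      · rw [if_pos hx]
        obtain ⟨⟨u, v⟩, huv⟩ := hx
        simp only at huv
        have hprod : ∀ s : U κ → Bool, (∏ i, (if S i then gg s i else 1)) =
            gg s (Sum.inl u) * gg s (Sum.inr v) := by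
          intro s
          rw [huv]
          unfold pr
          rw [Finset.prod_eq_mul (Sum.inl u) (Sum.inr v) (by simp)]
          · simp
          · intro i _ hi
            have : ¬ (i = Sum.inl u ∨ i = Sum.inr v) := by
              rintro (h | h)
              · exact hi.1 h
              · exact hi.2 h
            simp only [decide_eq_true_eq]
            rw [if_neg this]
          · intro h
            exact absurd (Finset.mem_univ _) h
          · intro h
            exact absurd (Finset.mem_univ _) h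
        have hm : |av (fun s : U κ → Bool => ∏ i, (if S i then gg s i else 1))| ≤ 1 / 2 ^ κ := by
          rw [show (fun s : U κ → Bool => ∏ i, (if S i then gg s i else 1)) =
            fun s => gg s (Sum.inl u) * gg s (Sum.inr v) from funext hprod]
          exact hcross u v
        rw [abs_mul, abs_mul]
        rw [h2] at hcprod
        have : |co f S| * (|∏ i, (if S i then c i else 1)| *
            |av (fun s : U κ → Bool => ∏ i, (if S i then gg s i else 1))|) ≤
            |co f S| * ((2 * η) ^ 2 / 2 ^ κ) := by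
          refine mul_le_mul_of_nonneg_left ?_ (abs_nonneg _)
          calc _ ≤ (2 * η) ^ 2 * (1 / 2 ^ κ) :=
                mul_le_mul hcprod hm (abs_nonneg _) (by positivity)
            _ = (2 * η) ^ 2 / 2 ^ κ := by ring
        linarith
      · have := htwo S h2 (fun u v h => hx ⟨(u, v), h⟩)
        rw [this]
        simp only [mul_zero, abs_zero]
        linarith

lemma M3_local (h1 : St_M1) (h2 : St_M2) {κ : ℕ} {f : (U κ ⊕ U κ → Bool) → ℝ}
    (hf : ∀ a, |f a| ≤ 1) {ℓ η : ℝ} (hL : L12 f ≤ ℓ) (hη : 0 ≤ η) (h8 : 4 * η * 8 ^ κ ≤ 1)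
    {c : U κ ⊕ U κ → ℝ} (hc : ∀ i, |c i| ≤ 2 * η) :
    |av (fun s : U κ → Bool => ml f (fun i => c i * gg s i)) - ml f (fun _ => 0)| ≤
      err κ η ℓ := by
  classical
  have hml : ∀ δ : U κ ⊕ U κ → ℝ, ml f δ =
      ∑ S : U κ ⊕ U κ → Bool, co f S * ∏ i, (if S i then δ i else 1) :=
    fun δ => (h2 _ f δ).2
  have h0 : ml f (fun _ => 0) = co f (fun _ => false) := by
    rw [hml, Finset.sum_eq_single (fun _ => false)]
    · simp
    · intro S _ hS
      obtain ⟨i, hi⟩ := Function.ne_iff.1 hS
      have hi' : S i = true := by simpa using hi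
      rw [Finset.prod_eq_zero (Finset.mem_univ i), mul_zero]
      rw [if_pos hi']
    · intro h
      exact absurd (Finset.mem_univ _) h
  have hA : av (fun s : U κ → Bool => ml f (fun i => c i * gg s i)) =
      ∑ S : U κ ⊕ U κ → Bool, co f S *
        av (fun s : U κ → Bool => ∏ i, (if S i then c i * gg s i else 1)) := by
    rw [← M3_av_sum]
    congr 1
    funext s
    exact hml _
  have hterm0 : co f (fun _ => false) * av (fun s : U κ → Bool => ∏ i : U κ ⊕ U κ,
      (if (fun _ : U κ ⊕ U κ => false) i then c i * gg s i else 1)) = co f (fun _ => false) := by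
    have : (fun s : U κ → Bool => ∏ i : U κ ⊕ U κ,
      (if (fun _ : U κ ⊕ U κ => false) i then c i * gg s i else 1)) = fun _ => 1 := by
      funext s
      simp
    rw [this, M3_av_const, mul_one]
  rw [hA, h0, ← Finset.add_sum_erase univ _ (Finset.mem_univ (fun _ : U κ ⊕ U κ => false)), hterm0,
    add_sub_cancel_left]
  refine (Finset.abs_sum_le_sum_abs _ _).trans ?_
  have hstep : ∀ S ∈ univ.erase (fun _ : U κ ⊕ U κ => false),
      |co f S * av (fun s : U κ → Bool => ∏ i, (if S i then c i * gg s i else 1))| ≤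
      (if ∃ uv : U κ × U κ, S = pr (Sum.inl uv.1) (Sum.inr uv.2) then
        |co f S| * ((2 * η) ^ 2 / 2 ^ κ) else 0) +
      (if 4 ≤ wt S then (2 * η * 2 ^ κ) ^ wt S else 0) := by
    intro S hS
    apply M3_term h1 hf hη hc S
    intro hw
    exact (Finset.mem_erase.1 hS).1 (M3_wt_zero hw)
  refine (Finset.sum_le_sum hstep).trans ?_
  refine (Finset.sum_le_sum_of_subset_of_nonneg (Finset.erase_subset _ _) ?_).trans ?_
  · intro S _ _
    apply add_nonneg
    · split_ifs
      · positivity
      · exact le_refl _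
    · split_ifs
      · positivity
      · exact le_refl _
  rw [Finset.sum_add_distrib]
  unfold err
  apply add_le_add
  · -- the cross terms
    rw [← Finset.sum_filter, ← Finset.sum_mul]
    have hsub : (univ.filter (fun S : U κ ⊕ U κ → Bool =>
        ∃ uv : U κ × U κ, S = pr (Sum.inl uv.1) (Sum.inr uv.2))) ⊆
        (univ : Finset (U κ × U κ)).image (fun uv => pr (Sum.inl uv.1) (Sum.inr uv.2)) := by
      intro S hS
      obtain ⟨uv, huv⟩ := (Finset.mem_filter.1 hS).2
      rw [Finset.mem_image]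
      exact ⟨uv, Finset.mem_univ _, huv.symm⟩
    have h3 : ∑ S ∈ univ.filter (fun S : U κ ⊕ U κ → Bool =>
        ∃ uv : U κ × U κ, S = pr (Sum.inl uv.1) (Sum.inr uv.2)), |co f S| ≤ ℓ := by
      refine (Finset.sum_le_sum_of_subset_of_nonneg hsub fun _ _ _ => abs_nonneg _).trans ?_
      refine (Finset.sum_image_le_of_nonneg (fun _ _ => abs_nonneg _)).trans ?_
      rw [Fintype.sum_prod_type]
      exact hL
    calc _ ≤ ℓ * ((2 * η) ^ 2 / 2 ^ κ) := mul_le_mul_of_nonneg_right h3 (by positivity)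
      _ = 4 * η ^ 2 * ℓ / 2 ^ κ := by ring
  · -- the high levels
    set N : ℝ := 2 * 4 ^ κ with hN
    have hNpos : 0 < N := by positivity
    set th : ℝ := 4 * η * 8 ^ κ with hth
    have hth0 : 0 ≤ th := by positivity
    have hr : 2 * η * 2 ^ κ = th * (1 / N) := by
      rw [hN, hth, show (8 : ℝ) ^ κ = 4 ^ κ * 2 ^ κ by rw [← mul_pow]; norm_num]
      field_simp
      ring
    have hle : ∀ S ∈ (univ : Finset (U κ ⊕ U κ → Bool)),
        (if 4 ≤ wt S then (2 * η * 2 ^ κ) ^ wt S else 0) ≤ th ^ 4 * (1 / N) ^ wt S := by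
      intro S _
      split_ifs with h4
      · rw [hr, mul_pow]
        refine mul_le_mul_of_nonneg_right ?_ (by positivity)
        exact pow_le_pow_of_le_one hth0 h8 h4
      · positivity
    refine (Finset.sum_le_sum hle).trans ?_
    rw [← Finset.mul_sum, M3_wt_sum]
    have he := M3_e hNpos (M3_card κ)
    have h5 : th ^ 4 = 256 * 4096 ^ κ * η ^ 4 := by
      rw [hth, show (4096 : ℝ) ^ κ = (8 ^ κ) ^ 4 by
        rw [← pow_mul, mul_comm κ 4, pow_mul]; norm_num]
      ring
    calc th ^ 4 * (1 + 1 / N) ^ Fintype.card (U κ ⊕ U κ) ≤ th ^ 4 * 2.7183 :=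
          mul_le_mul_of_nonneg_left he (by positivity)
      _ = 256 * 2.7183 * (4096 ^ κ * η ^ 4) := by rw [h5]; ring
      _ ≤ 700 * (4096 ^ κ * η ^ 4) :=
          mul_le_mul_of_nonneg_right (by norm_num) (by positivity)
      _ = 700 * 4096 ^ κ * η ^ 4 := by ring

theorem M3 (h1 : St_M1) (h2 : St_M2) : St_M3 := by
  classical
  intro κ g ℓ η P hg hL hη h8 hP
  obtain ⟨⟨hw0, hw1, hdec⟩, -⟩ := And.intro ((h2 _ g P).1 hP) trivial
  have hstep : ∀ s : U κ → Bool, step η P s =
      fun i => P i + (1 - |P i|) * ((η * (1 + |P i|)) * gg s i) := by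
    intro s
    funext i
    unfold step
    have : P i ^ 2 = |P i| ^ 2 := (sq_abs _).symm
    rw [this]
    ring
  have hA : av (fun s => ml g (step η P s)) = ∑ ρ : Restr (U κ ⊕ U κ), wP P ρ *
      av (fun s : U κ → Bool => ml (rr g ρ) (fun i => (η * (1 + |P i|)) * gg s i)) := by
    rw [← M3_av_sum]
    congr 1
    funext s
    rw [hstep s]
    exact hdec _
  have hB : ml g P = ∑ ρ : Restr (U κ ⊕ U κ), wP P ρ * ml (rr g ρ) (fun _ => 0) := by
    rw [← hdec (fun _ => 0)]
    congr 1
    funext i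
    ring
  rw [hA, hB, ← Finset.sum_sub_distrib]
  refine (Finset.abs_sum_le_sum_abs _ _).trans ?_
  have hterm : ∀ ρ ∈ (univ : Finset (Restr (U κ ⊕ U κ))),
      |wP P ρ * av (fun s : U κ → Bool => ml (rr g ρ) (fun i => (η * (1 + |P i|)) * gg s i)) -
        wP P ρ * ml (rr g ρ) (fun _ => 0)| ≤ wP P ρ * err κ η ℓ := by
    intro ρ _
    rw [← mul_sub, abs_mul, abs_of_nonneg (hw0 ρ)]
    refine mul_le_mul_of_nonneg_left ?_ (hw0 ρ)
    refine M3_local h1 h2 (fun a => hg _) (hL ρ) hη h8 fun i => ?_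
    have h3 := hP i
    have h4 := abs_nonneg (P i)
    rw [abs_of_nonneg (by positivity)]
    nlinarith
  refine (Finset.sum_le_sum hterm).trans ?_
  rw [← Finset.sum_mul, hw1, one_mul]

end Pool.Agent.H516R2.EQP
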