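import Pool.Agent.H516R2.EQP.Props

/-! Task M4 (helper153): the stopped walk. -/

namespace Pool.Agent.H516R2.EQP

open Pool.Agent.NPC Pool.Agent.H620R2.Gauge Finset H568R2 Pool.Agent.H676

private lemma M4_av_abs {I : Type*} [Fintype I] [DecidableEq I] {f g : (I → Bool) → ℝ} {c : ℝ}
    (h : ∀ x, |f x - g x| ≤ c) : |av f - av g| ≤ c := by
  unfold av
  rw [← sub_div, ← Finset.sum_sub_distrib, abs_div, abs_of_pos (by positivity : (0:ℝ) < 2 ^ Fintype.card I),
    div_le_iff₀ (by positivity)]
  calc |∑ x, (f x - g x)| ≤ ∑ x, |f x - g x| := Finset.abs_sum_le_sum_abs _ _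
    _ ≤ ∑ _x : I → Bool, c := Finset.sum_le_sum fun x _ => h x
    _ = c * 2 ^ Fintype.card I := by
      rw [Finset.sum_const, Finset.card_univ, Fintype.card_fun, Fintype.card_bool, nsmul_eq_mul]
      push_cast
      ring

theorem M4 (h3 : St_M3) (hp : St_P3) : St_M4 := by
  intro κ g ℓ η P k hg hρ hℓ hη h8 hP
  have hκ : (2 : ℝ) ^ κ ≤ 8 ^ κ := pow_le_pow_left₀ (by norm_num) (by norm_num) κ
  have h2 : 2 * η * 2 ^ κ ≤ 1 := by
    have h21 : 2 * η * 2 ^ κ ≤ 4 * η * 8 ^ κ := by
      have : 2 * η * 2 ^ κ ≤ 4 * η * 2 ^ κ := by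
        have : 0 ≤ η * (2 : ℝ) ^ κ := by positivity
        nlinarith
      exact this.trans (mul_le_mul_of_nonneg_left hκ (by positivity))
    exact h21.trans h8
  have herr : 0 ≤ err κ η ℓ := by unfold err; positivity
  induction k generalizing P with
  | zero =>
    show |ml g P - ml g P| ≤ _
    simp
  | succ k ih =>
    by_cases hS : 2 / 5 ≤ Sf P
    · have e : ES η (ml g) (k + 1) P = ml g P := by
        unfold ES
        rw [if_pos hS]
      rw [e, sub_self, abs_zero]
      positivity
    · have e : ES η (ml g) (k + 1) P = av (fun s => ES η (ml g) k (step η P s)) := by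
        conv_lhs => unfold ES
        rw [if_neg hS]
      rw [e]
      have h4 : |av (fun s => ES η (ml g) k (step η P s)) - av (fun s => ml g (step η P s))| ≤
          k * err κ η ℓ :=
        M4_av_abs fun s => ih (step η P s) (hp κ η P s hη h2 hP).1
      have h5 := h3 κ g ℓ η P hg hρ hη h8 hP
      have h6 : av (fun s => ES η (ml g) k (step η P s)) - ml g P =
          (av (fun s => ES η (ml g) k (step η P s)) - av (fun s => ml g (step η P s))) +
          (av (fun s => ml g (step η P s)) - ml g P) := by ring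
      rw [h6]
      refine (abs_add_le _ _).trans ?_
      push_cast
      linarith

end Pool.Agent.H516R2.EQP
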