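import Pool.Agent.H516R2.EQP.Props

/-!
# Task P1: expectations in one step of the walk
-/

namespace Pool.Agent.H516R2.EQP

open Pool.Agent.NPC Pool.Agent.H620R2.Gauge Finset H568R2 Pool.Agent.H676

section P1lin

variable {I : Type*} [Fintype I] [DecidableEq I]

lemma P1_av_add (f g : (I → Bool) → ℝ) : av (fun s => f s + g s) = av f + av g := by
  unfold av
  rw [Finset.sum_add_distrib, add_div]

lemma P1_av_sub (f g : (I → Bool) → ℝ) : av (fun s => f s - g s) = av f - av g := by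
  unfold av
  rw [Finset.sum_sub_distrib, sub_div]

lemma P1_av_mul (c : ℝ) (f : (I → Bool) → ℝ) : av (fun s => c * f s) = c * av f := by
  unfold av
  rw [← Finset.mul_sum, mul_div_assoc]

lemma P1_av_const (c : ℝ) : av (fun _ : I → Bool => c) = c := by
  unfold av
  rw [Finset.sum_const, Finset.card_univ, Fintype.card_fun, Fintype.card_bool, nsmul_eq_mul]
  push_cast
  field_simp

lemma P1_av_sum {K : Type*} [Fintype K] (f : K → (I → Bool) → ℝ) :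
    av (fun s => ∑ k, f k s) = ∑ k, av (f k) := by
  unfold av
  rw [Finset.sum_comm, Finset.sum_div]

end P1lin

lemma P1_sg_sq (b : Bool) : sg b ^ 2 = 1 := by
  unfold sg; split_ifs <;> norm_num

lemma P1_sg_not (b : Bool) : sg (!b) = - sg b := by
  cases b <;> simp [sg]

lemma P1_ell_neg {κ : ℕ} (c : U κ → ℝ) (s : U κ → Bool) :
    ∑ u, c u * sg (!s u) = - ∑ u, c u * sg (s u) := by
  rw [← Finset.sum_neg_distrib]
  exact Finset.sum_congr rfl fun u _ => by rw [P1_sg_not]; ring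

lemma P1_gg_neg {κ : ℕ} (s : U κ → Bool) (v : U κ) :
    gg (fun u => !s u) (Sum.inr v) = - gg s (Sum.inr v) := P1_ell_neg _ s

lemma P1_gg_inr {κ : ℕ} (s : U κ → Bool) (v : U κ) :
    gg s (Sum.inr v) = ∑ u, Hd v u * sg (s u) := rfl

lemma P1_gg_inl {κ : ℕ} (s : U κ → Bool) (v : U κ) : gg s (Sum.inl v) = sg (s v) := rfl

lemma P1_av_ell (hB : St_B) {κ : ℕ} (c : U κ → ℝ) :
    av (fun s : U κ → Bool => ∑ u, c u * sg (s u)) = 0 := by
  obtain ⟨-, -, -, -, -, -, h7, -⟩ := hB κ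
  exact h7 _ fun s => P1_ell_neg c s

lemma P1_av_s (hB : St_B) {κ : ℕ} (u : U κ) :
    av (fun s : U κ → Bool => sg (s u)) = 0 := by
  obtain ⟨-, -, -, -, -, -, h7, -⟩ := hB κ
  exact h7 _ fun s => P1_sg_not _

lemma P1_av_g (hB : St_B) {κ : ℕ} (v : U κ) :
    av (fun s : U κ → Bool => gg s (Sum.inr v)) = 0 := P1_av_ell hB _

lemma P1_av_ell2 (hB : St_B) {κ : ℕ} (c c' : U κ → ℝ) :
    av (fun s : U κ → Bool => (∑ u, c u * sg (s u)) * (∑ u, c' u * sg (s u))) =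
    ∑ u, c u * c' u := by
  obtain ⟨-, -, -, -, -, h6, -⟩ := hB κ
  exact h6 c c'

lemma P1_av_sg (hB : St_B) {κ : ℕ} (u v : U κ) :
    av (fun s : U κ → Bool => sg (s u) * gg s (Sum.inr v)) = Hd v u := by
  have h := P1_av_ell2 hB (fun w => if w = u then (1 : ℝ) else 0) (fun w => Hd v w)
  simp only [ite_mul, one_mul, zero_mul, Finset.sum_ite_eq', Finset.mem_univ, if_true] at h
  exact h

lemma P1_Hd_sq (hB : St_B) {κ : ℕ} (u v : U κ) : Hd u v ^ 2 = 1 / 4 ^ κ := by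
  obtain ⟨-, h2, -⟩ := hB κ
  rw [← sq_abs, h2]
  rw [div_pow, one_pow, ← pow_mul, mul_comm κ 2, pow_mul]
  norm_num

lemma P1_av_gg2 (hB : St_B) {κ : ℕ} (v : U κ) :
    av (fun s : U κ → Bool => gg s (Sum.inr v) ^ 2) = 1 := by
  have h := P1_av_ell2 hB (fun w => Hd v w) (fun w => Hd v w)
  obtain ⟨-, -, h3, -⟩ := hB κ
  rw [h3 v v, if_pos rfl] at h
  rw [← h]
  congr 1
  funext s
  rw [P1_gg_inr, sq]

/-- two factors -/
lemma P1_av_two (hB : St_B) {κ : ℕ} (u v : U κ) (x a y c : ℝ) :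
    av (fun s : U κ → Bool => (x + a * sg (s u)) * (y + c * gg s (Sum.inr v))) =
      x * y + a * c * Hd v u := by
  have e : (fun s : U κ → Bool => (x + a * sg (s u)) * (y + c * gg s (Sum.inr v))) =
      fun s => ((x * y + (a * y) * sg (s u)) + (x * c) * gg s (Sum.inr v)) +
        (a * c) * (sg (s u) * gg s (Sum.inr v)) := by
    funext s; ring
  rw [e, P1_av_add, P1_av_add, P1_av_add, P1_av_const, P1_av_mul, P1_av_mul, P1_av_mul,
    P1_av_s hB, P1_av_g hB, P1_av_sg hB]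
  ring

lemma P1_cardR (hB : St_B) (κ : ℕ) : ((Finset.univ : Finset (U κ)).card : ℝ) = 4 ^ κ := by
  obtain ⟨-, -, -, -, -, -, -, -, h9, -⟩ := hB κ
  rw [Finset.card_univ, h9]
  push_cast
  rfl

/-- mean of the forrelation -/
lemma P1_Sf (hB : St_B) (κ : ℕ) (η : ℝ) (P : U κ ⊕ U κ → ℝ) :
    av (fun s => Sf (step η P s)) = Sf P + η ^ 2 * (a1 P * a2 P) := by
  have hN : (0 : ℝ) < 4 ^ κ := by positivity
  obtain ⟨h1, -⟩ := hB κ
  have e : ∀ s, Sf (step η P s) = (1 / 4 ^ κ) * ∑ u, ∑ v, Hd u v *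
      ((P (Sum.inl u) + (η * (1 - P (Sum.inl u) ^ 2)) * sg (s u)) *
      (P (Sum.inr v) + (η * (1 - P (Sum.inr v) ^ 2)) * gg s (Sum.inr v))) := by
    intro s
    unfold Sf step
    rw [div_eq_mul_inv, mul_comm, one_div]
    congr 1
    refine Finset.sum_congr rfl fun u _ => Finset.sum_congr rfl fun v _ => ?_
    rw [P1_gg_inl]
    ring
  have e2 : (fun s => Sf (step η P s)) = fun s => (1 / 4 ^ κ) * ∑ u, ∑ v, Hd u v *
      ((P (Sum.inl u) + (η * (1 - P (Sum.inl u) ^ 2)) * sg (s u)) *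
      (P (Sum.inr v) + (η * (1 - P (Sum.inr v) ^ 2)) * gg s (Sum.inr v))) := funext e
  rw [e2, P1_av_mul, P1_av_sum]
  have e3 : ∀ u : U κ, av (fun s : U κ → Bool => ∑ v, Hd u v *
      ((P (Sum.inl u) + (η * (1 - P (Sum.inl u) ^ 2)) * sg (s u)) *
      (P (Sum.inr v) + (η * (1 - P (Sum.inr v) ^ 2)) * gg s (Sum.inr v)))) =
      ∑ v, (P (Sum.inl u) * Hd u v * P (Sum.inr v) + η ^ 2 / 4 ^ κ *
        ((1 - P (Sum.inl u) ^ 2) * (1 - P (Sum.inr v) ^ 2))) := by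
    intro u
    rw [P1_av_sum]
    refine Finset.sum_congr rfl fun v _ => ?_
    rw [P1_av_mul, P1_av_two hB]
    have h := P1_Hd_sq hB u v
    rw [h1 v u]
    linear_combination (η ^ 2 * ((1 - P (Sum.inl u) ^ 2) * (1 - P (Sum.inr v) ^ 2))) * h
  rw [Finset.sum_congr rfl fun u _ => e3 u]
  simp only [Finset.sum_add_distrib, ← Finset.mul_sum]
  rw [← Finset.sum_mul]
  unfold Sf a1 a2
  field_simp

/-- the first potential after one step -/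
lemma P1_a1 (κ : ℕ) (η : ℝ) (P : U κ ⊕ U κ → ℝ) (s : U κ → Bool) :
    a1 (step η P s) = (a1 P - η ^ 2 / 4 ^ κ * ∑ u, (1 - P (Sum.inl u) ^ 2) ^ 2) -
      (2 * η / 4 ^ κ) * ∑ u, (P (Sum.inl u) * (1 - P (Sum.inl u) ^ 2)) * sg (s u) := by
  unfold a1 step
  have e : ∑ u : U κ, (1 - (P (Sum.inl u) + η * (1 - P (Sum.inl u) ^ 2) * gg s (Sum.inl u)) ^ 2) =
      ∑ u, (1 - P (Sum.inl u) ^ 2) - η ^ 2 * ∑ u, (1 - P (Sum.inl u) ^ 2) ^ 2 -
      (2 * η) * ∑ u, (P (Sum.inl u) * (1 - P (Sum.inl u) ^ 2)) * sg (s u) := by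
    rw [Finset.mul_sum, Finset.mul_sum, ← Finset.sum_sub_distrib, ← Finset.sum_sub_distrib]
    refine Finset.sum_congr rfl fun u _ => ?_
    rw [P1_gg_inl]
    have h := P1_sg_sq (s u)
    linear_combination (-(η ^ 2 * (1 - P (Sum.inl u) ^ 2) ^ 2)) * h
  rw [e]
  ring

/-- the second potential after one step -/
lemma P1_a2 (κ : ℕ) (η : ℝ) (P : U κ ⊕ U κ → ℝ) (s : U κ → Bool) :
    a2 (step η P s) = a2 P -
      (2 * η / 4 ^ κ) * ∑ v, (P (Sum.inr v) * (1 - P (Sum.inr v) ^ 2)) * gg s (Sum.inr v) -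
      (η ^ 2 / 4 ^ κ) * ∑ v, (1 - P (Sum.inr v) ^ 2) ^ 2 * gg s (Sum.inr v) ^ 2 := by
  unfold a2 step
  have e : ∑ u : U κ, (1 - (P (Sum.inr u) + η * (1 - P (Sum.inr u) ^ 2) * gg s (Sum.inr u)) ^ 2) =
      ∑ u, (1 - P (Sum.inr u) ^ 2) -
      (2 * η) * ∑ v, (P (Sum.inr v) * (1 - P (Sum.inr v) ^ 2)) * gg s (Sum.inr v) -
      η ^ 2 * ∑ v, (1 - P (Sum.inr v) ^ 2) ^ 2 * gg s (Sum.inr v) ^ 2 := by
    rw [Finset.mul_sum, Finset.mul_sum, ← Finset.sum_sub_distrib, ← Finset.sum_sub_distrib]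
    refine Finset.sum_congr rfl fun u _ => ?_
    ring
  rw [e]
  ring

lemma P1_m (hB : St_B) {κ : ℕ} (d : U κ → ℝ) (s : U κ → Bool) :
    ∑ v, d v * gg s (Sum.inr v) = ∑ u, (∑ v, Hd u v * d v) * sg (s u) := by
  obtain ⟨h1, -⟩ := hB κ
  simp only [P1_gg_inr, Finset.mul_sum, Finset.sum_mul]
  rw [Finset.sum_comm]
  refine Finset.sum_congr rfl fun u _ => Finset.sum_congr rfl fun v _ => ?_
  rw [h1 v u]
  ring

/-- mean of the product of the two potentials -/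
lemma P1_a12 (hB : St_B) (κ : ℕ) (η : ℝ) (P : U κ ⊕ U κ → ℝ) :
    av (fun s => a1 (step η P s) * a2 (step η P s)) =
      (a1 P - η ^ 2 / 4 ^ κ * ∑ u, (1 - P (Sum.inl u) ^ 2) ^ 2) *
      (a2 P - η ^ 2 / 4 ^ κ * ∑ v, (1 - P (Sum.inr v) ^ 2) ^ 2) +
      (2 * η / 4 ^ κ) ^ 2 * ∑ u, (P (Sum.inl u) * (1 - P (Sum.inl u) ^ 2)) *
        (∑ v, Hd u v * (P (Sum.inr v) * (1 - P (Sum.inr v) ^ 2))) := by
  set p := a1 P - η ^ 2 / 4 ^ κ * ∑ u, (1 - P (Sum.inl u) ^ 2) ^ 2 with hp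
  set q := 2 * η / 4 ^ κ with hq
  set r := η ^ 2 / 4 ^ κ with hr
  set c : U κ → ℝ := fun u => P (Sum.inl u) * (1 - P (Sum.inl u) ^ 2) with hc
  set d : U κ → ℝ := fun u => P (Sum.inr u) * (1 - P (Sum.inr u) ^ 2) with hd
  set e : U κ → ℝ := fun u => (1 - P (Sum.inr u) ^ 2) ^ 2 with he
  have E : (fun s => a1 (step η P s) * a2 (step η P s)) = fun s : U κ → Bool =>
      ((((p * a2 P - (p * q) * ∑ u, (∑ v, Hd u v * d v) * sg (s u)) -
        (p * r) * ∑ v, e v * gg s (Sum.inr v) ^ 2) -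
        (q * a2 P) * ∑ u, c u * sg (s u)) +
        q ^ 2 * ((∑ u, c u * sg (s u)) * (∑ u, (∑ v, Hd u v * d v) * sg (s u)))) +
        (q * r) * ((∑ u, c u * sg (s u)) * ∑ v, e v * gg s (Sum.inr v) ^ 2) := by
    funext s
    rw [P1_a1, P1_a2, ← P1_m hB d s]
    ring
  have F : av (fun s : U κ → Bool => (∑ u, c u * sg (s u)) * ∑ v, e v * gg s (Sum.inr v) ^ 2) = 0 := by
    obtain ⟨-, -, -, -, -, -, h7, -⟩ := hB κ
    refine h7 _ fun s => ?_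
    simp only [P1_gg_neg, P1_ell_neg]
    simp only [neg_sq]
    ring
  have G : av (fun s : U κ → Bool => ∑ v, e v * gg s (Sum.inr v) ^ 2) = ∑ v, e v := by
    rw [P1_av_sum]
    refine Finset.sum_congr rfl fun v _ => ?_
    rw [P1_av_mul, P1_av_gg2 hB, mul_one]
  rw [E, P1_av_add, P1_av_add, P1_av_sub, P1_av_sub, P1_av_sub, P1_av_const, P1_av_mul, P1_av_mul,
    P1_av_mul, P1_av_mul, P1_av_mul, P1_av_ell hB, P1_av_ell hB, P1_av_ell2 hB, F, G]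
  ring

lemma P1_sum_le (hB : St_B) {κ : ℕ} (f : U κ → ℝ) (h : ∀ u, f u ≤ 1) : ∑ u, f u ≤ 4 ^ κ := by
  have := Finset.sum_le_card_nsmul (Finset.univ : Finset (U κ)) f 1 fun u _ => h u
  rw [nsmul_eq_mul, P1_cardR hB, mul_one] at this
  exact this

lemma P1_unit {x : ℝ} (h : |x| ≤ 1) : 0 ≤ 1 - x ^ 2 ∧ 1 - x ^ 2 ≤ 1 ∧ x ^ 2 ≤ 1 := by
  have h1 : x ^ 2 ≤ 1 := by
    rw [← sq_abs]
    have := abs_nonneg x
    nlinarith
  exact ⟨by linarith, by linarith [sq_nonneg x], h1⟩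

/-- the cross term -/
lemma P1_cross (hB : St_B) {κ : ℕ} (P : U κ ⊕ U κ → ℝ) (hP : Box P) :
    -(4 : ℝ) ^ κ ≤ ∑ u, (P (Sum.inl u) * (1 - P (Sum.inl u) ^ 2)) *
        (∑ v, Hd u v * (P (Sum.inr v) * (1 - P (Sum.inr v) ^ 2))) := by
  have hb : ∀ i, (P i * (1 - P i ^ 2)) ^ 2 ≤ 1 := by
    intro i
    obtain ⟨h0, h1, h2⟩ := P1_unit (hP i)
    rw [mul_pow]
    have h3 : (1 - P i ^ 2) ^ 2 ≤ 1 := by nlinarith
    nlinarith [sq_nonneg (P i), sq_nonneg (1 - P i ^ 2)]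
  obtain ⟨-, -, -, h4, -⟩ := hB κ
  have e1 := h4 (fun v => P (Sum.inr v) * (1 - P (Sum.inr v) ^ 2))
  have e2 : ∑ u : U κ, (P (Sum.inr u) * (1 - P (Sum.inr u) ^ 2)) ^ 2 ≤ 4 ^ κ :=
    P1_sum_le hB _ fun u => hb _
  have e3 : ∑ u : U κ, (P (Sum.inl u) * (1 - P (Sum.inl u) ^ 2)) ^ 2 ≤ 4 ^ κ :=
    P1_sum_le hB _ fun u => hb _
  have e4 : -∑ u : U κ, ((P (Sum.inl u) * (1 - P (Sum.inl u) ^ 2)) ^ 2 +
      (∑ v, Hd u v * (P (Sum.inr v) * (1 - P (Sum.inr v) ^ 2))) ^ 2) / 2 ≤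
      ∑ u, (P (Sum.inl u) * (1 - P (Sum.inl u) ^ 2)) *
        (∑ v, Hd u v * (P (Sum.inr v) * (1 - P (Sum.inr v) ^ 2))) := by
    rw [← Finset.sum_neg_distrib]
    refine Finset.sum_le_sum fun u _ => ?_
    nlinarith [sq_nonneg ((P (Sum.inl u) * (1 - P (Sum.inl u) ^ 2)) +
      (∑ v, Hd u v * (P (Sum.inr v) * (1 - P (Sum.inr v) ^ 2))))]
  rw [← Finset.sum_div, Finset.sum_add_distrib] at e4
  rw [e1] at e4
  linarith

theorem P1 (hB : St_B) : St_P1 := by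
  intro κ η P hη hP
  have hN : (0 : ℝ) < 4 ^ κ := by positivity
  refine ⟨P1_Sf hB κ η P, ?_, ?_⟩
  · have e : (fun s : U κ → Bool => Psi (step η P s)) = fun s =>
        Sf (step η P s) + (1 / 2) * (a1 (step η P s) * a2 (step η P s)) := by
      funext s
      unfold Psi
      ring
    rw [e, P1_av_add, P1_av_mul, P1_Sf hB, P1_a12 hB]
    have hc := P1_cross hB P hP
    set Q := ∑ u, (P (Sum.inl u) * (1 - P (Sum.inl u) ^ 2)) *
        (∑ v, Hd u v * (P (Sum.inr v) * (1 - P (Sum.inr v) ^ 2))) with hQ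
    have hq : -(4 * η ^ 2 / 4 ^ κ) ≤ (2 * η / 4 ^ κ) ^ 2 * Q := by
      have h1 : (2 * η / 4 ^ κ) ^ 2 * (-(4 : ℝ) ^ κ) = -(4 * η ^ 2 / 4 ^ κ) := by
        field_simp
        ring
      rw [← h1]
      exact mul_le_mul_of_nonneg_left hc (sq_nonneg _)
    have hA : ∀ i, (1 - P i ^ 2) ^ 2 ≤ 1 - P i ^ 2 := by
      intro i
      obtain ⟨h0, h1, -⟩ := P1_unit (hP i)
      nlinarith
    have hα : (∑ u : U κ, (1 - P (Sum.inl u) ^ 2) ^ 2) / 4 ^ κ ≤ a1 P := by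
      unfold a1
      exact div_le_div_of_nonneg_right (Finset.sum_le_sum fun u _ => hA _) hN.le
    have hγ : (∑ u : U κ, (1 - P (Sum.inr u) ^ 2) ^ 2) / 4 ^ κ ≤ a2 P := by
      unfold a2
      exact div_le_div_of_nonneg_right (Finset.sum_le_sum fun u _ => hA _) hN.le
    have hα0 : 0 ≤ (∑ u : U κ, (1 - P (Sum.inl u) ^ 2) ^ 2) / 4 ^ κ := by positivity
    have hγ0 : 0 ≤ (∑ u : U κ, (1 - P (Sum.inr u) ^ 2) ^ 2) / 4 ^ κ := by positivity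
    have e1 : η ^ 2 / 4 ^ κ * ∑ u : U κ, (1 - P (Sum.inl u) ^ 2) ^ 2 =
        η ^ 2 * ((∑ u : U κ, (1 - P (Sum.inl u) ^ 2) ^ 2) / 4 ^ κ) := by ring
    have e2 : η ^ 2 / 4 ^ κ * ∑ u : U κ, (1 - P (Sum.inr u) ^ 2) ^ 2 =
        η ^ 2 * ((∑ u : U κ, (1 - P (Sum.inr u) ^ 2) ^ 2) / 4 ^ κ) := by ring
    rw [e1, e2]
    generalize (∑ u : U κ, (1 - P (Sum.inl u) ^ 2) ^ 2) / 4 ^ κ = α at *
    generalize (∑ u : U κ, (1 - P (Sum.inr u) ^ 2) ^ 2) / 4 ^ κ = γ at *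
    have ha1 : 0 ≤ a1 P := hα0.trans hα
    have ha2 : 0 ≤ a2 P := hγ0.trans hγ
    have h3 : a1 P * a2 P - 2 * η ^ 2 * (a1 P * a2 P) ≤ (a1 P - η ^ 2 * α) * (a2 P - η ^ 2 * γ) := by
      have h4 : α * a2 P ≤ a1 P * a2 P := mul_le_mul_of_nonneg_right hα ha2
      have h5 : γ * a1 P ≤ a2 P * a1 P := mul_le_mul_of_nonneg_right hγ ha1
      have h6 : 0 ≤ η ^ 2 * η ^ 2 * (α * γ) := by positivity
      have h7 := mul_le_mul_of_nonneg_left h4 (sq_nonneg η)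
      have h8 := mul_le_mul_of_nonneg_left h5 (sq_nonneg η)
      nlinarith
    have h9 : 2 * η ^ 2 / 4 ^ κ = (4 * η ^ 2 / 4 ^ κ) / 2 := by ring
    unfold Psi
    rw [h9]
    linarith
  · have e : (fun s : U κ → Bool => a1 (step η P s)) = fun s =>
        (a1 P - η ^ 2 / 4 ^ κ * ∑ u, (1 - P (Sum.inl u) ^ 2) ^ 2) -
      (2 * η / 4 ^ κ) * ∑ u, (P (Sum.inl u) * (1 - P (Sum.inl u) ^ 2)) * sg (s u) := by
      funext s
      exact P1_a1 κ η P s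
    rw [e, P1_av_sub, P1_av_mul, P1_av_ell hB, P1_av_const, mul_zero, sub_zero]
    have hcs : (∑ u : U κ, (1 - P (Sum.inl u) ^ 2)) ^ 2 ≤
        4 ^ κ * ∑ u : U κ, (1 - P (Sum.inl u) ^ 2) ^ 2 := by
      have := sq_sum_le_card_mul_sum_sq (s := (Finset.univ : Finset (U κ)))
        (f := fun u => (1 - P (Sum.inl u) ^ 2))
      rw [P1_cardR hB] at this
      exact this
    have h1 : a1 P ^ 2 ≤ (∑ u : U κ, (1 - P (Sum.inl u) ^ 2) ^ 2) / 4 ^ κ := by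
      unfold a1
      rw [div_pow, div_le_div_iff₀ (by positivity) hN]
      nlinarith
    have h2 := mul_le_mul_of_nonneg_left h1 (sq_nonneg η)
    have e1 : η ^ 2 / 4 ^ κ * ∑ u : U κ, (1 - P (Sum.inl u) ^ 2) ^ 2 =
        η ^ 2 * ((∑ u : U κ, (1 - P (Sum.inl u) ^ 2) ^ 2) / 4 ^ κ) := by ring
    rw [e1]
    linarith

end Pool.Agent.H516R2.EQP
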