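import Pool.Agent.H516R2.EQP.Props

/-!
# Task P2: second moment of one step
-/

namespace Pool.Agent.H516R2.EQP

open Pool.Agent.NPC Pool.Agent.H620R2.Gauge Finset H568R2 Pool.Agent.H676

section
variable {I : Type*} [Fintype I] [DecidableEq I]

lemma P2_av_mono {f g : (I → Bool) → ℝ} (h : ∀ x, f x ≤ g x) : av f ≤ av g := by
  unfold av
  exact div_le_div_of_nonneg_right (Finset.sum_le_sum fun x _ => h x) (by positivity)

lemma P2_av_add (f g : (I → Bool) → ℝ) : av (fun x => f x + g x) = av f + av g := by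
  unfold av
  rw [Finset.sum_add_distrib, add_div]

lemma P2_av_smul (c : ℝ) (f : (I → Bool) → ℝ) : av (fun x => c * f x) = c * av f := by
  unfold av
  rw [← Finset.mul_sum, mul_div_assoc]

lemma P2_av_const (c : ℝ) : av (fun _ : I → Bool => c) = c := by
  unfold av
  rw [Finset.sum_const, Finset.card_univ, Fintype.card_fun, Fintype.card_bool, nsmul_eq_mul]
  push_cast
  field_simp

end

lemma P2_sg_sq (b : Bool) : sg b ^ 2 = 1 := by cases b <;> simp [sg]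

lemma P2_sg_abs (b : Bool) : |sg b| = 1 := by cases b <;> simp [sg]

/-- the pointwise inequality -/
lemma P2_alg {η x y E1 E2 F1 F2 G1 G2 R : ℝ} (h0 : 0 ≤ η) (h1 : η ≤ 1)
    (hx0 : 0 ≤ x) (hx1 : x ≤ 1) (hy0 : 0 ≤ y) (hy1 : y ≤ 1)
    (hE1 : |E1| ≤ 1) (hE2 : |E2| ≤ 1) (hF1 : 0 ≤ F1) (hF1' : F1 ≤ 1) (hF2 : 0 ≤ F2)
    (hF2' : F2 ≤ 1) (hR : R ^ 2 ≤ 1) :
    ((η * G1 + η * G2 + η ^ 2 * R) + (x * (-(2 * η * E2) - η ^ 2 * F2) +
      y * (-(2 * η * E1) - η ^ 2 * F1) +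
      (-(2 * η * E1) - η ^ 2 * F1) * (-(2 * η * E2) - η ^ 2 * F2)) / 2) ^ 2 ≤
    6 * η ^ 2 * (G1 ^ 2) + 6 * η ^ 2 * (G2 ^ 2) + 12 * η ^ 2 * (E1 ^ 2) + 12 * η ^ 2 * (E2 ^ 2) +
      200 * η ^ 4 := by
  set D1 := -(2 * η * E1) - η ^ 2 * F1 with hD1
  set D2 := -(2 * η * E2) - η ^ 2 * F2 with hD2
  have hη2 : η ^ 2 ≤ η := by nlinarith
  have key : ∀ E F : ℝ, |E| ≤ 1 → 0 ≤ F → F ≤ 1 →
      (-(2 * η * E) - η ^ 2 * F) ^ 2 ≤ 8 * η ^ 2 * E ^ 2 + 2 * η ^ 4 ∧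
      (-(2 * η * E) - η ^ 2 * F) ^ 2 ≤ 9 * η ^ 2 := by
    intro E F hE hF hF'
    constructor
    · have h2 : (-(2 * η * E) - η ^ 2 * F) ^ 2 ≤ 2 * (2 * η * E) ^ 2 + 2 * (η ^ 2 * F) ^ 2 := by
        nlinarith [sq_nonneg (2 * η * E - η ^ 2 * F)]
      have h3 : (η ^ 2 * F) ^ 2 ≤ η ^ 4 := by
        have h4 : F ^ 2 ≤ 1 := by nlinarith
        calc (η ^ 2 * F) ^ 2 = η ^ 4 * F ^ 2 := by ring
          _ ≤ η ^ 4 * 1 := by gcongr
          _ = η ^ 4 := by ring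
      nlinarith
    · have h2 : |-(2 * η * E) - η ^ 2 * F| ≤ 3 * η := by
        have h5 := abs_le.1 hE
        have h6 : η ^ 2 * F ≤ η := by
          calc η ^ 2 * F ≤ η ^ 2 * 1 := by gcongr
            _ ≤ η := by linarith
        have h7 : 0 ≤ η ^ 2 * F := by positivity
        rw [abs_le]
        constructor
        · nlinarith [mul_le_mul_of_nonneg_left h5.2 h0]
        · nlinarith [mul_le_mul_of_nonneg_left h5.1 h0]
      calc (-(2 * η * E) - η ^ 2 * F) ^ 2 = |-(2 * η * E) - η ^ 2 * F| ^ 2 := (sq_abs _).symm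
        _ ≤ (3 * η) ^ 2 := by gcongr
        _ = 9 * η ^ 2 := by ring
  obtain ⟨hd1, hd1'⟩ := key E1 F1 hE1 hF1 hF1'
  obtain ⟨hd2, hd2'⟩ := key E2 F2 hE2 hF2 hF2'
  rw [← hD1] at hd1 hd1'
  rw [← hD2] at hd2 hd2'
  have hS : (η * G1 + η * G2 + η ^ 2 * R) ^ 2 ≤
      3 * ((η * G1) ^ 2 + (η * G2) ^ 2 + (η ^ 2 * R) ^ 2) := by
    nlinarith [sq_nonneg (η * G1 - η * G2), sq_nonneg (η * G1 - η ^ 2 * R),
      sq_nonneg (η * G2 - η ^ 2 * R)]
  have hS2 : (η ^ 2 * R) ^ 2 ≤ η ^ 4 := by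
    calc (η ^ 2 * R) ^ 2 = η ^ 4 * R ^ 2 := by ring
      _ ≤ η ^ 4 * 1 := by gcongr
      _ = η ^ 4 := by ring
  have hT : (x * D2 + y * D1 + D1 * D2) ^ 2 ≤
      3 * ((x * D2) ^ 2 + (y * D1) ^ 2 + (D1 * D2) ^ 2) := by
    nlinarith [sq_nonneg (x * D2 - y * D1), sq_nonneg (x * D2 - D1 * D2),
      sq_nonneg (y * D1 - D1 * D2)]
  have hx : (x * D2) ^ 2 ≤ D2 ^ 2 := by
    have h4 : x ^ 2 ≤ 1 := by nlinarith
    calc (x * D2) ^ 2 = x ^ 2 * D2 ^ 2 := by ring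
      _ ≤ 1 * D2 ^ 2 := by gcongr
      _ = D2 ^ 2 := by ring
  have hy : (y * D1) ^ 2 ≤ D1 ^ 2 := by
    have h4 : y ^ 2 ≤ 1 := by nlinarith
    calc (y * D1) ^ 2 = y ^ 2 * D1 ^ 2 := by ring
      _ ≤ 1 * D1 ^ 2 := by gcongr
      _ = D1 ^ 2 := by ring
  have hDD : (D1 * D2) ^ 2 ≤ 81 * η ^ 4 := by
    calc (D1 * D2) ^ 2 = D1 ^ 2 * D2 ^ 2 := by ring
      _ ≤ (9 * η ^ 2) * (9 * η ^ 2) := by gcongr
      _ = 81 * η ^ 4 := by ring
  have hfin : ((η * G1 + η * G2 + η ^ 2 * R) + (x * D2 + y * D1 + D1 * D2) / 2) ^ 2 ≤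
      2 * (η * G1 + η * G2 + η ^ 2 * R) ^ 2 + (x * D2 + y * D1 + D1 * D2) ^ 2 / 2 := by
    nlinarith [sq_nonneg ((η * G1 + η * G2 + η ^ 2 * R) - (x * D2 + y * D1 + D1 * D2) / 2)]
  have h4 : 0 ≤ η ^ 4 := by positivity
  have e1 : (η * G1) ^ 2 = η ^ 2 * G1 ^ 2 := by ring
  have e2 : (η * G2) ^ 2 = η ^ 2 * G2 ^ 2 := by ring
  rw [e1, e2] at hS
  linarith

/-- expansion of the bilinear form -/
lemma P2_bil {V : Type*} [Fintype V] (H : V → V → ℝ) (hs : ∀ u v, H u v = H v u)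
    (X Y A C s g : V → ℝ) (η : ℝ) :
    ∑ u, ∑ v, (X u + η * A u * s u) * H u v * (Y v + η * C v * g v) =
      ∑ u, ∑ v, X u * H u v * Y v + η * (∑ u, (A u * ∑ v, H u v * Y v) * s u) +
        η * (∑ v, (C v * ∑ u, H v u * X u) * g v) +
        η ^ 2 * (∑ u, (A u * s u) * ∑ v, H u v * (C v * g v)) := by
  have e1 : η * (∑ u, (A u * ∑ v, H u v * Y v) * s u) =
      ∑ u, ∑ v, η * A u * s u * H u v * Y v := by
    rw [Finset.mul_sum]
    refine Finset.sum_congr rfl fun u _ => ?_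
    rw [Finset.mul_sum, Finset.sum_mul, Finset.mul_sum]
    refine Finset.sum_congr rfl fun v _ => ?_
    ring
  have e2 : η * (∑ v, (C v * ∑ u, H v u * X u) * g v) =
      ∑ u, ∑ v, X u * H u v * (η * C v * g v) := by
    rw [Finset.sum_comm, Finset.mul_sum]
    refine Finset.sum_congr rfl fun v _ => ?_
    rw [Finset.mul_sum, Finset.sum_mul, Finset.mul_sum]
    refine Finset.sum_congr rfl fun u _ => ?_
    rw [hs v u]
    ring
  have e3 : η ^ 2 * (∑ u, (A u * s u) * ∑ v, H u v * (C v * g v)) =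
      ∑ u, ∑ v, (η * A u * s u) * H u v * (η * C v * g v) := by
    rw [Finset.mul_sum]
    refine Finset.sum_congr rfl fun u _ => ?_
    rw [Finset.mul_sum, Finset.mul_sum]
    refine Finset.sum_congr rfl fun v _ => ?_
    ring
  rw [e1, e2, e3, ← Finset.sum_add_distrib, ← Finset.sum_add_distrib, ← Finset.sum_add_distrib]
  refine Finset.sum_congr rfl fun u _ => ?_
  rw [← Finset.sum_add_distrib, ← Finset.sum_add_distrib, ← Finset.sum_add_distrib]
  refine Finset.sum_congr rfl fun v _ => ?_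
  ring

theorem P2 (hB : St_B) : St_P2 := by
  intro κ η P h0 h1 hP
  obtain ⟨hs, -, -, hn, -, hav, -, hgg, hcard, -⟩ := hB κ
  set N : ℝ := 4 ^ κ with hN
  have hNpos : 0 < N := by positivity
  set X : U κ → ℝ := fun u => P (Sum.inl u) with hX
  set Y : U κ → ℝ := fun u => P (Sum.inr u) with hY
  set A : U κ → ℝ := fun u => 1 - X u ^ 2 with hA
  set C : U κ → ℝ := fun u => 1 - Y u ^ 2 with hC
  have hX2 : ∀ u, X u ^ 2 ≤ 1 := fun u => by
    have := hP (Sum.inl u)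
    rw [← sq_abs]
    exact pow_le_one₀ (abs_nonneg _) this
  have hY2 : ∀ u, Y u ^ 2 ≤ 1 := fun u => by
    have := hP (Sum.inr u)
    rw [← sq_abs]
    exact pow_le_one₀ (abs_nonneg _) this
  have hA0 : ∀ u, 0 ≤ A u := fun u => by simp only [hA]; linarith [hX2 u]
  have hA1 : ∀ u, A u ≤ 1 := fun u => by simp only [hA]; nlinarith [sq_nonneg (X u)]
  have hC0 : ∀ u, 0 ≤ C u := fun u => by simp only [hC]; linarith [hY2 u]
  have hC1 : ∀ u, C u ≤ 1 := fun u => by simp only [hC]; nlinarith [sq_nonneg (Y u)]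
  have hA2 : ∀ u, A u ^ 2 ≤ 1 := fun u => pow_le_one₀ (hA0 u) (hA1 u)
  have hC2 : ∀ u, C u ^ 2 ≤ 1 := fun u => pow_le_one₀ (hC0 u) (hC1 u)
  have hcardN : ((Fintype.card (U κ) : ℕ) : ℝ) = N := by rw [hcard]; push_cast; rfl
  have hsum1 : ∀ f : U κ → ℝ, (∀ u, f u ≤ 1) → ∑ u, f u ≤ N := by
    intro f hf
    calc ∑ u, f u ≤ ∑ _u : U κ, (1 : ℝ) := Finset.sum_le_sum fun u _ => hf u
      _ = N := by rw [Finset.sum_const, Finset.card_univ, nsmul_eq_mul, mul_one, hcardN]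
  -- linear forms
  have lin1 : ∀ c : U κ → ℝ, av (fun s : U κ → Bool => (∑ u, c u * sg (s u)) ^ 2) =
      ∑ u, c u ^ 2 := by
    intro c
    have := hav c c
    simp only [← sq] at this
    exact this
  have lin2 : ∀ c : U κ → ℝ, av (fun s : U κ → Bool => (∑ v, c v * gg s (Sum.inr v)) ^ 2) =
      ∑ u, c u ^ 2 := by
    intro c
    have e : ∀ s : U κ → Bool, ∑ v, c v * gg s (Sum.inr v) =
        ∑ u, (∑ v, Hd u v * c v) * sg (s u) := by
      intro s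
      have e1 : ∀ v, c v * gg s (Sum.inr v) = ∑ u, c v * (Hd v u * sg (s u)) := by
        intro v
        simp only [gg, Sum.elim_inr, Finset.mul_sum]
      rw [Finset.sum_congr rfl fun v _ => e1 v, Finset.sum_comm]
      refine Finset.sum_congr rfl fun u _ => ?_
      rw [Finset.sum_mul]
      refine Finset.sum_congr rfl fun v _ => ?_
      rw [hs v u]
      ring
    simp only [e]
    rw [lin1]
    exact hn c
  -- the quantities
  set G1 : (U κ → Bool) → ℝ := fun s => (∑ u, (A u * ∑ v, Hd u v * Y v) * sg (s u)) / N with hG1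
  set G2 : (U κ → Bool) → ℝ :=
    fun s => (∑ v, (C v * ∑ u, Hd v u * X u) * gg s (Sum.inr v)) / N with hG2
  set R : (U κ → Bool) → ℝ :=
    fun s => (∑ u, (A u * sg (s u)) * ∑ v, Hd u v * (C v * gg s (Sum.inr v))) / N with hR
  set E1 : (U κ → Bool) → ℝ := fun s => (∑ u, (X u * A u) * sg (s u)) / N with hE1
  set E2 : (U κ → Bool) → ℝ := fun s => (∑ u, (Y u * C u) * gg s (Sum.inr u)) / N with hE2
  set F1 : ℝ := (∑ u, A u ^ 2) / N with hF1
  set F2 : (U κ → Bool) → ℝ := fun s => (∑ u, C u ^ 2 * gg s (Sum.inr u) ^ 2) / N with hF2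
  have hSf : ∀ s, Sf (step η P s) - Sf P = η * G1 s + η * G2 s + η ^ 2 * R s := by
    intro s
    have e := P2_bil (fun u v : U κ => Hd u v) hs X Y A C (fun u => sg (s u))
      (fun v => gg s (Sum.inr v)) η
    have e' : ∑ u, ∑ v, step η P s (Sum.inl u) * Hd u v * step η P s (Sum.inr v) =
        ∑ u, ∑ v, (X u + η * A u * sg (s u)) * Hd u v * (Y v + η * C v * gg s (Sum.inr v)) := by
      rfl
    unfold Sf
    rw [e', e]
    simp only [hG1, hG2, hR, ← hN, hX, hY]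
    field_simp
    ring
  have ha1 : ∀ s, a1 (step η P s) - a1 P = -(2 * η * E1 s) - η ^ 2 * F1 := by
    intro s
    unfold a1
    have e : ∑ u, (1 - step η P s (Sum.inl u) ^ 2) = ∑ u, (1 - P (Sum.inl u) ^ 2) -
        2 * η * (∑ u, (X u * A u) * sg (s u)) - η ^ 2 * ∑ u, A u ^ 2 := by
      rw [Finset.mul_sum, Finset.mul_sum, ← Finset.sum_sub_distrib, ← Finset.sum_sub_distrib]
      refine Finset.sum_congr rfl fun u _ => ?_
      have e2 : step η P s (Sum.inl u) = X u + η * A u * sg (s u) := rfl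
      rw [e2]
      have e3 := P2_sg_sq (s u)
      have e4 : P (Sum.inl u) = X u := rfl
      rw [e4]
      linear_combination (-(η ^ 2 * A u ^ 2)) * e3
    rw [e]
    simp only [hE1, hF1, ← hN]
    field_simp
    ring
  have ha2 : ∀ s, a2 (step η P s) - a2 P = -(2 * η * E2 s) - η ^ 2 * F2 s := by
    intro s
    unfold a2
    have e : ∑ u, (1 - step η P s (Sum.inr u) ^ 2) = ∑ u, (1 - P (Sum.inr u) ^ 2) -
        2 * η * (∑ u, (Y u * C u) * gg s (Sum.inr u)) -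
          η ^ 2 * ∑ u, C u ^ 2 * gg s (Sum.inr u) ^ 2 := by
      rw [Finset.mul_sum, Finset.mul_sum, ← Finset.sum_sub_distrib, ← Finset.sum_sub_distrib]
      refine Finset.sum_congr rfl fun u _ => ?_
      have e2 : step η P s (Sum.inr u) = Y u + η * C u * gg s (Sum.inr u) := rfl
      rw [e2]
      have e4 : P (Sum.inr u) = Y u := rfl
      rw [e4]
      ring
    rw [e]
    simp only [hE2, hF2, ← hN]
    field_simp
    ring
  -- bounds
  have hgsq : ∀ s : U κ → Bool, ∑ u, gg s (Sum.inr u) ^ 2 = N := fun s => (hgg s).2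
  have bF1 : 0 ≤ F1 := div_nonneg (Finset.sum_nonneg fun u _ => sq_nonneg _) hNpos.le
  have bF1' : F1 ≤ 1 := by
    rw [hF1, div_le_one hNpos]
    exact hsum1 _ hA2
  have hCg : ∀ s : U κ → Bool, ∑ u, C u ^ 2 * gg s (Sum.inr u) ^ 2 ≤ N := by
    intro s
    calc ∑ u, C u ^ 2 * gg s (Sum.inr u) ^ 2 ≤ ∑ u, gg s (Sum.inr u) ^ 2 :=
          Finset.sum_le_sum fun u _ => by
            nlinarith [hC2 u, sq_nonneg (gg s (Sum.inr u))]
      _ = N := hgsq s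
  have bF2 : ∀ s, 0 ≤ F2 s := fun s =>
    div_nonneg (Finset.sum_nonneg fun u _ => by positivity) hNpos.le
  have bF2' : ∀ s, F2 s ≤ 1 := fun s => by
    simp only [hF2]
    rw [div_le_one hNpos]
    exact hCg s
  have hXA : ∀ u, |X u * A u| ≤ 1 := fun u => by
    rw [abs_mul]
    have h5 : |X u| ≤ 1 := hP (Sum.inl u)
    have h6 : |A u| ≤ 1 := by rw [abs_of_nonneg (hA0 u)]; exact hA1 u
    exact mul_le_one₀ h5 (abs_nonneg _) h6
  have hYC : ∀ u, |Y u * C u| ≤ 1 := fun u => by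
    rw [abs_mul]
    have h5 : |Y u| ≤ 1 := hP (Sum.inr u)
    have h6 : |C u| ≤ 1 := by rw [abs_of_nonneg (hC0 u)]; exact hC1 u
    exact mul_le_one₀ h5 (abs_nonneg _) h6
  have bE1 : ∀ s, |E1 s| ≤ 1 := fun s => by
    simp only [hE1]
    rw [abs_div, abs_of_pos hNpos, div_le_one hNpos]
    refine (Finset.abs_sum_le_sum_abs _ _).trans (hsum1 _ fun u => ?_)
    rw [abs_mul, P2_sg_abs, mul_one]
    exact hXA u
  have bE2 : ∀ s, |E2 s| ≤ 1 := fun s => by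
    simp only [hE2]
    rw [abs_div, abs_of_pos hNpos, div_le_one hNpos]
    refine (Finset.abs_sum_le_sum_abs _ _).trans ?_
    calc ∑ u, |Y u * C u * gg s (Sum.inr u)| ≤ ∑ u, (1 + gg s (Sum.inr u) ^ 2) / 2 := by
          refine Finset.sum_le_sum fun u _ => ?_
          rw [abs_mul]
          have h7 : |gg s (Sum.inr u)| ≤ (1 + gg s (Sum.inr u) ^ 2) / 2 := by
            nlinarith [sq_nonneg (|gg s (Sum.inr u)| - 1), sq_abs (gg s (Sum.inr u))]
          calc |Y u * C u| * |gg s (Sum.inr u)| ≤ 1 * |gg s (Sum.inr u)| := by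
                gcongr
                exact hYC u
            _ ≤ _ := by linarith
      _ = (∑ _u : U κ, (1 : ℝ) + ∑ u, gg s (Sum.inr u) ^ 2) / 2 := by
          rw [← Finset.sum_div, Finset.sum_add_distrib]
      _ = N := by
          rw [hgsq s, Finset.sum_const, Finset.card_univ, nsmul_eq_mul, mul_one, hcardN]
          ring
      _ ≤ N := le_rfl
  have bR : ∀ s, R s ^ 2 ≤ 1 := fun s => by
    simp only [hR]
    rw [div_pow, div_le_one (by positivity)]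
    refine (Finset.sum_mul_sq_le_sq_mul_sq _ _ _).trans ?_
    have h8 : ∑ u, (A u * sg (s u)) ^ 2 ≤ N := hsum1 _ fun u => by
      rw [mul_pow, P2_sg_sq, mul_one]
      exact hA2 u
    have h9 : ∑ u, (∑ v, Hd u v * (C v * gg s (Sum.inr v))) ^ 2 ≤ N := by
      rw [hn (fun v => C v * gg s (Sum.inr v))]
      simp only [mul_pow]
      exact hCg s
    calc _ ≤ N * N := by
          gcongr
      _ = N ^ 2 := by ring
  -- second moments
  have mom : ∀ c : U κ → ℝ, ∑ u, c u ^ 2 ≤ N →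
      av (fun s : U κ → Bool => ((∑ u, c u * sg (s u)) / N) ^ 2) ≤ 1 / N ∧
      av (fun s : U κ → Bool => ((∑ u, c u * gg s (Sum.inr u)) / N) ^ 2) ≤ 1 / N := by
    intro c hc
    have e1 : ∀ x : ℝ, (x / N) ^ 2 = (1 / N ^ 2) * x ^ 2 := fun x => by
      rw [div_pow]
      ring
    have e2 : (1 / N ^ 2) * (∑ u, c u ^ 2) ≤ 1 / N := by
      calc (1 / N ^ 2) * (∑ u, c u ^ 2) ≤ (1 / N ^ 2) * N := by gcongr
        _ = 1 / N := by field_simp
    constructor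
    · simp only [e1]
      rw [P2_av_smul, lin1]
      exact e2
    · simp only [e1]
      rw [P2_av_smul, lin2]
      exact e2
  have hHY : ∑ u, (A u * ∑ v, Hd u v * Y v) ^ 2 ≤ N := by
    calc ∑ u, (A u * ∑ v, Hd u v * Y v) ^ 2 ≤ ∑ u, (∑ v, Hd u v * Y v) ^ 2 :=
          Finset.sum_le_sum fun u _ => by
            rw [mul_pow]
            nlinarith [hA2 u, sq_nonneg (∑ v, Hd u v * Y v)]
      _ = ∑ u, Y u ^ 2 := hn Y
      _ ≤ N := hsum1 _ hY2
  have hHX : ∑ u, (C u * ∑ v, Hd u v * X v) ^ 2 ≤ N := by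
    calc ∑ u, (C u * ∑ v, Hd u v * X v) ^ 2 ≤ ∑ u, (∑ v, Hd u v * X v) ^ 2 :=
          Finset.sum_le_sum fun u _ => by
            rw [mul_pow]
            nlinarith [hC2 u, sq_nonneg (∑ v, Hd u v * X v)]
      _ = ∑ u, X u ^ 2 := hn X
      _ ≤ N := hsum1 _ hX2
  have sqle : ∀ x : ℝ, |x| ≤ 1 → x ^ 2 ≤ 1 := fun x hx => by
    rw [← sq_abs]
    exact pow_le_one₀ (abs_nonneg _) hx
  have m1 : av (fun s => G1 s ^ 2) ≤ 1 / N := (mom _ hHY).1
  have m2 : av (fun s => G2 s ^ 2) ≤ 1 / N := (mom _ hHX).2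
  have m3 : av (fun s => E1 s ^ 2) ≤ 1 / N := (mom _ (hsum1 _ fun u => sqle _ (hXA u))).1
  have m4 : av (fun s => E2 s ^ 2) ≤ 1 / N := (mom _ (hsum1 _ fun u => sqle _ (hYC u))).2
  have ha1P0 : 0 ≤ a1 P := div_nonneg (Finset.sum_nonneg fun u _ => hA0 u) hNpos.le
  have ha1P1 : a1 P ≤ 1 := by
    unfold a1
    rw [div_le_one (by positivity)]
    exact hsum1 _ hA1
  have ha2P0 : 0 ≤ a2 P := div_nonneg (Finset.sum_nonneg fun u _ => hC0 u) hNpos.le
  have ha2P1 : a2 P ≤ 1 := by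
    unfold a2
    rw [div_le_one (by positivity)]
    exact hsum1 _ hC1
  have hpt : ∀ s, (Psi (step η P s) - Psi P) ^ 2 ≤
      6 * η ^ 2 * (G1 s ^ 2) + 6 * η ^ 2 * (G2 s ^ 2) + 12 * η ^ 2 * (E1 s ^ 2) +
        12 * η ^ 2 * (E2 s ^ 2) + 200 * η ^ 4 := by
    intro s
    have e := P2_alg (G1 := G1 s) (G2 := G2 s) h0 h1 ha1P0 ha1P1 ha2P0 ha2P1 (bE1 s) (bE2 s)
      bF1 bF1' (bF2 s) (bF2' s) (bR s)
    rw [← hSf s, ← ha1 s, ← ha2 s] at e
    have e2 : Psi (step η P s) - Psi P = (Sf (step η P s) - Sf P) +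
        (a1 P * (a2 (step η P s) - a2 P) + a2 P * (a1 (step η P s) - a1 P) +
          (a1 (step η P s) - a1 P) * (a2 (step η P s) - a2 P)) / 2 := by
      unfold Psi
      ring
    rw [e2]
    exact e
  refine (P2_av_mono hpt).trans ?_
  rw [P2_av_add, P2_av_add, P2_av_add, P2_av_add, P2_av_smul, P2_av_smul, P2_av_smul, P2_av_smul,
    P2_av_const]
  have hη : 0 ≤ η ^ 2 := sq_nonneg η
  have q1 := mul_le_mul_of_nonneg_left m1 (show 0 ≤ 6 * η ^ 2 by positivity)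
  have q2 := mul_le_mul_of_nonneg_left m2 (show 0 ≤ 6 * η ^ 2 by positivity)
  have q3 := mul_le_mul_of_nonneg_left m3 (show 0 ≤ 12 * η ^ 2 by positivity)
  have q4 := mul_le_mul_of_nonneg_left m4 (show 0 ≤ 12 * η ^ 2 by positivity)
  have q5 : 0 ≤ η ^ 2 * (1 / N) := by positivity
  have q6 : 40 * η ^ 2 / N = 40 * (η ^ 2 * (1 / N)) := by ring
  rw [q6]
  nlinarith

end Pool.Agent.H516R2.EQP
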