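import Pool.Agent.H516R2.EQP.Props

/-!
# Size of the steps
-/

namespace Pool.Agent.H516R2.EQP

open Pool.Agent.NPC Pool.Agent.H620R2.Gauge Finset H568R2 Pool.Agent.H676

/-- the bilinear form of `Hd` is bounded -/
lemma P3_bil (hB : St_B) {κ : ℕ} (f g : U κ → ℝ) (hf : ∑ u, f u ^ 2 ≤ 4 ^ κ)
    (hg : ∑ u, g u ^ 2 ≤ 4 ^ κ) : |∑ u, ∑ v, f u * Hd u v * g v| ≤ 4 ^ κ := by
  obtain ⟨h1, h2, h3, h4, h5, h6, h7, h8, h9, h10⟩ := hB κ
  have e1 : ∑ u, ∑ v, f u * Hd u v * g v = ∑ u, f u * (∑ v, Hd u v * g v) := by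
    refine Finset.sum_congr rfl fun u _ => ?_
    rw [Finset.mul_sum]
    exact Finset.sum_congr rfl fun v _ => by ring
  rw [e1]
  have e2 := Finset.sum_mul_sq_le_sq_mul_sq univ f (fun u => ∑ v, Hd u v * g v)
  have e3 := h4 g
  have e4 : (∑ u, f u * (∑ v, Hd u v * g v)) ^ 2 ≤ ((4 : ℝ) ^ κ) ^ 2 := by
    refine e2.trans ?_
    rw [e3, sq]
    exact mul_le_mul hf hg (Finset.sum_nonneg fun _ _ => sq_nonneg _) (by positivity)
  exact abs_le_of_sq_le_sq e4 (by positivity)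

lemma P3_gg (hB : St_B) {κ : ℕ} (s : U κ → Bool) (i : U κ ⊕ U κ) : |gg s i| ≤ 2 ^ κ := by
  obtain ⟨h1, h2, h3, h4, h5, h6, h7, h8, h9, h10⟩ := hB κ
  have key : gg s i ^ 2 ≤ ((2 : ℝ) ^ κ) ^ 2 := by
    have e : ((2 : ℝ) ^ κ) ^ 2 = 4 ^ κ := by rw [← pow_mul, mul_comm, pow_mul]; norm_num
    rw [e]
    cases i with
    | inl u =>
      rw [← (h8 s).1]
      exact Finset.single_le_sum (f := fun u => gg s (Sum.inl u) ^ 2)
        (fun _ _ => sq_nonneg _) (Finset.mem_univ u)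
    | inr u =>
      rw [← (h8 s).2]
      exact Finset.single_le_sum (f := fun u => gg s (Sum.inr u) ^ 2)
        (fun _ _ => sq_nonneg _) (Finset.mem_univ u)
  exact abs_le_of_sq_le_sq key (by positivity)

theorem P3 (hB : St_B) : St_P3 := by
  intro κ η P s h0 h1 hP
  have hP2 : ∀ i, P i ^ 2 ≤ 1 := fun i => by
    have := hP i
    rw [← sq_abs]
    exact pow_le_one₀ (abs_nonneg _) this
  have h2k : (1 : ℝ) ≤ 2 ^ κ := one_le_pow₀ (by norm_num)
  have hη : η ≤ 1 := by nlinarith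
  refine ⟨fun i => ?_, ?_⟩
  · unfold step
    have hg := P3_gg hB s i
    have hx := hP i
    have hx0 := abs_nonneg (P i)
    have e1 : |P i + η * (1 - P i ^ 2) * gg s i| ≤ |P i| + η * (1 - P i ^ 2) * |gg s i| := by
      refine (abs_add_le _ _).trans ?_
      rw [abs_mul, abs_mul, abs_of_nonneg h0, abs_of_nonneg (by linarith [hP2 i] : 0 ≤ 1 - P i ^ 2)]
    have e2 : 1 - P i ^ 2 = (1 - |P i|) * (1 + |P i|) := by
      rw [← sq_abs]; ring
    have e3 : η * (1 - P i ^ 2) * |gg s i| ≤ (1 - |P i|) * (2 * η * 2 ^ κ) := by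
      rw [e2]
      have a1 : 0 ≤ 1 - |P i| := by linarith
      have a2 : (1 + |P i|) * |gg s i| ≤ 2 * 2 ^ κ :=
        mul_le_mul (by linarith) hg (abs_nonneg _) (by norm_num)
      calc η * ((1 - |P i|) * (1 + |P i|)) * |gg s i|
          = (η * (1 - |P i|)) * ((1 + |P i|) * |gg s i|) := by ring
        _ ≤ (η * (1 - |P i|)) * (2 * 2 ^ κ) := mul_le_mul_of_nonneg_left a2 (by positivity)
        _ = (1 - |P i|) * (2 * η * 2 ^ κ) := by ring
    have e4 : (1 - |P i|) * (2 * η * 2 ^ κ) ≤ (1 - |P i|) * 1 :=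
      mul_le_mul_of_nonneg_left h1 (by linarith)
    linarith
  · obtain ⟨-, -, -, -, -, -, -, h8, h9, -⟩ := hB κ
    have hN : (0 : ℝ) < 4 ^ κ := by positivity
    set X : U κ → ℝ := fun u => P (Sum.inl u) with hX
    set Y : U κ → ℝ := fun u => P (Sum.inr u) with hY
    set A : U κ → ℝ := fun u => (1 - P (Sum.inl u) ^ 2) * gg s (Sum.inl u) with hA
    set C : U κ → ℝ := fun u => (1 - P (Sum.inr u) ^ 2) * gg s (Sum.inr u) with hC
    have hcard : ∑ _u : U κ, (1 : ℝ) = 4 ^ κ := by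
      rw [Finset.sum_const, Finset.card_univ, h9]; simp
    have bX : ∑ u, X u ^ 2 ≤ 4 ^ κ := by
      rw [← hcard]; exact Finset.sum_le_sum fun u _ => hP2 _
    have bY : ∑ u, Y u ^ 2 ≤ 4 ^ κ := by
      rw [← hcard]; exact Finset.sum_le_sum fun u _ => hP2 _
    have hsq : ∀ x g : ℝ, 0 ≤ x → x ≤ 1 → ((1 - x) * g) ^ 2 ≤ g ^ 2 := by
      intro x g h0 h1
      rw [mul_pow]
      have : (1 - x) ^ 2 ≤ 1 := pow_le_one₀ (by linarith) (by linarith)
      nlinarith [sq_nonneg g]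
    have bA : ∑ u, A u ^ 2 ≤ 4 ^ κ := by
      rw [← (h8 s).1]
      exact Finset.sum_le_sum fun u _ => hsq _ _ (sq_nonneg _) (hP2 _)
    have bC : ∑ u, C u ^ 2 ≤ 4 ^ κ := by
      rw [← (h8 s).2]
      exact Finset.sum_le_sum fun u _ => hsq _ _ (sq_nonneg _) (hP2 _)
    have eq : Sf (step η P s) - Sf P = (η * (∑ u, ∑ v, A u * Hd u v * Y v) +
        η * (∑ u, ∑ v, X u * Hd u v * C v) + η ^ 2 * (∑ u, ∑ v, A u * Hd u v * C v)) / 4 ^ κ := by
      unfold Sf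
      rw [← sub_div]
      congr 1
      simp only [Finset.mul_sum, ← Finset.sum_sub_distrib, ← Finset.sum_add_distrib]
      refine Finset.sum_congr rfl fun u _ => Finset.sum_congr rfl fun v _ => ?_
      simp only [step, hX, hY, hA, hC]
      ring
    rw [eq, abs_div, abs_of_pos hN, div_le_iff₀ hN]
    have t1 := P3_bil hB A Y bA bY
    have t2 := P3_bil hB X C bX bC
    have t3 := P3_bil hB A C bA bC
    refine (abs_add_three _ _ _).trans ?_
    rw [abs_mul, abs_mul, abs_mul, abs_of_nonneg h0, abs_of_nonneg (sq_nonneg η)]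
    have u1 := mul_le_mul_of_nonneg_left t1 h0
    have u2 := mul_le_mul_of_nonneg_left t2 h0
    have u3 := mul_le_mul_of_nonneg_left t3 (sq_nonneg η)
    have u4 : η ^ 2 * (4 : ℝ) ^ κ ≤ η * 4 ^ κ :=
      mul_le_mul_of_nonneg_right (by nlinarith) hN.le
    linarith

end Pool.Agent.H516R2.EQP
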