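import Pool.Agent.H516R2.EQP.Props

/-!
# Task P4: potentials along the walk (helper989)
-/

namespace Pool.Agent.H516R2.EQP

open Pool.Agent.NPC Pool.Agent.H620R2.Gauge Finset H568R2 Pool.Agent.H676

theorem P4_av_mono {I : Type*} [Fintype I] [DecidableEq I] {f g : (I → Bool) → ℝ} (h : ∀ x, f x ≤ g x) :
    av f ≤ av g := by
  unfold av
  exact div_le_div_of_nonneg_right (Finset.sum_le_sum fun x _ => h x) (by positivity)

theorem P4_av_lin {I : Type*} [Fintype I] [DecidableEq I] (a b : ℝ) (f : (I → Bool) → ℝ) :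
    av (fun x => a * f x + b) = a * av f + b := by
  unfold av
  rw [Finset.sum_add_distrib, ← Finset.mul_sum, Finset.sum_const, Finset.card_univ,
    Fintype.card_fun, Fintype.card_bool, nsmul_eq_mul]
  push_cast
  field_simp

theorem P4_av_lin2 {I : Type*} [Fintype I] [DecidableEq I] (a b : ℝ) (f g : (I → Bool) → ℝ) :
    av (fun x => a * f x + g x + b) = a * av f + av g + b := by
  unfold av
  rw [Finset.sum_add_distrib, Finset.sum_add_distrib, ← Finset.mul_sum, Finset.sum_const,
    Finset.card_univ, Fintype.card_fun, Fintype.card_bool, nsmul_eq_mul]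
  push_cast
  field_simp

theorem P4_step {κ : ℕ} {η : ℝ} {P : U κ ⊕ U κ → ℝ} {e1 e2 : ℝ} (he1 : 0 ≤ e1) (he2 : 0 ≤ e2)
    (h1 : Psi P - e1 ≤ av (fun s => Psi (step η P s)))
    (h2 : av (fun s => (Psi (step η P s) - Psi P) ^ 2) ≤ e2) (c : ℝ) :
    av (fun s => max 0 (c - Psi (step η P s)) ^ 2) ≤ max 0 (c + e1 - Psi P) ^ 2 + e2 := by
  by_cases hA : 0 ≤ c - Psi P
  · have hpt : ∀ s, max 0 (c - Psi (step η P s)) ^ 2 ≤
        (-2 * (c - Psi P)) * Psi (step η P s) + (Psi (step η P s) - Psi P) ^ 2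
          + ((c - Psi P) ^ 2 + 2 * (c - Psi P) * Psi P) := by
      intro s
      have h3 : max 0 (c - Psi (step η P s)) ^ 2 ≤ (c - Psi (step η P s)) ^ 2 := by
        rcases le_total 0 (c - Psi (step η P s)) with h | h
        · rw [max_eq_right h]
        · rw [max_eq_left h]; nlinarith [sq_nonneg (c - Psi (step η P s))]
      nlinarith [h3]
    refine (P4_av_mono hpt).trans ?_
    rw [P4_av_lin2]
    have h4 : max 0 (c + e1 - Psi P) = c + e1 - Psi P := max_eq_right (by linarith)
    rw [h4]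
    nlinarith [mul_le_mul_of_nonneg_left h1 hA, mul_nonneg he1 he1]
  · push Not at hA
    have hpt : ∀ s, max 0 (c - Psi (step η P s)) ^ 2 ≤ (Psi (step η P s) - Psi P) ^ 2 := by
      intro s
      rcases le_total 0 (c - Psi (step η P s)) with h | h
      · rw [max_eq_right h]
        nlinarith
      · rw [max_eq_left h]
        nlinarith [sq_nonneg (Psi (step η P s) - Psi P)]
    refine (P4_av_mono hpt).trans (h2.trans ?_)
    have : 0 ≤ max 0 (c + e1 - Psi P) ^ 2 := sq_nonneg _
    linarith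

theorem P4 (h1 : St_P1) (h2 : St_P2) (h3 : St_P3) : St_P4 := by
  intro κ η P k hη hη2 hP
  have h2κ : (1 : ℝ) ≤ 2 ^ κ := one_le_pow₀ (by norm_num)
  have hη1 : η ≤ 1 := by nlinarith
  have he1 : 0 ≤ 2 * η ^ 2 / 4 ^ κ := by positivity
  have he2 : 0 ≤ 40 * η ^ 2 / 4 ^ κ + 200 * η ^ 4 := by positivity
  constructor
  · intro c
    induction k generalizing P c with
    | zero => simp [EE]
    | succ k ih =>
      have hs : ∀ s, Box (step η P s) := fun s => (h3 κ η P s hη hη2 hP).1
      have e : EE η (fun P => max 0 (c - Psi P) ^ 2) (k + 1) P =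
          av (fun s => EE η (fun P => max 0 (c - Psi P) ^ 2) k (step η P s)) := rfl
      rw [e]
      have hpt : ∀ s, EE η (fun P => max 0 (c - Psi P) ^ 2) k (step η P s) ≤
          1 * max 0 (c + k * (2 * η ^ 2 / 4 ^ κ) - Psi (step η P s)) ^ 2
            + k * (40 * η ^ 2 / 4 ^ κ + 200 * η ^ 4) := by
        intro s
        rw [one_mul]
        exact ih (step η P s) (hs s) c
      refine (P4_av_mono hpt).trans ?_
      rw [P4_av_lin]
      have h4 := P4_step he1 he2 (h1 κ η P hη hP).2.1 (h2 κ η P hη hη1 hP)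
        (c + k * (2 * η ^ 2 / 4 ^ κ))
      have e2 : c + k * (2 * η ^ 2 / 4 ^ κ) + 2 * η ^ 2 / 4 ^ κ
          = c + ((k + 1 : ℕ) : ℝ) * (2 * η ^ 2 / 4 ^ κ) := by push_cast; ring
      rw [e2] at h4
      push_cast at h4 ⊢
      linarith
  · intro l hl hl2
    induction k generalizing P with
    | zero => simp [EE]
    | succ k ih =>
      have hs : ∀ s, Box (step η P s) := fun s => (h3 κ η P s hη hη2 hP).1
      have e : EE η a1 (k + 1) P = av (fun s => EE η a1 k (step η P s)) := rfl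
      rw [e]
      have hpt : ∀ s, EE η a1 k (step η P s) ≤
          (1 - 2 * l * η ^ 2) ^ k * a1 (step η P s) + l / 2 * (1 - (1 - 2 * l * η ^ 2) ^ k) :=
        fun s => ih (step η P s) (hs s)
      refine (P4_av_mono hpt).trans ?_
      rw [P4_av_lin]
      have h4 := (h1 κ η P hη hP).2.2
      have hr : 0 ≤ (1 - 2 * l * η ^ 2) ^ k := pow_nonneg (by linarith) k
      have h5 : av (fun s => a1 (step η P s)) ≤ (1 - 2 * l * η ^ 2) * a1 P + η ^ 2 * l ^ 2 := by
        nlinarith [mul_nonneg (sq_nonneg η) (sq_nonneg (a1 P - l))]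
      have h6 := mul_le_mul_of_nonneg_left h5 hr
      have e2 : (1 - 2 * l * η ^ 2) ^ (k + 1) = (1 - 2 * l * η ^ 2) ^ k * (1 - 2 * l * η ^ 2) :=
        pow_succ _ _
      rw [e2]
      nlinarith [h6]

end Pool.Agent.H516R2.EQP
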