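import Pool.Agent.H516R2.EQP.Props

/-!
The stopped walk ends at forrelation `2/5`.
-/

namespace Pool.Agent.H516R2.EQP

open Pool.Agent.NPC Pool.Agent.H620R2.Gauge Finset H568R2 Pool.Agent.H676

section

variable {κ : ℕ}

lemma P5_av_mono {f g : (U κ → Bool) → ℝ} (h : ∀ x, f x ≤ g x) : av f ≤ av g := by
  unfold av
  apply div_le_div_of_nonneg_right _ (by positivity)
  exact Finset.sum_le_sum fun x _ => h x

lemma P5_av_add (f g : (U κ → Bool) → ℝ) : av (fun x => f x + g x) = av f + av g := by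
  unfold av
  rw [Finset.sum_add_distrib, add_div]

lemma P5_av_smul (c : ℝ) (f : (U κ → Bool) → ℝ) : av (fun x => c * f x) = c * av f := by
  unfold av
  rw [← Finset.mul_sum, mul_div_assoc]

lemma P5_av_const (c : ℝ) : av (fun _ : U κ → Bool => c) = c := by
  unfold av
  have h : (Fintype.card (U κ → Bool) : ℝ) = 2 ^ Fintype.card (U κ) := by
    rw [Fintype.card_fun, Fintype.card_bool]; push_cast; rfl
  rw [Finset.sum_const, nsmul_eq_mul, Finset.card_univ, h]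
  field_simp

lemma P5_av_nonneg {f : (U κ → Bool) → ℝ} (h : ∀ x, 0 ≤ f x) : 0 ≤ av f := by
  have := P5_av_mono (f := fun _ => 0) (g := f) h
  rwa [P5_av_const] at this

lemma P5_EE_add (η : ℝ) (φ ψ : (U κ ⊕ U κ → ℝ) → ℝ) (k : ℕ) :
    ∀ P, EE η (fun P => φ P + ψ P) k P = EE η φ k P + EE η ψ k P := by
  induction k with
  | zero => intro P; rfl
  | succ k ih =>
    intro P
    simp only [EE]
    rw [← P5_av_add]
    congr 1
    funext s
    exact ih _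

lemma P5_EE_smul (η : ℝ) (c : ℝ) (φ : (U κ ⊕ U κ → ℝ) → ℝ) (k : ℕ) :
    ∀ P, EE η (fun P => c * φ P) k P = c * EE η φ k P := by
  induction k with
  | zero => intro P; rfl
  | succ k ih =>
    intro P
    simp only [EE]
    rw [← P5_av_smul]
    congr 1
    funext s
    exact ih _

lemma P5_EE_nonneg (η : ℝ) {φ : (U κ ⊕ U κ → ℝ) → ℝ} (h : ∀ P, 0 ≤ φ P) (k : ℕ) :
    ∀ P, 0 ≤ EE η φ k P := by
  induction k with
  | zero => intro P; exact h P
  | succ k ih =>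
    intro P
    simp only [EE]
    exact P5_av_nonneg fun s => ih _

lemma P5_EE_mono (h3 : St_P3) {η : ℝ} (h0 : 0 ≤ η) (h1 : 2 * η * 2 ^ κ ≤ 1)
    {φ ψ : (U κ ⊕ U κ → ℝ) → ℝ} (h : ∀ P, Box P → φ P ≤ ψ P) (k : ℕ) :
    ∀ P, Box P → EE η φ k P ≤ EE η ψ k P := by
  induction k with
  | zero => intro P hP; exact h P hP
  | succ k ih =>
    intro P hP
    simp only [EE]
    exact P5_av_mono fun s => ih _ (h3 κ η P s h0 h1 hP).1

lemma P5_ES_add (η : ℝ) (φ ψ : (U κ ⊕ U κ → ℝ) → ℝ) (k : ℕ) :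
    ∀ P, ES η (fun P => φ P + ψ P) k P = ES η φ k P + ES η ψ k P := by
  induction k with
  | zero => intro P; rfl
  | succ k ih =>
    intro P
    simp only [ES]
    split_ifs with h
    · rfl
    · rw [← P5_av_add]
      congr 1
      funext s
      exact ih _

lemma P5_ES_one (η : ℝ) (k : ℕ) :
    ∀ P : U κ ⊕ U κ → ℝ, ES η (fun _ => (1 : ℝ)) k P = 1 := by
  induction k with
  | zero => intro P; rfl
  | succ k ih =>
    intro P
    simp only [ES]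
    split_ifs with h
    · rfl
    · simp only [ih]
      exact P5_av_const 1

lemma P5_ES_le_EE (η : ℝ) {φ : (U κ ⊕ U κ → ℝ) → ℝ} (h : ∀ P, 0 ≤ φ P)
    (h' : ∀ P, 2 / 5 ≤ Sf P → φ P = 0) (k : ℕ) :
    ∀ P, ES η φ k P ≤ EE η φ k P := by
  induction k with
  | zero => intro P; exact le_rfl
  | succ k ih =>
    intro P
    simp only [ES]
    split_ifs with hs
    · rw [h' P hs]
      exact P5_EE_nonneg η h (k + 1) P
    · simp only [EE]
      exact P5_av_mono fun s => ih _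

lemma P5_ES_zero (h3 : St_P3) {η : ℝ} (h0 : 0 ≤ η) (h1 : 2 * η * 2 ^ κ ≤ 1)
    {φ : (U κ ⊕ U κ → ℝ) → ℝ} (h : ∀ P, Sf P ≤ 2 / 5 + 3 * η → φ P = 0) (k : ℕ) :
    ∀ P, Box P → Sf P ≤ 2 / 5 + 3 * η → ES η φ k P = 0 := by
  induction k with
  | zero => intro P _ hS; exact h P hS
  | succ k ih =>
    intro P hP hS
    simp only [ES]
    split_ifs with hs
    · exact h P hS
    · have : (fun s => ES η φ k (step η P s)) = fun _ => 0 := by
        funext s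
        obtain ⟨hb, hj⟩ := h3 κ η P s h0 h1 hP
        apply ih _ hb
        have := (abs_le.mp hj).2
        push Not at hs
        linarith
      rw [this]
      exact P5_av_const 0

lemma P5_card : (Fintype.card (U κ) : ℝ) = 4 ^ κ := by
  have : Fintype.card (U κ) = 4 ^ κ := by
    simp [U]
  rw [this]; push_cast; rfl

lemma P5_a_bounds (Q : U κ → ℝ) (h : ∀ u, |Q u| ≤ 1) :
    0 ≤ (∑ u, (1 - Q u ^ 2)) / 4 ^ κ ∧ (∑ u, (1 - Q u ^ 2)) / 4 ^ κ ≤ 1 := by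
  have hsq : ∀ u, Q u ^ 2 ≤ 1 := fun u => by
    have h1 := h u
    rw [← sq_abs]
    exact pow_le_one₀ (abs_nonneg _) h1
  constructor
  · apply div_nonneg _ (by positivity)
    exact Finset.sum_nonneg fun u _ => by linarith [hsq u]
  · rw [div_le_one (by positivity)]
    calc ∑ u, (1 - Q u ^ 2) ≤ ∑ _u : U κ, (1 : ℝ) :=
          Finset.sum_le_sum fun u _ => by nlinarith [sq_nonneg (Q u)]
      _ = 4 ^ κ := by rw [Finset.sum_const, nsmul_eq_mul, Finset.card_univ, P5_card, mul_one]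

lemma P5_a1_bounds {P : U κ ⊕ U κ → ℝ} (h : Box P) : 0 ≤ a1 P ∧ a1 P ≤ 1 :=
  P5_a_bounds (fun u => P (Sum.inl u)) fun _ => h _

lemma P5_a2_bounds {P : U κ ⊕ U κ → ℝ} (h : Box P) : 0 ≤ a2 P ∧ a2 P ≤ 1 :=
  P5_a_bounds (fun u => P (Sum.inr u)) fun _ => h _

lemma P5_zero : Sf (fun _ : U κ ⊕ U κ => (0 : ℝ)) = 0 ∧ a1 (fun _ : U κ ⊕ U κ => (0 : ℝ)) = 1 ∧
    a2 (fun _ : U κ ⊕ U κ => (0 : ℝ)) = 1 := by
  have h4 : (4 : ℝ) ^ κ ≠ 0 := by positivity
  refine ⟨by simp [Sf], ?_, ?_⟩ <;>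
  · simp only [a1, a2]
    rw [show (∑ _u : U κ, (1 - (0 : ℝ) ^ 2)) = 4 ^ κ by
      rw [Finset.sum_const, nsmul_eq_mul, Finset.card_univ, P5_card]; ring]
    exact div_self h4

end

open Classical in
theorem P5 (h3 : St_P3) (h4 : St_P4) : St_P5 := by
  intro κ hκ
  have hη0 : 0 ≤ et κ := by unfold et; positivity
  have h256 : (0 : ℝ) < 256 ^ κ := by positivity
  have hη1 : 2 * et κ * 2 ^ κ ≤ 1 := by
    unfold et
    rw [show 2 * (1 / (256 : ℝ) ^ κ) * 2 ^ κ = 2 * 2 ^ κ / 256 ^ κ by ring, div_le_one h256]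
    calc (2 : ℝ) * 2 ^ κ = 2 ^ (κ + 1) := by ring
      _ ≤ 2 ^ (8 * κ) := pow_le_pow_right₀ (by norm_num) (by omega)
      _ = 256 ^ κ := by rw [pow_mul]; norm_num
  have hη2 : et κ ^ 2 = 1 / 65536 ^ κ := by
    unfold et
    rw [div_pow, one_pow, ← pow_mul, mul_comm κ 2, pow_mul]
    norm_num
  have hT : (TT κ : ℝ) * et κ ^ 2 = 300 := by
    rw [hη2]; unfold TT; push_cast; field_simp
  have hBox : Box (fun _ : U κ ⊕ U κ => (0 : ℝ)) := fun i => by simp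
  obtain ⟨hz1, hz2, hz3⟩ := P5_zero (κ := κ)
  -- big numbers
  have h4k : (4 : ℝ) ^ 20 ≤ 4 ^ κ := pow_le_pow_right₀ (by norm_num) hκ
  have h65k : (65536 : ℝ) ^ 20 ≤ 65536 ^ κ := pow_le_pow_right₀ (by norm_num) hκ
  have h4pos : (0 : ℝ) < 4 ^ κ := by positivity
  have h4inv : 1 / (4 : ℝ) ^ κ ≤ 1 / 4 ^ 20 := one_div_le_one_div_of_le (by positivity) h4k
  have h65inv : 1 / (65536 : ℝ) ^ κ ≤ 1 / 65536 ^ 20 :=
    one_div_le_one_div_of_le (by positivity) h65k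
  have h4inv0 : 0 ≤ 1 / (4 : ℝ) ^ κ := by positivity
  have h65inv0 : 0 ≤ 1 / (65536 : ℝ) ^ κ := by positivity
  -- the potentials
  obtain ⟨hpot, hpota⟩ := h4 κ (et κ) (fun _ => 0) (TT κ) hη0 hη1 hBox
  have hp1 := hpot (495 / 1000)
  have hP0 : Psi (fun _ : U κ ⊕ U κ => (0 : ℝ)) = 1 / 2 := by
    rw [Psi, hz1, hz2, hz3]; norm_num
  have e1 : (TT κ : ℝ) * (2 * et κ ^ 2 / 4 ^ κ) = 600 * (1 / 4 ^ κ) := by
    rw [show (TT κ : ℝ) * (2 * et κ ^ 2 / 4 ^ κ) = 2 * ((TT κ : ℝ) * et κ ^ 2) * (1 / 4 ^ κ) by ring,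
      hT]; ring
  have e2 : (TT κ : ℝ) * (40 * et κ ^ 2 / 4 ^ κ + 200 * et κ ^ 4) =
      12000 * (1 / 4 ^ κ) + 60000 * (1 / 65536 ^ κ) := by
    rw [show (TT κ : ℝ) * (40 * et κ ^ 2 / 4 ^ κ + 200 * et κ ^ 4) =
      40 * ((TT κ : ℝ) * et κ ^ 2) * (1 / 4 ^ κ) + 200 * ((TT κ : ℝ) * et κ ^ 2) * et κ ^ 2 by ring,
      hT, hη2]; ring
  rw [e1, e2, hP0] at hp1
  have hm : max 0 ((495 : ℝ) / 1000 + 600 * (1 / 4 ^ κ) - 1 / 2) = 0 := by
    apply max_eq_left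
    norm_num at h4inv ⊢
    linarith
  rw [hm] at hp1
  have hp2 := hpota (1 / 100) (by norm_num) (by
    rw [hη2]
    have : 1 / (65536 : ℝ) ^ κ ≤ 1 := by
      rw [div_le_one (by positivity)]; exact one_le_pow₀ (by norm_num)
    linarith)
  rw [hz2] at hp2
  have hr0 : 0 ≤ 1 - 2 * (1 / 100 : ℝ) * et κ ^ 2 := by
    rw [hη2]
    have : 1 / (65536 : ℝ) ^ κ ≤ 1 := by
      rw [div_le_one (by positivity)]; exact one_le_pow₀ (by norm_num)
    linarith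
  have hrT : (1 - 2 * (1 / 100 : ℝ) * et κ ^ 2) ^ TT κ ≤ 1 / 400 := by
    have h1 : (1 - 2 * (1 / 100 : ℝ) * et κ ^ 2) ≤ Real.exp (-(2 * (1 / 100) * et κ ^ 2)) := by
      have := Real.add_one_le_exp (-(2 * (1 / 100) * et κ ^ 2))
      linarith
    calc (1 - 2 * (1 / 100 : ℝ) * et κ ^ 2) ^ TT κ
        ≤ Real.exp (-(2 * (1 / 100) * et κ ^ 2)) ^ TT κ := pow_le_pow_left₀ hr0 h1 _
      _ = Real.exp (-6) := by
          rw [← Real.exp_nat_mul]
          congr 1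
          linear_combination (-(2 / 100 : ℝ)) * hT
      _ ≤ 1 / 400 := by
          rw [Real.exp_neg, ← one_div]
          apply one_div_le_one_div_of_le (by norm_num)
          have h2 : (2.7182818283 : ℝ) < Real.exp 1 := Real.exp_one_gt_d9
          have h3 : Real.exp 6 = Real.exp 1 ^ 6 := by
            rw [← Real.exp_nat_mul]; norm_num
          rw [h3]
          calc (400 : ℝ) ≤ 2.7182818283 ^ 6 := by norm_num
            _ ≤ Real.exp 1 ^ 6 := pow_le_pow_left₀ (by norm_num) h2.le _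
  have hrT0 : 0 ≤ (1 - 2 * (1 / 100 : ℝ) * et κ ^ 2) ^ TT κ := pow_nonneg hr0 _
  -- the indicator functions
  set φ1 : (U κ ⊕ U κ → ℝ) → ℝ := fun P =>
    if 2 / 5 ≤ Sf P ∧ Sf P ≤ 2 / 5 + 3 * et κ then (1 : ℝ) else 0 with hφ1
  set φ2 : (U κ ⊕ U κ → ℝ) → ℝ := fun P => if Sf P < 2 / 5 then (1 : ℝ) else 0 with hφ2
  set φ3 : (U κ ⊕ U κ → ℝ) → ℝ := fun P => if 2 / 5 + 3 * et κ < Sf P then (1 : ℝ) else 0 with hφ3
  have hsum : (fun _ : U κ ⊕ U κ → ℝ => (1 : ℝ)) = fun P => (φ1 P + φ2 P) + φ3 P := by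
    funext P
    simp only [hφ1, hφ2, hφ3]
    rcases lt_or_ge (Sf P) (2 / 5) with h | h
    · have h' : ¬ (2 / 5 ≤ Sf P) := not_le.mpr h
      have h'' : ¬ (2 / 5 + 3 * et κ < Sf P) := by linarith
      simp [h, h', h'']
    · rcases lt_or_ge (2 / 5 + 3 * et κ) (Sf P) with h2 | h2
      · have h' : ¬ (Sf P ≤ 2 / 5 + 3 * et κ) := not_le.mpr h2
        simp [h, h', h2, not_lt.mpr h]
      · simp [h, h2, not_lt.mpr h, not_lt.mpr h2]
  have hone := P5_ES_one (et κ) (TT κ) (fun _ : U κ ⊕ U κ => (0 : ℝ))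
  rw [hsum, P5_ES_add, P5_ES_add] at hone
  have hz : ES (et κ) φ3 (TT κ) (fun _ => 0) = 0 := by
    apply P5_ES_zero h3 hη0 hη1 _ _ _ hBox
    · rw [hz1]; linarith
    · intro P hP
      simp only [hφ3]
      rw [if_neg (not_lt.mpr hP)]
  have h2le : ES (et κ) φ2 (TT κ) (fun _ => 0) ≤ EE (et κ) φ2 (TT κ) (fun _ => 0) := by
    apply P5_ES_le_EE
    · intro P; simp only [hφ2]; split_ifs <;> norm_num
    · intro P hP; simp only [hφ2]; rw [if_neg (not_lt.mpr hP)]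
  have hEE : EE (et κ) φ2 (TT κ) (fun _ => 0) ≤
      40000 * EE (et κ) (fun P : U κ ⊕ U κ → ℝ => max 0 (495 / 1000 - Psi P) ^ 2) (TT κ)
        (fun _ => 0) + (100 / 18) * EE (et κ) a1 (TT κ) (fun _ : U κ ⊕ U κ => (0 : ℝ)) := by
    rw [← P5_EE_smul, ← P5_EE_smul, ← P5_EE_add]
    apply P5_EE_mono h3 hη0 hη1 _ _ _ hBox
    intro P hP
    obtain ⟨ha0, ha1⟩ := P5_a1_bounds hP
    obtain ⟨hb0, hb1⟩ := P5_a2_bounds hP
    simp only [hφ2]
    split_ifs with hS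
    · rcases lt_or_ge (Psi P) (49 / 100) with h | h
      · have h5 : (5 / 1000 : ℝ) ≤ max 0 (495 / 1000 - Psi P) :=
          le_max_of_le_right (by linarith)
        have h6 : (5 / 1000 : ℝ) ^ 2 ≤ max 0 (495 / 1000 - Psi P) ^ 2 :=
          pow_le_pow_left₀ (by norm_num) h5 2
        norm_num at h6
        linarith
      · have h5 : a1 P * a2 P ≤ a1 P := by nlinarith
        have h6 : Psi P = Sf P + a1 P * a2 P / 2 := rfl
        have h7 : 0 ≤ max 0 (495 / 1000 - Psi P) ^ 2 := by positivity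
        linarith
    · have h7 : 0 ≤ max 0 (495 / 1000 - Psi P) ^ 2 := by positivity
      positivity
  have hfin1 : 40000 * EE (et κ) (fun P : U κ ⊕ U κ → ℝ => max 0 (495 / 1000 - Psi P) ^ 2)
      (TT κ) (fun _ => 0) ≤ 1 / 1000 := by
    norm_num at h4inv h65inv hp1 ⊢
    linarith
  norm_num at hp2
  have hlast : EE (et κ) a1 (TT κ) (fun _ : U κ ⊕ U κ => (0 : ℝ)) ≤ 3 / 400 := by
    norm_num at hrT hrT0
    linarith
  linarith

end Pool.Agent.H516R2.EQP
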