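import Pool.Agent.H516R2.EQP.Props

/-!
# Task QC: the circuits are computable in polynomial time (helper989)
-/

namespace Pool.Agent.H516R2.EQP

open Pool.Agent.NPC Pool.Agent.H620R2.Gauge Finset H568R2 Pool.Agent.H676

theorem QC_len : UPoly (fun x : List Bool => x.length) := UPoly.length NPC.Poly.id

theorem QC_idx : NPC.Poly (fun x : List Bool => idxQ x.length) := by
  unfold idxQ
  have h : UPoly (fun x : List Bool => 3 + 3 * x.length) :=
    UPoly.add (UPoly.const 3) (UPoly.mul (UPoly.const 3) QC_len)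
  exact NPC.Poly.map (F := fun _ i => i + 3) h.range
    (NPC.Poly.add (NPC.Poly.snd NPC.Poly.id) (NPC.Poly.const 3))

theorem QC_mid : NPC.Poly (fun x : List Bool => midQ x.length) := by
  unfold midQ
  have h : UPoly (fun x : List Bool => 2 * x.length) := UPoly.mul (UPoly.const 2) QC_len
  exact NPC.Poly.map (F := fun (x : List Bool) i => i + (6 + x.length)) h.range
    (NPC.Poly.add (NPC.Poly.snd NPC.Poly.id) (NPC.Poly.add (NPC.Poly.const 6)
      (NPC.Poly.length (NPC.Poly.fst NPC.Poly.id))))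

theorem QC_had {l : List Bool → List ℕ} (hl : NPC.Poly l) : NPC.Poly (fun x => (l x).map had) :=
  NPC.Poly.map (F := fun (_ : List Bool) i => had i) hl
    (NPC.Poly.inl (NPC.Poly.snd NPC.Poly.id))

theorem QC_nt {l : List Bool → List ℕ} (hl : NPC.Poly l) : NPC.Poly (fun x => (l x).map nt) :=
  NPC.Poly.map (F := fun (_ : List Bool) i => nt i) hl
    (NPC.Poly.inr (NPC.Poly.pair (NPC.Poly.const false) (NPC.Poly.pair (NPC.Poly.const ([] : List ℕ))
      (NPC.Poly.snd NPC.Poly.id))))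

theorem QC_gate (b : Bool) {l : List Bool → List ℕ} (hl : NPC.Poly l) (k : ℕ) :
    NPC.Poly (fun x => (Sum.inr (b, l x, k) : Gate)) :=
  NPC.Poly.inr (NPC.Poly.pair (NPC.Poly.const b) (NPC.Poly.pair hl (NPC.Poly.const k)))

theorem QC_orc1 : NPC.Poly (fun x : List Bool => orc1 x.length) :=
  QC_gate true (NPC.Poly.cons (NPC.Poly.const 0) QC_idx) 2

theorem QC_orc2 : NPC.Poly (fun x : List Bool => orc2 x.length) :=
  QC_gate true (NPC.Poly.cons (NPC.Poly.const 1) QC_idx) 2

theorem QC_refl : NPC.Poly (fun x : List Bool => refl x.length) := QC_gate false QC_idx 2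

theorem QC_fin : NPC.Poly (fun x : List Bool => fin x.length) := QC_gate false QC_idx 0

theorem QC_prep : NPC.Poly (fun x : List Bool => prepG x.length) := by
  unfold prepG
  exact NPC.Poly.cons (NPC.Poly.const _) (NPC.Poly.cons (NPC.Poly.const _)
    (NPC.Poly.cons (NPC.Poly.const _) (QC_nt QC_idx)))

theorem QC_A : NPC.Poly (fun x : List Bool => AG x.length) := by
  unfold AG
  exact NPC.Poly.append (NPC.Poly.append (QC_had QC_idx) (NPC.Poly.cons QC_orc1 (QC_had QC_mid)))
    (NPC.Poly.cons QC_orc2 (QC_had QC_idx))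

theorem QC_At : NPC.Poly (fun x : List Bool => AtG x.length) := by
  unfold AtG
  exact NPC.Poly.append (NPC.Poly.append (QC_had QC_idx) (NPC.Poly.cons QC_orc2 (QC_had QC_mid)))
    (NPC.Poly.cons QC_orc1 (QC_had QC_idx))

theorem QC_circ : NPC.Poly (fun x : List Bool => circ x.length) := by
  unfold circ
  have h : UPoly (fun x : List Bool => 6 + 3 * x.length) :=
    UPoly.add (UPoly.const 6) (UPoly.mul (UPoly.const 3) QC_len)
  refine NPC.Poly.pair h ?_
  exact NPC.Poly.append (NPC.Poly.append (NPC.Poly.append (NPC.Poly.append QC_prep QC_A)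
    (NPC.Poly.cons QC_refl QC_At)) (NPC.Poly.cons QC_refl QC_A))
    (NPC.Poly.cons QC_fin (NPC.Poly.const []))

/-- number of oracle gates -/
def QC_cnt (l : List Gate) : ℕ :=
  l.countP (fun g => match g with | Sum.inr (true, _, _) => true | _ => false)

theorem QC_cnt_append (l l' : List Gate) : QC_cnt (l ++ l') = QC_cnt l + QC_cnt l' := by
  unfold QC_cnt; rw [List.countP_append]

theorem QC_cnt_had (l : List ℕ) : QC_cnt (l.map had) = 0 := by
  unfold QC_cnt
  rw [List.countP_eq_zero]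
  intro g hg
  obtain ⟨i, _, rfl⟩ := List.mem_map.1 hg
  simp [had]

theorem QC_cnt_nt (l : List ℕ) : QC_cnt (l.map nt) = 0 := by
  unfold QC_cnt
  rw [List.countP_eq_zero]
  intro g hg
  obtain ⟨i, _, rfl⟩ := List.mem_map.1 hg
  simp [nt]

theorem QC_cnt_true (a : List ℕ) (k : ℕ) (l : List Gate) :
    QC_cnt (Sum.inr (true, a, k) :: l) = QC_cnt l + 1 := by
  unfold QC_cnt; rw [List.countP_cons_of_pos rfl]

theorem QC_cnt_false (a : List ℕ) (k : ℕ) (l : List Gate) :
    QC_cnt (Sum.inr (false, a, k) :: l) = QC_cnt l := by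
  unfold QC_cnt; rw [List.countP_cons_of_neg (by simp)]

theorem QC_cnt_inl (k : ℕ) (l : List Gate) :
    QC_cnt (Sum.inl k :: l) = QC_cnt l := by
  unfold QC_cnt; rw [List.countP_cons_of_neg (by simp)]

theorem QC_cnt_nil : QC_cnt [] = 0 := rfl

theorem QC_cnt_prep (κ : ℕ) : QC_cnt (prepG κ) = 0 := by
  unfold prepG
  show QC_cnt (Sum.inr (false, [], 1) :: Sum.inr (false, [], 2) :: Sum.inl 2 :: _) = 0
  rw [QC_cnt_false, QC_cnt_false, QC_cnt_inl, QC_cnt_nt]

theorem QC_cnt_A (κ : ℕ) : QC_cnt (AG κ) = 2 := by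
  unfold AG orc1 orc2
  rw [QC_cnt_append, QC_cnt_append, QC_cnt_true, QC_cnt_true, QC_cnt_had, QC_cnt_had]

theorem QC_cnt_At (κ : ℕ) : QC_cnt (AtG κ) = 2 := by
  unfold AtG orc1 orc2
  rw [QC_cnt_append, QC_cnt_append, QC_cnt_true, QC_cnt_true, QC_cnt_had, QC_cnt_had]

theorem QC_queries (κ : ℕ) : queries (circ κ) = 6 := by
  show QC_cnt (prepG κ ++ AG κ ++ refl κ :: AtG κ ++ refl κ :: AG κ ++ [fin κ]) = 6
  unfold refl fin
  rw [QC_cnt_append, QC_cnt_append, QC_cnt_append, QC_cnt_append, QC_cnt_false, QC_cnt_false,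
    QC_cnt_false, QC_cnt_prep, QC_cnt_A, QC_cnt_At, QC_cnt_nil]

theorem QC : St_QC := ⟨polyTime_bits QC_circ, QC_queries⟩

end Pool.Agent.H516R2.EQP
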