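import Pool.Agent.H516R2.EQP.Props

/-!
# The acceptance probability of the circuits
-/

namespace Pool.Agent.H516R2.EQP

open Pool.Agent.NPC Pool.Agent.H620R2.Gauge Finset H568R2 Pool.Agent.H676

theorem QF_circAct_append (A : Oracle) {m : ℕ} (l₁ l₂ : List Gate) (ψ : (Fin m → Bool) → ℝ) :
    circAct A (l₁ ++ l₂) ψ = circAct A l₂ (circAct A l₁ ψ) := by
  induction l₁ generalizing ψ with
  | nil => rfl
  | cons g l ih => simp [circAct, ih]

/-- the kernel of `HH` -/
noncomputable def QF_K {n : ℕ} (p : Fin n → Bool) (i j : Fin n → Bool) : ℝ :=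
  ∏ k, if p k then sg (i k && j k) / Real.sqrt 2 else if i k = j k then (1 : ℝ) else 0

theorem QF_HH_eq {n : ℕ} (p : Fin n → Bool) (φ : (Fin n → Bool) → ℝ) (i : Fin n → Bool) :
    HH p φ i = ∑ j, QF_K p i j * φ j := rfl

theorem QF_K_symm {n : ℕ} (p : Fin n → Bool) (i j : Fin n → Bool) : QF_K p i j = QF_K p j i := by
  refine Finset.prod_congr rfl fun k _ => ?_
  generalize i k = a
  generalize j k = c
  cases a <;> cases c <;> simp

theorem QF_sqrt : Real.sqrt 2 * Real.sqrt 2 = 2 := Real.mul_self_sqrt (by norm_num)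

theorem QF_K_mul {n : ℕ} (p : Fin n → Bool) (i l : Fin n → Bool) :
    ∑ j, QF_K p i j * QF_K p j l = if i = l then (1 : ℝ) else 0 := by
  have h2 : Real.sqrt 2 ≠ 0 := by positivity
  have hs := QF_sqrt
  have : ∑ j : Fin n → Bool, QF_K p i j * QF_K p j l =
      ∏ k, ∑ b : Bool, ((if p k then sg (i k && b) / Real.sqrt 2 else
        if i k = b then (1 : ℝ) else 0) * (if p k then sg (b && l k) / Real.sqrt 2 else
        if b = l k then (1 : ℝ) else 0)) := by
    rw [Finset.prod_univ_sum]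
    rw [Fintype.piFinset_univ]
    refine Finset.sum_congr rfl fun j _ => ?_
    unfold QF_K
    rw [← Finset.prod_mul_distrib]
  rw [this]
  have h3 : ∀ k : Fin n, ∑ b : Bool, ((if p k then sg (i k && b) / Real.sqrt 2 else
        if i k = b then (1 : ℝ) else 0) * (if p k then sg (b && l k) / Real.sqrt 2 else
        if b = l k then (1 : ℝ) else 0)) = if i k = l k then (1 : ℝ) else 0 := by
    intro k
    rw [Fintype.sum_bool]
    generalize i k = a
    generalize l k = c
    cases p k <;> cases a <;> cases c <;> simp [sg] <;> field_simp <;> nlinarith [hs]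
  rw [Finset.prod_congr rfl fun k _ => h3 k]
  by_cases h : i = l
  · subst h; simp
  · rw [if_neg h]
    obtain ⟨k, hk⟩ := Function.ne_iff.mp h
    exact Finset.prod_eq_zero (Finset.mem_univ k) (if_neg hk)

theorem QF_HH_HH {n : ℕ} (p : Fin n → Bool) (φ : (Fin n → Bool) → ℝ) : HH p (HH p φ) = φ := by
  funext i
  rw [QF_HH_eq]
  simp_rw [QF_HH_eq, Finset.mul_sum]
  rw [Finset.sum_comm]
  have : ∀ l, ∑ j, QF_K p i j * (QF_K p j l * φ l) = (if i = l then (1 : ℝ) else 0) * φ l := by
    intro l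
    rw [← QF_K_mul p i l, Finset.sum_mul]
    exact Finset.sum_congr rfl fun j _ => by ring
  simp_rw [this]
  simp

theorem QF_HH_inner {n : ℕ} (p : Fin n → Bool) (f g : (Fin n → Bool) → ℝ) :
    ∑ i, f i * HH p g i = ∑ i, HH p f i * g i := by
  simp_rw [QF_HH_eq, Finset.mul_sum, Finset.sum_mul]
  rw [Finset.sum_comm]
  refine Finset.sum_congr rfl fun j _ => Finset.sum_congr rfl fun i _ => ?_
  rw [QF_K_symm p i j]; ring

theorem QF_HH_lin {n : ℕ} (p : Fin n → Bool) (f g : (Fin n → Bool) → ℝ) (a b : ℝ) :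
    HH p (fun i => a * f i + b * g i) = fun i => a * HH p f i + b * HH p g i := by
  funext i
  simp_rw [QF_HH_eq, Finset.mul_sum]
  rw [← Finset.sum_add_distrib]
  exact Finset.sum_congr rfl fun j _ => by ring

section

variable {n : ℕ} (p : Fin n → Bool) (d1 d2 : (Fin n → Bool) → ℝ)

/-- the operator given by `AG`, acting on the index qubits -/
noncomputable def QF_V (φ : (Fin n → Bool) → ℝ) : (Fin n → Bool) → ℝ :=
  HH (fun _ => true) (fun i => d2 i * HH p (fun i => d1 i * HH (fun _ => true) φ i) i)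

/-- the indicator of the all ones index -/
def QF_e (i : Fin n → Bool) : ℝ := if i = fun _ => true then 1 else 0

theorem QF_V_lin (f g : (Fin n → Bool) → ℝ) (a b : ℝ) :
    QF_V p d1 d2 (fun i => a * f i + b * g i) =
      fun i => a * QF_V p d1 d2 f i + b * QF_V p d1 d2 g i := by
  unfold QF_V
  rw [QF_HH_lin]
  have h1 : (fun i => d1 i * (a * HH (fun _ => true) f i + b * HH (fun _ => true) g i)) =
      fun i => a * (d1 i * HH (fun _ => true) f i) + b * (d1 i * HH (fun _ => true) g i) := by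
    funext i; ring
  rw [h1, QF_HH_lin]
  have h2 : (fun i => d2 i * (a * HH p (fun i => d1 i * HH (fun _ => true) f i) i +
      b * HH p (fun i => d1 i * HH (fun _ => true) g i) i)) =
      fun i => a * (d2 i * HH p (fun i => d1 i * HH (fun _ => true) f i) i) +
        b * (d2 i * HH p (fun i => d1 i * HH (fun _ => true) g i) i) := by
    funext i; ring
  rw [h2, QF_HH_lin]

theorem QF_V_V (h1 : ∀ i, d1 i * d1 i = 1) (h2 : ∀ i, d2 i * d2 i = 1)
    (f : (Fin n → Bool) → ℝ) : QF_V p d2 d1 (QF_V p d1 d2 f) = f := by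
  unfold QF_V
  rw [QF_HH_HH]
  have e2 : (fun i => d2 i * (d2 i * HH p (fun i => d1 i * HH (fun _ => true) f i) i)) =
      HH p (fun i => d1 i * HH (fun _ => true) f i) := by
    funext i; rw [← mul_assoc, h2, one_mul]
  rw [e2, QF_HH_HH]
  have e1 : (fun i => d1 i * (d1 i * HH (fun _ => true) f i)) = HH (fun _ => true) f := by
    funext i; rw [← mul_assoc, h1, one_mul]
  rw [e1, QF_HH_HH]

theorem QF_V_inner (f g : (Fin n → Bool) → ℝ) :
    ∑ i, f i * QF_V p d1 d2 g i = ∑ i, QF_V p d2 d1 f i * g i := by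
  unfold QF_V
  rw [QF_HH_inner]
  have e2 : ∀ i, HH (fun _ => true) f i *
      (d2 i * HH p (fun i => d1 i * HH (fun _ => true) g i) i) =
      (d2 i * HH (fun _ => true) f i) * HH p (fun i => d1 i * HH (fun _ => true) g i) i := by
    intro i; ring
  rw [Finset.sum_congr rfl fun i _ => e2 i,
    QF_HH_inner p (fun i => d2 i * HH (fun _ => true) f i)]
  have e3 : ∀ i, HH p (fun i => d2 i * HH (fun _ => true) f i) i *
      (d1 i * HH (fun _ => true) g i) =
      (d1 i * HH p (fun i => d2 i * HH (fun _ => true) f i) i) * HH (fun _ => true) g i := by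
    intro i; ring
  rw [Finset.sum_congr rfl fun i _ => e3 i, QF_HH_inner (fun _ => true)
    (fun i => d1 i * HH p (fun i => d2 i * HH (fun _ => true) f i) i)]

theorem QF_inner_e (f : (Fin n → Bool) → ℝ) : ∑ i, f i * QF_e i = f (fun _ => true) := by
  unfold QF_e
  simp

theorem QF_e_inner (f : (Fin n → Bool) → ℝ) : ∑ i, QF_e i * f i = f (fun _ => true) := by
  unfold QF_e
  simp

/-- the reflection -/
def QF_R (φ : (Fin n → Bool) → ℝ) : (Fin n → Bool) → ℝ :=
  fun i => (if i = fun _ => true then (-1 : ℝ) else 1) * φ i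

theorem QF_R_eq (φ : (Fin n → Bool) → ℝ) :
    QF_R φ = fun i => 1 * φ i + (-2 * φ (fun _ => true)) * QF_e i := by
  funext i
  unfold QF_R QF_e
  by_cases h : i = fun _ => true
  · subst h; simp; ring
  · simp [h]

/-- the algebra -/
theorem QF_amp (h1 : ∀ i, d1 i * d1 i = 1) (h2 : ∀ i, d2 i * d2 i = 1) (a : ℝ)
    (ha : QF_V p d1 d2 QF_e (fun _ => true) = a) :
    QF_V p d1 d2 (QF_R (QF_V p d2 d1 (QF_R (QF_V p d1 d2 QF_e)))) (fun _ => true) =
      4 * a ^ 3 - 3 * a := by
  have hb : QF_V p d2 d1 QF_e (fun _ => true) = a := by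
    have := QF_V_inner p d1 d2 QF_e QF_e
    rw [QF_e_inner, QF_inner_e, ha] at this
    exact this.symm
  have e1 : QF_R (QF_V p d1 d2 QF_e) =
      fun i => 1 * QF_V p d1 d2 QF_e i + (-2 * a) * QF_e i := by
    rw [QF_R_eq, ha]
  rw [e1, QF_V_lin, QF_V_V p d1 d2 h1 h2]
  rw [QF_R_eq]
  simp only [hb]
  have h3 : (QF_e (n := n) (fun _ => true) : ℝ) = 1 := by simp [QF_e]
  have e2 : (fun i : Fin n → Bool => 1 * (1 * QF_e i + -2 * a * QF_V p d2 d1 QF_e i) +
      -2 * (1 * QF_e (n := n) (fun _ => true) + -2 * a * a) * QF_e i) =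
      fun i : Fin n → Bool => (4 * a ^ 2 - 1) * QF_e i + (-2 * a) * QF_V p d2 d1 QF_e i := by
    funext i
    rw [h3]; ring
  rw [e2, QF_V_lin, QF_V_V p d2 d1 h2 h1]
  simp only [h3, ha]
  ring

end

theorem QF_sg_sq (b : Bool) : sg b * sg b = 1 := by cases b <;> simp [sg]

theorem QF_den (κ : ℕ) : ∏ k : Fin (3 + 3 * κ),
    (2 * (if decide (3 + κ ≤ k.val) = true then Real.sqrt 2 else 1)) =
      2 ^ (3 + 3 * κ) * 2 ^ κ := by
  rw [Finset.prod_mul_distrib, Finset.prod_const, Finset.card_univ, Fintype.card_fin]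
  congr 1
  rw [← Finset.prod_range (fun k => if decide (3 + κ ≤ k) = true then Real.sqrt 2 else 1)]
  rw [show 3 + 3 * κ = (3 + κ) + 2 * κ by ring, Finset.prod_range_add]
  rw [Finset.prod_congr rfl (g := fun _ => (1 : ℝ)) (fun k hk => by
    rw [if_neg]; simpa using Finset.mem_range.mp hk)]
  rw [Finset.prod_congr (s₁ := Finset.range (2 * κ)) rfl (g := fun _ => Real.sqrt 2)
    (fun k _ => by rw [if_pos]; simp)]
  rw [Finset.prod_const_one, Finset.prod_const, Finset.card_range, one_mul, pow_mul,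
    Real.sq_sqrt (by norm_num)]

theorem QF_Kb (κ : ℕ) (i j : Fin (3 + 3 * κ) → Bool) :
    QF_K (fun _ => true) (fun _ => true) j *
      (QF_K (fun k => decide (3 + κ ≤ k.val)) j i * QF_K (fun _ => true) i (fun _ => true)) =
    (∏ k : Fin (3 + 3 * κ), Kb (decide (3 + κ ≤ k.val)) (i k) (j k)) /
      (2 ^ (3 + 3 * κ) * 2 ^ κ) := by
  rw [← QF_den κ, ← Finset.prod_div_distrib]
  unfold QF_K
  rw [← Finset.prod_mul_distrib, ← Finset.prod_mul_distrib]
  refine Finset.prod_congr rfl fun k _ => ?_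
  have h2 : Real.sqrt 2 ≠ 0 := by positivity
  have hs := QF_sqrt
  have hs3 : Real.sqrt 2 ^ 3 = 2 * Real.sqrt 2 := by rw [pow_succ, sq, hs]
  have key : ∀ b x y : Bool, (if (true : Bool) then sg (true && y) / Real.sqrt 2 else
      if true = y then (1 : ℝ) else 0) * ((if b then sg (y && x) / Real.sqrt 2 else
      if y = x then (1 : ℝ) else 0) * (if (true : Bool) then sg (x && true) / Real.sqrt 2 else
      if x = true then (1 : ℝ) else 0)) =
      Kb b x y / (2 * (if b = true then Real.sqrt 2 else 1)) := by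
    intro b x y
    cases b <;> cases x <;> cases y <;> simp [sg, Kb] <;> field_simp <;> nlinarith [hs, hs3]
  exact key _ _ _

theorem QF_alpha (κ : ℕ) (A : Oracle) :
    QF_V (fun k : Fin (3 + 3 * κ) => decide (3 + κ ≤ k.val))
      (fun i => sg (A (false :: List.ofFn i))) (fun i => sg (A (true :: List.ofFn i))) QF_e
      (fun _ => true) = alpha A κ := by
  unfold alpha QF_V
  rw [Finset.sum_div, QF_HH_eq]
  simp_rw [QF_HH_eq]
  rw [Finset.sum_congr rfl fun i (_ : i ∈ univ) => Finset.sum_div _ _ _]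
  rw [Finset.sum_comm (s := univ) (t := univ) (f := fun i j => (∏ k : Fin (3 + 3 * κ),
    Kb (decide (3 + κ ≤ k.val)) (i k) (j k)) *
      (sg (A (false :: List.ofFn i)) * sg (A (true :: List.ofFn j))) /
        (2 ^ (3 + 3 * κ) * 2 ^ κ))]
  refine Finset.sum_congr rfl fun j _ => ?_
  rw [Finset.mul_sum, Finset.mul_sum]
  refine Finset.sum_congr rfl fun i _ => ?_
  have h1 : ∑ l, QF_K (fun _ => true) i l * QF_e l = QF_K (fun _ => true) i (fun _ => true) :=
    QF_inner_e _
  rw [h1]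
  have h2 := QF_Kb κ i j
  rw [mul_div_right_comm, ← h2]
  ring

theorem QF_acc (A : Oracle) (l : List Unit) (g : List Gate) (m : ℕ) (h : l.length = m) :
    accProb A (l, g) = ∑ s : Fin m → Bool, if rd s 0 then circAct A g (initSt m) s ^ 2 else 0 := by
  subst h; rfl

theorem task_QF (h1 : St_QL) (h2 : St_QG) : St_QF := by
  intro κ A
  obtain ⟨hg, hp⟩ := h2 κ A
  set p : Fin (3 + 3 * κ) → Bool := fun k => decide (3 + κ ≤ k.val) with hpdef
  set d1 : (Fin (3 + 3 * κ) → Bool) → ℝ := fun i => sg (A (false :: List.ofFn i)) with hd1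
  set d2 : (Fin (3 + 3 * κ) → Bool) → ℝ := fun i => sg (A (true :: List.ofFn i)) with hd2
  have hV : ∀ φ : (Fin (3 + 3 * κ) → Bool) → ℝ,
      circAct A (AG κ) (lift false φ) = lift false (QF_V p d1 d2 φ) := by
    intro φ
    unfold AG
    simp only [QF_circAct_append, circAct]
    rw [(h1 κ A false φ).1, (hg _).1, (h1 κ A false _).2, (hg _).2.1, (h1 κ A false _).1]
    rfl
  have hVt : ∀ φ : (Fin (3 + 3 * κ) → Bool) → ℝ,
      circAct A (AtG κ) (lift false φ) = lift false (QF_V p d2 d1 φ) := by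
    intro φ
    unfold AtG
    simp only [QF_circAct_append, circAct]
    rw [(h1 κ A false φ).1, (hg _).2.1, (h1 κ A false _).2, (hg _).1, (h1 κ A false _).1]
    rfl
  have hR : ∀ φ : (Fin (3 + 3 * κ) → Bool) → ℝ,
      gateAct A (refl κ) (lift false φ) = lift false (QF_R φ) := fun φ => (hg φ).2.2.1
  have hstate : circAct A (prepG κ ++ AG κ ++ refl κ :: AtG κ ++ refl κ :: AG κ ++ [fin κ])
      (initSt (6 + 3 * κ)) = gateAct A (fin κ) (lift false
        (QF_V p d1 d2 (QF_R (QF_V p d2 d1 (QF_R (QF_V p d1 d2 QF_e)))))) := by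
    simp only [QF_circAct_append, circAct]
    rw [hp]
    have : (fun i : Fin (3 + 3 * κ) → Bool => if i = fun _ => true then (1 : ℝ) else 0) = QF_e :=
      rfl
    rw [this, hV, hR, hVt, hR, hV]
  unfold circ
  rw [QF_acc A _ _ (6 + 3 * κ) (List.length_replicate ..), hstate, (hg _).2.2.2]
  rw [QF_amp p d1 d2 (fun i => QF_sg_sq _) (fun i => QF_sg_sq _) (alpha A κ) (QF_alpha κ A)]

end Pool.Agent.H516R2.EQP
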