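import Pool.Agent.H516R2.EQP.QL

/-! Task QG (helper153): action of the other gates. -/

namespace Pool.Agent.H516R2.EQP

open Pool.Agent.NPC Pool.Agent.H620R2.Gauge Finset H568R2 Pool.Agent.H676

/-- the content of the index qubits -/
def qgI {κ : ℕ} (s : Fin (6 + 3 * κ) → Bool) : Fin (3 + 3 * κ) → Bool := fun k => rd s (k.val + 3)

theorem qg_lift {κ : ℕ} (o : Bool) (φ : (Fin (3 + 3 * κ) → Bool) → ℝ)
    (s : Fin (6 + 3 * κ) → Bool) : lift o φ s =
      if rd s 0 = o ∧ rd s 1 = true then sg (rd s 2) / Real.sqrt 2 * φ (qgI s) else 0 := rfl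

theorem qg_I2 {κ : ℕ} (s : Fin (6 + 3 * κ) → Bool) (k : ℕ) (hk : k < 6 + 3 * κ) (h3 : k < 3)
    (b : Bool) : qgI (Function.update s ⟨k, hk⟩ b) = qgI s := by
  funext l
  exact ql_rd_ne s k hk b _ (by omega)

theorem qg_map (κ : ℕ) (s : Fin (6 + 3 * κ) → Bool) :
    (idxQ κ).map (rd s) = List.ofFn (qgI s) := by
  unfold idxQ
  rw [List.map_map]
  apply List.ext_getElem
  · simp
  · intro i h1 h2
    simp [qgI]

theorem qg_all (κ : ℕ) (s : Fin (6 + 3 * κ) → Bool) :
    (idxQ κ).all (rd s) = decide (qgI s = fun _ => true) := by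
  rw [Bool.eq_iff_iff, List.all_eq_true, decide_eq_true_iff]
  constructor
  · intro h
    funext k
    apply h
    unfold idxQ
    rw [List.mem_map]
    exact ⟨k.val, List.mem_range.2 k.isLt, rfl⟩
  · intro h x hx
    unfold idxQ at hx
    rw [List.mem_map] at hx
    obtain ⟨i, hi, rfl⟩ := hx
    exact congrFun h ⟨i, List.mem_range.1 hi⟩

theorem qg_sg (a b : Bool) : sg (a ^^ b) = sg b * sg a := by
  cases a <;> cases b <;> simp [sg]

theorem qg_rd {m : ℕ} (s : Fin m → Bool) (i : ℕ) (h : i < m) : rd s i = s ⟨i, h⟩ := by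
  unfold rd; rw [dif_pos h]

/-- flips of the qubit `2` -/
theorem qg_flip2 {κ : ℕ} (o : Bool) (φ : (Fin (3 + 3 * κ) → Bool) → ℝ)
    (c : (Fin (6 + 3 * κ) → Bool) → Bool) (s : Fin (6 + 3 * κ) → Bool) (C : Bool)
    (hC : rd s 0 = o → rd s 1 = true →
      c (Function.update s ⟨2, by omega⟩ false) = C) :
    lift o φ (flipIf c 2 s) = if rd s 0 = o ∧ rd s 1 = true then
      sg (rd s 2) / Real.sqrt 2 * (sg C * φ (qgI s)) else 0 := by
  have h2 : 2 < 6 + 3 * κ := by omega
  unfold flipIf
  rw [dif_pos h2, qg_lift, ql_rd_ne s 2 h2 _ 0 (by omega), ql_rd_ne s 2 h2 _ 1 (by omega),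
    ql_rd_self, qg_I2 s 2 h2 (by omega), ← qg_rd s 2 h2]
  by_cases h : rd s 0 = o ∧ rd s 1 = true
  · rw [if_pos h, if_pos h, hC h.1 h.2, qg_sg]
    ring
  · rw [if_neg h, if_neg h]

theorem qg_orc {κ : ℕ} (A : Oracle) (φ : (Fin (3 + 3 * κ) → Bool) → ℝ) :
    gateAct A (orc1 κ) (lift false φ) = lift false (fun i => sg (A (false :: List.ofFn i)) * φ i) ∧
    gateAct A (orc2 κ) (lift false φ) = lift false (fun i => sg (A (true :: List.ofFn i)) * φ i) ∧
    gateAct A (refl κ) (lift false φ) =
      lift false (fun i => (if i = fun _ => true then (-1 : ℝ) else 1) * φ i) := by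
  have h2 : 2 < 6 + 3 * κ := by omega
  refine ⟨?_, ?_, ?_⟩
  · funext s
    show lift false φ (flipIf (fun s => A ((0 :: idxQ κ).map (rd s))) 2 s) = _
    rw [qg_flip2 false φ _ s (A (false :: List.ofFn (qgI s))) ?_, qg_lift]
    intro h0 _
    rw [List.map_cons, qg_map, qg_I2 s 2 h2 (by omega), ql_rd_ne s 2 h2 _ 0 (by omega), h0]
  · funext s
    show lift false φ (flipIf (fun s => A ((1 :: idxQ κ).map (rd s))) 2 s) = _
    rw [qg_flip2 false φ _ s (A (true :: List.ofFn (qgI s))) ?_, qg_lift]
    intro _ h1
    rw [List.map_cons, qg_map, qg_I2 s 2 h2 (by omega), ql_rd_ne s 2 h2 _ 1 (by omega), h1]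
  · funext s
    show lift false φ (flipIf (fun s => (idxQ κ).all (rd s)) 2 s) = _
    rw [qg_flip2 false φ _ s (decide (qgI s = fun _ => true)) ?_, qg_lift]
    · have e : sg (decide (qgI s = fun _ => true)) = if qgI s = fun _ => true then (-1 : ℝ) else 1 := by
        unfold sg
        by_cases h : qgI s = fun _ => true <;> simp [h]
      rw [e]
    · intro _ _
      rw [qg_all, qg_I2 s 2 h2 (by omega)]

/-- the two accepting states -/
def qgS (κ : ℕ) (b : Bool) : Fin (6 + 3 * κ) → Bool := fun i => if i.val = 2 then b else true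

theorem qg_S_of {κ : ℕ} (s : Fin (6 + 3 * κ) → Bool) (h0 : rd s 0 = true) (h1 : rd s 1 = true)
    (hI : qgI s = fun _ => true) : s = qgS κ (rd s 2) := by
  funext i
  unfold qgS
  obtain ⟨i, hi⟩ := i
  have e : s ⟨i, hi⟩ = rd s i := (qg_rd s i hi).symm
  rw [e]
  by_cases h2 : i = 2
  · rw [if_pos h2, h2]
  · rw [if_neg h2]
    rcases Nat.lt_or_ge i 3 with h3 | h3
    · interval_cases i
      · exact h0
      · exact h1
      · exact absurd rfl h2
    · have := congrFun hI ⟨i - 3, by omega⟩
      unfold qgI at this
      simp only at this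
      rwa [Nat.sub_add_cancel h3] at this

theorem qg_fin {κ : ℕ} (A : Oracle) (φ : (Fin (3 + 3 * κ) → Bool) → ℝ) :
    (∑ s : Fin (6 + 3 * κ) → Bool, if rd s 0 then gateAct A (fin κ) (lift false φ) s ^ 2 else 0) =
      φ (fun _ => true) ^ 2 := by
  have h0 : 0 < 6 + 3 * κ := by omega
  have hval : ∀ s : Fin (6 + 3 * κ) → Bool, gateAct A (fin κ) (lift false φ) s =
      if (rd s 0 ^^ decide (qgI s = fun _ => true)) = false ∧ rd s 1 = true then
        sg (rd s 2) / Real.sqrt 2 * φ (qgI s) else 0 := by
    intro s
    show lift false φ (flipIf (fun s => (idxQ κ).all (rd s)) 0 s) = _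
    have hC : (fun s : Fin (6 + 3 * κ) → Bool => (idxQ κ).all (rd s))
        (Function.update s ⟨0, h0⟩ false) = decide (qgI s = fun _ => true) := by
      show (idxQ κ).all (rd (Function.update s ⟨0, h0⟩ false)) = _
      rw [qg_all, qg_I2 s 0 h0 (by omega)]
    unfold flipIf
    rw [dif_pos h0, hC, qg_lift, ql_rd_self, ql_rd_ne s 0 h0 _ 1 (by omega),
      ql_rd_ne s 0 h0 _ 2 (by omega), qg_I2 s 0 h0 (by omega), ← qg_rd s 0 h0]
  have hinj : Function.Injective (qgS κ) := by
    intro b b' h
    have := congrFun h ⟨2, by omega⟩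
    simpa [qgS] using this
  rw [← Finset.sum_subset (Finset.subset_univ (Finset.univ.image (qgS κ))) ?_,
    Finset.sum_image (fun a _ b _ h => hinj h), Fintype.sum_bool]
  · have hS : ∀ b : Bool, rd (qgS κ b) 0 = true ∧ rd (qgS κ b) 1 = true ∧ rd (qgS κ b) 2 = b ∧
        qgI (qgS κ b) = fun _ => true := by
      intro b
      refine ⟨?_, ?_, ?_, ?_⟩
      · rw [qg_rd _ 0 h0]; rfl
      · rw [qg_rd _ 1 (by omega)]; rfl
      · rw [qg_rd _ 2 (by omega)]; rfl
      · funext k
        have hk := k.isLt
        unfold qgI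
        rw [qg_rd _ (k.val + 3) (by omega)]
        show (if k.val + 3 = 2 then b else true) = true
        rw [if_neg (by omega)]
    have hb : ∀ b : Bool, (if rd (qgS κ b) 0 then gateAct A (fin κ) (lift false φ) (qgS κ b) ^ 2
        else 0) = φ (fun _ => true) ^ 2 / 2 := by
      intro b
      obtain ⟨e0, e1, e2, e3⟩ := hS b
      rw [hval, e0, e1, e2, e3, if_pos rfl, if_pos (by simp)]
      rw [mul_pow, div_pow, Real.sq_sqrt (by norm_num)]
      have : sg b ^ 2 = 1 := by cases b <;> simp [sg]
      rw [this]
      ring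
    rw [hb, hb]
    ring
  · intro s _ hs
    by_cases h : rd s 0 = true
    · rw [if_pos h, hval, if_neg, sq, zero_mul]
      rintro ⟨h1, h2⟩
      rw [h] at h1
      have h3 : qgI s = fun _ => true := by
        by_contra hcon
        rw [decide_eq_false hcon] at h1
        exact absurd h1 (by simp)
      apply hs
      rw [Finset.mem_image]
      exact ⟨rd s 2, Finset.mem_univ _, (qg_S_of s h h2 h3).symm⟩
    · rw [if_neg h]

open Classical in
/-- indicator of a point -/
noncomputable def qgD {n : ℕ} (v : Fin n → Bool) : (Fin n → Bool) → ℝ := fun i => if i = v then 1 else 0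

theorem qg_nt {κ : ℕ} (A : Oracle) (v : Fin (3 + 3 * κ) → Bool) (k : Fin (3 + 3 * κ)) :
    gateAct A (nt (k.val + 3)) (lift false (qgD v)) =
      lift false (qgD (Function.update v k (!v k))) := by
  classical
  have hk : k.val + 3 < 6 + 3 * κ := by have := k.isLt; omega
  funext s
  show lift false (qgD v) (flipIf (fun s => [].all (rd s)) (k.val + 3) s) = _
  unfold flipIf
  rw [dif_pos hk, ql_lift_update, qg_lift]
  have e : (s ⟨k.val + 3, hk⟩ ^^ ([] : List ℕ).all (rd (Function.update s ⟨k.val + 3, hk⟩ false))) =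
      !(qgI s k) := by
    unfold qgI
    rw [qg_rd s _ hk]
    simp
  rw [e]
  have e2 : qgD v (Function.update (fun l : Fin (3 + 3 * κ) => rd s (l.val + 3)) k (!(qgI s k))) =
      qgD (Function.update v k (!v k)) (qgI s) := by
    unfold qgD
    have : (Function.update (fun l : Fin (3 + 3 * κ) => rd s (l.val + 3)) k (!(qgI s k)) = v) ↔
        (qgI s = Function.update v k (!v k)) := by
      constructor
      · intro h
        funext l
        by_cases hl : l = k
        · subst hl
          rw [Function.update_self, ← h, Function.update_self, Bool.not_not]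
        · rw [Function.update_of_ne hl, ← h, Function.update_of_ne hl]
          rfl
      · intro h
        funext l
        by_cases hl : l = k
        · subst hl
          rw [Function.update_self, h, Function.update_self, Bool.not_not]
        · rw [Function.update_of_ne hl]
          have := congrFun h l
          rw [Function.update_of_ne hl] at this
          exact this
    simp only [this]
  rw [e2]

theorem qg_nts {κ : ℕ} (A : Oracle) : ∀ j : ℕ, j ≤ 3 + 3 * κ →
    circAct A (((List.range j).map (· + 3)).map nt) (lift false (qgD (fun _ => false))) =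
      lift (κ := κ) false (qgD (fun k => decide (k.val < j))) := by
  intro j
  induction j with
  | zero =>
    intro _
    have e : (fun k : Fin (3 + 3 * κ) => decide (k.val < 0)) = fun _ => false := by
      funext k
      simp
    rw [e]
    rfl
  | succ j ih =>
    intro hj
    rw [List.range_succ, List.map_append, List.map_append, ql_append, ih (by omega)]
    have hlt : j < 3 + 3 * κ := by omega
    have h1 := qg_nt A (fun k : Fin (3 + 3 * κ) => decide (k.val < j)) ⟨j, hlt⟩
    have e0 : ∀ ψ : (Fin (6 + 3 * κ) → Bool) → ℝ,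
        circAct A ((([j] : List ℕ).map (· + 3)).map nt) ψ = gateAct A (nt (j + 3)) ψ := fun _ => rfl
    rw [e0]
    have h1' : gateAct A (nt (j + 3)) (lift false (qgD fun k : Fin (3 + 3 * κ) => decide (k.val < j)))
      = lift false (qgD (Function.update (fun k : Fin (3 + 3 * κ) => decide (k.val < j)) ⟨j, hlt⟩
          (!decide (j < j)))) := h1
    rw [h1']
    congr 2
    funext k
    by_cases hk : k = ⟨j, hlt⟩
    · subst hk
      rw [Function.update_self]
      simp
    · rw [Function.update_of_ne hk]
      have hne : k.val ≠ j := fun h => hk (Fin.ext h)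
      apply decide_eq_decide.2
      omega

/-- the first three gates -/
theorem qg_three {κ : ℕ} (A : Oracle) :
    gateAct A (had 2) (gateAct A (nt 2) (gateAct A (nt 1) (initSt (6 + 3 * κ)))) =
      lift (κ := κ) false (qgD (fun _ => false)) := by
  classical
  have h1 : 1 < 6 + 3 * κ := by omega
  have h2 : 2 < 6 + 3 * κ := by omega
  funext s
  have hv : ∀ s : Fin (6 + 3 * κ) → Bool,
      gateAct A (nt 2) (gateAct A (nt 1) (initSt (6 + 3 * κ))) s =
        if rd s 0 = false ∧ rd s 1 = true ∧ rd s 2 = true ∧ qgI s = fun _ => false then 1 else 0 := by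
    intro s
    show initSt (6 + 3 * κ) (flipIf (fun s => [].all (rd s)) 1
      (flipIf (fun s => [].all (rd s)) 2 s)) = _
    unfold initSt
    have hiff : (flipIf (fun s : Fin (6 + 3 * κ) → Bool => [].all (rd s)) 1
        (flipIf (fun s => [].all (rd s)) 2 s) = fun _ => false) ↔
        (rd s 0 = false ∧ rd s 1 = true ∧ rd s 2 = true ∧ qgI s = fun _ => false) := by
      have e : flipIf (fun s : Fin (6 + 3 * κ) → Bool => [].all (rd s)) 1
        (flipIf (fun s => [].all (rd s)) 2 s) =
          Function.update (Function.update s ⟨2, h2⟩ (!rd s 2)) ⟨1, h1⟩ (!rd s 1) := by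
        unfold flipIf
        rw [dif_pos h1, dif_pos h2, qg_rd s 1 h1, qg_rd s 2 h2]
        rw [Function.update_of_ne (by intro h; have := congrArg Fin.val h; simp at this)]
        simp
      rw [e]
      constructor
      · intro h
        refine ⟨?_, ?_, ?_, ?_⟩
        · have := congrFun h ⟨0, by omega⟩
          rw [Function.update_of_ne (by intro h; have := congrArg Fin.val h; simp at this),
            Function.update_of_ne (by intro h; have := congrArg Fin.val h; simp at this)] at this
          rw [qg_rd s 0 (by omega)]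
          exact this
        · have := congrFun h ⟨1, h1⟩
          rw [Function.update_self] at this
          simpa using this
        · have := congrFun h ⟨2, h2⟩
          rw [Function.update_of_ne (by intro h; have := congrArg Fin.val h; simp at this),
            Function.update_self] at this
          simpa using this
        · funext k
          have hk := k.isLt
          have := congrFun h ⟨k.val + 3, by omega⟩
          rw [Function.update_of_ne (by intro h; have := congrArg Fin.val h; simp at this),
            Function.update_of_ne (by intro h; have := congrArg Fin.val h; simp at this)] at this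
          unfold qgI
          rw [qg_rd s (k.val + 3) (by omega)]
          exact this
      · rintro ⟨g0, g1, g2, g3⟩
        funext i
        obtain ⟨i, hi⟩ := i
        rw [g1, g2]
        by_cases hi1 : i = 1
        · subst hi1
          rw [Function.update_self]; rfl
        · rw [Function.update_of_ne (by intro h; exact hi1 (congrArg Fin.val h))]
          by_cases hi2 : i = 2
          · subst hi2
            rw [Function.update_self]; rfl
          · rw [Function.update_of_ne (by intro h; exact hi2 (congrArg Fin.val h)), ← qg_rd s i hi]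
            rcases Nat.lt_or_ge i 3 with h3 | h3
            · interval_cases i
              · exact g0
              · exact absurd rfl hi1
              · exact absurd rfl hi2
            · have := congrFun g3 ⟨i - 3, by omega⟩
              unfold qgI at this
              simp only at this
              rwa [Nat.sub_add_cancel h3] at this
    simp only [hiff]
  show (if h : 2 < 6 + 3 * κ then
        (gateAct A (nt 2) (gateAct A (nt 1) (initSt (6 + 3 * κ))) (Function.update s ⟨2, h⟩ false) +
          (if s ⟨2, h⟩ then -1 else 1) *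
          gateAct A (nt 2) (gateAct A (nt 1) (initSt (6 + 3 * κ))) (Function.update s ⟨2, h⟩ true)) /
          Real.sqrt 2
      else gateAct A (nt 2) (gateAct A (nt 1) (initSt (6 + 3 * κ))) s) = _
  rw [dif_pos h2, hv, hv, ql_rd_self, ql_rd_self, ql_rd_ne s 2 h2 _ 0 (by omega),
    ql_rd_ne s 2 h2 _ 1 (by omega), qg_I2 s 2 h2 (by omega), ql_rd_ne s 2 h2 _ 0 (by omega),
    ql_rd_ne s 2 h2 _ 1 (by omega), qg_I2 s 2 h2 (by omega), qg_lift, ← qg_rd s 2 h2]
  unfold qgD sg
  by_cases g0 : rd s 0 = false <;> by_cases g1 : rd s 1 = true <;>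
    by_cases g3 : qgI s = fun _ => false <;> cases rd s 2 <;> simp [g0, g1, g3]

theorem QG : St_QG := by
  intro κ A
  refine ⟨fun φ => ⟨(qg_orc A φ).1, (qg_orc A φ).2.1, (qg_orc A φ).2.2, qg_fin A φ⟩, ?_⟩
  show circAct A ((idxQ κ).map nt)
    (gateAct A (had 2) (gateAct A (nt 2) (gateAct A (nt 1) (initSt (6 + 3 * κ))))) = _
  rw [qg_three]
  have h := qg_nts (κ := κ) A (3 + 3 * κ) le_rfl
  have e : (fun k : Fin (3 + 3 * κ) => decide (k.val < 3 + 3 * κ)) = fun _ => true := by
    funext k
    have := k.isLt
    rw [decide_eq_true_iff]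
    omega
  rw [e] at h
  unfold idxQ
  rw [h]
  congr 1

end Pool.Agent.H516R2.EQP
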