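import Pool.Agent.H516R2.EQP.Props

/-! Task QL (helper153): layers of Hadamard gates. -/

namespace Pool.Agent.H516R2.EQP

open Pool.Agent.NPC Pool.Agent.H620R2.Gauge Finset H568R2 Pool.Agent.H676

theorem ql_append (A : Oracle) {m : ℕ} : ∀ (l l' : List Gate) (ψ : (Fin m → Bool) → ℝ),
    circAct A (l ++ l') ψ = circAct A l' (circAct A l ψ)
  | [], _, _ => rfl
  | g :: l, l', ψ => ql_append A l l' (gateAct A g ψ)

/-- one Hadamard gate on the index -/
noncomputable def qlH1 {n : ℕ} (k : Fin n) (φ : (Fin n → Bool) → ℝ) : (Fin n → Bool) → ℝ :=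
  fun i => (φ (Function.update i k false) +
    (if i k then -1 else 1) * φ (Function.update i k true)) / Real.sqrt 2

theorem ql_rd_ne {m : ℕ} (s : Fin m → Bool) (k : ℕ) (hk : k < m) (b : Bool) (i : ℕ) (h : i ≠ k) :
    rd (Function.update s ⟨k, hk⟩ b) i = rd s i := by
  unfold rd
  by_cases hi : i < m
  · rw [dif_pos hi, dif_pos hi, Function.update_of_ne]
    intro h'
    exact h (congrArg Fin.val h')
  · rw [dif_neg hi, dif_neg hi]

theorem ql_rd_self {m : ℕ} (s : Fin m → Bool) (k : ℕ) (hk : k < m) (b : Bool) :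
    rd (Function.update s ⟨k, hk⟩ b) k = b := by
  unfold rd
  rw [dif_pos hk, Function.update_self]

theorem ql_lift_update {κ : ℕ} (o : Bool) (φ : (Fin (3 + 3 * κ) → Bool) → ℝ)
    (s : Fin (6 + 3 * κ) → Bool) (k : Fin (3 + 3 * κ)) (hk : k.val + 3 < 6 + 3 * κ) (b : Bool) :
    lift o φ (Function.update s ⟨k.val + 3, hk⟩ b) =
      if rd s 0 = o ∧ rd s 1 = true then sg (rd s 2) / Real.sqrt 2 *
        φ (Function.update (fun l => rd s (l.val + 3)) k b) else 0 := by
  unfold lift
  rw [ql_rd_ne s _ hk b 0 (by omega), ql_rd_ne s _ hk b 1 (by omega), ql_rd_ne s _ hk b 2 (by omega)]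
  have e : (fun l : Fin (3 + 3 * κ) => rd (Function.update s ⟨k.val + 3, hk⟩ b) (l.val + 3)) =
      Function.update (fun l => rd s (l.val + 3)) k b := by
    funext l
    by_cases hl : l = k
    · subst hl
      rw [ql_rd_self, Function.update_self]
    · rw [ql_rd_ne s _ hk b _ (fun h => hl (Fin.ext (by omega))), Function.update_of_ne hl]
  rw [e]

theorem ql_one {κ : ℕ} (A : Oracle) (o : Bool) (φ : (Fin (3 + 3 * κ) → Bool) → ℝ)
    (k : Fin (3 + 3 * κ)) : gateAct A (had (k.val + 3)) (lift o φ) = lift o (qlH1 k φ) := by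
  have hk : k.val + 3 < 6 + 3 * κ := by have := k.isLt; omega
  funext s
  show (if h : k.val + 3 < 6 + 3 * κ then
        (lift o φ (Function.update s ⟨k.val + 3, h⟩ false) +
          (if s ⟨k.val + 3, h⟩ then -1 else 1) * lift o φ (Function.update s ⟨k.val + 3, h⟩ true)) /
          Real.sqrt 2
      else lift o φ s) = _
  rw [dif_pos hk, ql_lift_update, ql_lift_update]
  have e : s ⟨k.val + 3, hk⟩ = rd s (k.val + 3) := by unfold rd; rw [dif_pos hk]
  rw [e]
  unfold lift qlH1
  split_ifs <;> ring

/-- the kernel of one factor -/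
noncomputable def qlK (p a b : Bool) : ℝ :=
  if p then sg (a && b) / Real.sqrt 2 else if a = b then (1 : ℝ) else 0

theorem ql_HH {n : ℕ} (p : Fin n → Bool) (φ : (Fin n → Bool) → ℝ) (i : Fin n → Bool) :
    HH p φ i = ∑ j, (∏ k, qlK (p k) (i k) (j k)) * φ j := by
  unfold HH qlK
  rfl

theorem ql_zero {n : ℕ} (φ : (Fin n → Bool) → ℝ) : HH (fun _ => false) φ = φ := by
  funext i
  rw [ql_HH, Finset.sum_eq_single i]
  · have : ∏ k : Fin n, qlK false (i k) (i k) = 1 := by
      apply Finset.prod_eq_one
      intro k _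
      simp [qlK]
    rw [this, one_mul]
  · intro j _ hj
    obtain ⟨k, hk⟩ := Function.ne_iff.1 hj
    rw [Finset.prod_eq_zero (Finset.mem_univ k), zero_mul]
    unfold qlK
    rw [if_neg (by simp), if_neg (fun h => hk h.symm)]
  · intro h
    exact absurd (Finset.mem_univ i) h

theorem ql_step {n : ℕ} (p : Fin n → Bool) (k : Fin n) (hp : p k = false)
    (φ : (Fin n → Bool) → ℝ) : qlH1 k (HH p φ) = HH (Function.update p k true) φ := by
  funext i
  unfold qlH1
  rw [ql_HH, ql_HH, ql_HH, Finset.mul_sum, ← Finset.sum_add_distrib, Finset.sum_div]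
  apply Finset.sum_congr rfl
  intro j _
  rw [← Finset.mul_prod_erase Finset.univ _ (Finset.mem_univ k),
    ← Finset.mul_prod_erase Finset.univ (fun l => qlK (p l) (Function.update i k true l) (j l))
      (Finset.mem_univ k),
    ← Finset.mul_prod_erase Finset.univ (fun l => qlK (Function.update p k true l) (i l) (j l))
      (Finset.mem_univ k)]
  have e1 : ∀ b : Bool, ∏ l ∈ Finset.univ.erase k, qlK (p l) (Function.update i k b l) (j l) =
      ∏ l ∈ Finset.univ.erase k, qlK (p l) (i l) (j l) := by
    intro b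
    apply Finset.prod_congr rfl
    intro l hl
    rw [Function.update_of_ne (Finset.ne_of_mem_erase hl)]
  have e2 : ∏ l ∈ Finset.univ.erase k, qlK (Function.update p k true l) (i l) (j l) =
      ∏ l ∈ Finset.univ.erase k, qlK (p l) (i l) (j l) := by
    apply Finset.prod_congr rfl
    intro l hl
    rw [Function.update_of_ne (Finset.ne_of_mem_erase hl)]
  rw [e1, e1, e2]
  simp only [Function.update_self, hp]
  generalize ∏ l ∈ Finset.univ.erase k, qlK (p l) (i l) (j l) = X
  unfold qlK sg
  cases i k <;> cases j k <;> simp <;> ring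

theorem ql_list {κ : ℕ} (A : Oracle) (o : Bool) (φ : (Fin (3 + 3 * κ) → Bool) → ℝ) (c : ℕ) :
    ∀ j : ℕ, c + j ≤ 3 + 3 * κ →
      circAct A (((List.range j).map (· + (c + 3))).map had) (lift o φ) =
        lift o (HH (fun k => decide (c ≤ k.val ∧ k.val < c + j)) φ) := by
  intro j
  induction j with
  | zero =>
    intro _
    have e : (fun k : Fin (3 + 3 * κ) => decide (c ≤ k.val ∧ k.val < c + 0)) = fun _ => false := by
      funext k
      rw [decide_eq_false_iff_not]
      omega
    rw [e, ql_zero]
    rfl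
  | succ j ih =>
    intro hj
    rw [List.range_succ, List.map_append, List.map_append, ql_append, ih (by omega)]
    have hlt : c + j < 3 + 3 * κ := by omega
    have h1 := ql_one A o (HH (fun k => decide (c ≤ k.val ∧ k.val < c + j)) φ) ⟨c + j, hlt⟩
    have e1 : j + (c + 3) = c + j + 3 := by ring
    show gateAct A (had (j + (c + 3))) _ = _
    rw [e1]
    have h1' : gateAct A (had (c + j + 3)) (lift o (HH (fun k => decide (c ≤ k.val ∧ k.val < c + j)) φ))
      = lift o (qlH1 ⟨c + j, hlt⟩ (HH (fun k => decide (c ≤ k.val ∧ k.val < c + j)) φ)) := h1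
    rw [h1', ql_step _ _ (by rw [decide_eq_false_iff_not]; simp)]
    congr 2
    funext k
    by_cases hk : k = ⟨c + j, hlt⟩
    · subst hk
      rw [Function.update_self, eq_comm, decide_eq_true_iff]
      constructor
      · show c ≤ c + j
        omega
      · show c + j < c + (j + 1)
        omega
    · rw [Function.update_of_ne hk]
      have hne : k.val ≠ c + j := fun h => hk (Fin.ext h)
      apply decide_eq_decide.2
      omega

theorem QL : St_QL := by
  intro κ A o φ
  constructor
  · have h := ql_list A o φ 0 (3 + 3 * κ) (by omega)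
    have e : (fun k : Fin (3 + 3 * κ) => decide (0 ≤ k.val ∧ k.val < 0 + (3 + 3 * κ))) =
        fun _ => true := by
      funext k
      rw [decide_eq_true_iff]
      have := k.isLt
      omega
    rw [e] at h
    have e2 : (idxQ κ) = (List.range (3 + 3 * κ)).map (· + (0 + 3)) := by
      unfold idxQ
      rfl
    rw [e2]
    exact h
  · have h := ql_list A o φ (3 + κ) (2 * κ) (by omega)
    have e : (fun k : Fin (3 + 3 * κ) => decide (3 + κ ≤ k.val ∧ k.val < 3 + κ + 2 * κ)) =
        fun k => decide (3 + κ ≤ k.val) := by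
      funext k
      apply decide_eq_decide.2
      have := k.isLt
      omega
    rw [e] at h
    have e2 : (midQ κ) = (List.range (2 * κ)).map (· + (3 + κ + 3)) := by
      unfold midQ
      apply List.map_congr_left
      intro a _
      omega
    rw [e2]
    exact h

end Pool.Agent.H516R2.EQP
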