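import Pool.Agent.H516R2.EQP.Props

/-!
# Task R1: rounding
-/

namespace Pool.Agent.H516R2.EQP

open Pool.Agent.NPC Pool.Agent.H620R2.Gauge Finset H568R2 Pool.Agent.H676

section

variable {I : Type*} [Fintype I] [DecidableEq I]

lemma R1_prod (h : I → Bool → ℝ) (P : I → ℝ) :
    ml (fun a => ∏ i, h i (a i)) P =
      ∏ i, ((1 + P i) / 2 * h i false + (1 - P i) / 2 * h i true) := by
  unfold ml
  have e : ∀ a : I → Bool, (∏ i, (1 + sg (a i) * P i) / 2) * ∏ i, h i (a i) =
      ∏ i, (fun (i : I) (b : Bool) => (1 + sg b * P i) / 2 * h i b) i (a i) := by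
    intro a
    rw [← Finset.prod_mul_distrib]
  rw [Finset.sum_congr rfl (fun a _ => e a)]
  refine (sum_prod (fun (i : I) (b : Bool) => (1 + sg b * P i) / 2 * h i b)).trans ?_
  apply Finset.prod_congr rfl
  intro i _
  have h1 : sg false = 1 := by simp [sg]
  have h2 : sg true = -1 := by simp [sg]
  simp only [h1, h2]
  ring

lemma R1_add (f g : (I → Bool) → ℝ) (P : I → ℝ) :
    ml (fun a => f a + g a) P = ml f P + ml g P := by
  unfold ml
  rw [← Finset.sum_add_distrib]
  exact Finset.sum_congr rfl (fun a _ => by ring)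

lemma R1_smul (c : ℝ) (f : (I → Bool) → ℝ) (P : I → ℝ) :
    ml (fun a => c * f a) P = c * ml f P := by
  unfold ml
  rw [Finset.mul_sum]
  exact Finset.sum_congr rfl (fun a _ => by ring)

lemma R1_sum {K : Type*} (s : Finset K) (f : K → (I → Bool) → ℝ) (P : I → ℝ) :
    ml (fun a => ∑ k ∈ s, f k a) P = ∑ k ∈ s, ml (f k) P := by
  unfold ml
  rw [Finset.sum_comm]
  exact Finset.sum_congr rfl (fun a _ => by rw [Finset.mul_sum])

lemma R1_const (c : ℝ) (P : I → ℝ) : ml (fun _ : I → Bool => c) P = c := by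
  have h := R1_prod (fun _ _ => (1 : ℝ)) P
  have e : (fun _ : I → Bool => c) = fun a => c * (fun _ : I → Bool => ∏ i : I, (1 : ℝ)) a := by
    funext a; simp
  rw [e, R1_smul, h]
  have : ∀ i ∈ (univ : Finset I), (1 + P i) / 2 * 1 + (1 - P i) / 2 * 1 = (1 : ℝ) := by
    intro i _; ring
  rw [Finset.prod_congr rfl this]
  simp

lemma R1_mono {f g : (I → Bool) → ℝ} {P : I → ℝ} (hP : Box P) (h : ∀ a, f a ≤ g a) :
    ml f P ≤ ml g P := by
  unfold ml
  apply Finset.sum_le_sum
  intro a _
  apply mul_le_mul_of_nonneg_left (h a)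
  apply Finset.prod_nonneg
  intro i _
  have := abs_le.1 (hP i)
  cases a i <;> simp [sg] <;> linarith [this.1, this.2]

lemma R1_one (P : I → ℝ) (u : I) : ml (fun a => sg (a u) - P u) P = 0 := by
  have h := R1_prod (fun i b => if i = u then sg b - P i else 1) P
  have e : (fun a : I → Bool => ∏ i, (fun i b => if i = u then sg b - P i else 1) i (a i)) =
      fun a => sg (a u) - P u := by
    funext a
    simp
  rw [e] at h
  rw [h]
  apply Finset.prod_eq_zero (Finset.mem_univ u)
  simp [sg]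
  ring

lemma R1_two (P : I → ℝ) (u v : I) : ml (fun a => (sg (a u) - P u) * (sg (a v) - P v)) P =
    if u = v then 1 - P u ^ 2 else 0 := by
  have h := R1_prod (fun i b => (if i = u then sg b - P i else 1) *
    (if i = v then sg b - P i else 1)) P
  have e : (fun a : I → Bool => ∏ i, (fun i b => (if i = u then sg b - P i else 1) *
    (if i = v then sg b - P i else 1)) i (a i)) =
      fun a => (sg (a u) - P u) * (sg (a v) - P v) := by
    funext a
    simp only []
    rw [Finset.prod_mul_distrib]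
    simp
  rw [e] at h
  rw [h]
  split_ifs with huv
  · subst huv
    rw [Finset.prod_eq_single u]
    · simp [sg]
      ring
    · intro i _ hi
      simp [hi]
      ring
    · simp
  · apply Finset.prod_eq_zero (Finset.mem_univ u)
    simp [sg, huv]
    ring

/-- second moment of an affine function -/
lemma R1_sq (P : I → ℝ) (A : ℝ) (c : I → ℝ) :
    ml (fun a => (A + ∑ v, c v * (sg (a v) - P v)) ^ 2) P = A ^ 2 + ∑ v, c v ^ 2 * (1 - P v ^ 2) := by
  have e : (fun a : I → Bool => (A + ∑ v, c v * (sg (a v) - P v)) ^ 2) = fun a =>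
      (fun _ => A ^ 2) a + ((fun a => 2 * A * (fun a => ∑ v, (fun v a => c v *
        (fun a => sg (a v) - P v) a) v a) a) a +
        (fun a => ∑ u, (fun u a => ∑ v, (fun v a => (c u * c v) *
          (fun a => (sg (a u) - P u) * (sg (a v) - P v)) a) v a) u a) a) := by
    funext a
    simp only []
    have h1 : (∑ v, c v * (sg (a v) - P v)) ^ 2 =
        ∑ u, ∑ v, (c u * c v) * ((sg (a u) - P u) * (sg (a v) - P v)) := by
      rw [sq, Finset.sum_mul_sum]
      apply Finset.sum_congr rfl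
      intro u _
      apply Finset.sum_congr rfl
      intro v _
      ring
    rw [← h1]
    ring
  rw [e, R1_add, R1_add, R1_const, R1_smul, R1_sum, R1_sum]
  have h0 : ∀ v : I, ml (fun a : I → Bool => c v * (fun a : I → Bool => sg (a v) - P v) a) P = 0 := by
    intro v
    rw [R1_smul, R1_one, mul_zero]
  have h2 : ∀ u : I, ml (fun a : I → Bool => ∑ v, (fun v a => (c u * c v) *
          (fun a : I → Bool => (sg (a u) - P u) * (sg (a v) - P v)) a) v a) P =
      c u ^ 2 * (1 - P u ^ 2) := by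
    intro u
    rw [R1_sum]
    have : ∀ v : I, ml (fun a : I → Bool => (c u * c v) *
          (fun a : I → Bool => (sg (a u) - P u) * (sg (a v) - P v)) a) P =
        if u = v then c u ^ 2 * (1 - P u ^ 2) else 0 := by
      intro v
      rw [R1_smul, R1_two]
      split_ifs with huv
      · subst huv; ring
      · ring
    rw [Finset.sum_congr rfl (fun v _ => this v)]
    simp
  rw [Finset.sum_congr rfl (fun v _ => h0 v), Finset.sum_congr rfl (fun u _ => h2 u)]
  simp

end

/-- splitting the cube of a sum type -/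
lemma R1_split {V V' : Type*} [Fintype V] [DecidableEq V] [Fintype V'] [DecidableEq V']
    (f : (V ⊕ V' → Bool) → ℝ) (P : V ⊕ V' → ℝ) :
    ml f P = ml (fun x : V → Bool => ml (fun y : V' → Bool => f (Sum.elim x y))
      (fun v => P (Sum.inr v))) (fun u => P (Sum.inl u)) := by
  unfold ml
  rw [← (Equiv.sumArrowEquivProdArrow V V' Bool).symm.sum_comp, Fintype.sum_prod_type]
  apply Finset.sum_congr rfl
  intro x _
  rw [Finset.mul_sum]
  apply Finset.sum_congr rfl
  intro y _
  rw [Fintype.prod_sum_type]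
  have e : (Equiv.sumArrowEquivProdArrow V V' Bool).symm (x, y) = Sum.elim x y := rfl
  rw [e]
  simp only [Sum.elim_inl, Sum.elim_inr]
  ring

lemma R1_FF {κ : ℕ} (x y : U κ → Bool) :
    (FF (Sum.elim x y) : ℝ) / 8 ^ κ = (∑ u, ∑ v, sg (x u) * Hd u v * sg (y v)) / 4 ^ κ := by
  have hsz : ∀ b : Bool, ((sz b : ℤ) : ℝ) = sg b := by
    intro b; cases b <;> simp [sz, sg]
  unfold FF
  push_cast
  have h8 : (8 : ℝ) ^ κ = 4 ^ κ * 2 ^ κ := by rw [← mul_pow]; norm_num
  rw [h8, div_mul_eq_div_div_swap]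
  congr 1
  rw [Finset.sum_div]
  apply Finset.sum_congr rfl
  intro u _
  rw [Finset.sum_div]
  apply Finset.sum_congr rfl
  intro v _
  simp only [Sum.elim_inl, Sum.elim_inr, hsz, Hd]
  ring

theorem R1 (hB : St_B) : St_R1 := by
  classical
  intro κ P hP
  obtain ⟨hsym, habs, horth, hiso, -, -, -, -, hcard, -⟩ := hB κ
  set X : U κ → ℝ := fun u => P (Sum.inl u) with hX
  set Y : U κ → ℝ := fun v => P (Sum.inr v) with hY
  have hXb : Box X := fun u => hP _
  have hYb : Box Y := fun v => hP _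
  have h4 : (0 : ℝ) < 4 ^ κ := by positivity
  have h2 : (0 : ℝ) < 2 ^ κ := by positivity
  have h42 : ((2 : ℝ) ^ κ) ^ 2 = 4 ^ κ := by rw [← pow_mul, mul_comm, pow_mul]; norm_num
  have hsq : ∀ Z : U κ → ℝ, Box Z → ∑ u, Z u ^ 2 ≤ 4 ^ κ := by
    intro Z hZ
    calc ∑ u, Z u ^ 2 ≤ ∑ u : U κ, (1 : ℝ) := by
          apply Finset.sum_le_sum
          intro u _
          have := abs_le.1 (hZ u)
          nlinarith [this.1, this.2]
      _ = 4 ^ κ := by
          rw [Finset.sum_const, Finset.card_univ, hcard]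
          simp
  -- second moment
  have hmom : ml (fun a : U κ ⊕ U κ → Bool => ((FF a : ℝ) / 8 ^ κ - Sf P) ^ 2) P ≤ 2 / 4 ^ κ := by
    rw [R1_split]
    have hin : ∀ x : U κ → Bool, ml (fun y : U κ → Bool =>
        ((FF (Sum.elim x y) : ℝ) / 8 ^ κ - Sf P) ^ 2) Y ≤
        (0 + ∑ u, ((∑ v, Hd u v * Y v) / 4 ^ κ) * (sg (x u) - X u)) ^ 2 + 1 / 4 ^ κ := by
      intro x
      have e : (fun y : U κ → Bool => ((FF (Sum.elim x y) : ℝ) / 8 ^ κ - Sf P) ^ 2) =
          fun y => ((0 + ∑ u, ((∑ v, Hd u v * Y v) / 4 ^ κ) * (sg (x u) - X u)) +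
            ∑ v, ((∑ u, Hd v u * sg (x u)) / 4 ^ κ) * (sg (y v) - Y v)) ^ 2 := by
        funext y
        congr 1
        rw [R1_FF, Sf, zero_add]
        have a1 : ∑ u, ((∑ v, Hd u v * Y v) / 4 ^ κ) * (sg (x u) - X u) =
            (∑ u, ∑ v, (sg (x u) - X u) * Hd u v * Y v) / 4 ^ κ := by
          rw [Finset.sum_div]
          apply Finset.sum_congr rfl
          intro u _
          rw [div_mul_eq_mul_div, Finset.sum_mul]
          congr 1
          apply Finset.sum_congr rfl
          intro v _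
          ring
        have a2 : ∑ v, ((∑ u, Hd v u * sg (x u)) / 4 ^ κ) * (sg (y v) - Y v) =
            (∑ u, ∑ v, sg (x u) * Hd u v * (sg (y v) - Y v)) / 4 ^ κ := by
          rw [Finset.sum_comm, Finset.sum_div]
          apply Finset.sum_congr rfl
          intro v _
          rw [div_mul_eq_mul_div, Finset.sum_mul]
          congr 1
          apply Finset.sum_congr rfl
          intro u _
          rw [hsym v u]
          ring
        rw [a1, a2, ← sub_div, ← add_div]
        congr 1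
        rw [← Finset.sum_sub_distrib, ← Finset.sum_add_distrib]
        apply Finset.sum_congr rfl
        intro u _
        rw [← Finset.sum_sub_distrib, ← Finset.sum_add_distrib]
        apply Finset.sum_congr rfl
        intro v _
        simp only [hX, hY]
        ring
      rw [e, R1_sq]
      gcongr
      calc ∑ v, ((∑ u, Hd v u * sg (x u)) / 4 ^ κ) ^ 2 * (1 - Y v ^ 2)
          ≤ ∑ v, ((∑ u, Hd v u * sg (x u)) / 4 ^ κ) ^ 2 := by
            apply Finset.sum_le_sum
            intro v _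
            have : 0 ≤ ((∑ u, Hd v u * sg (x u)) / 4 ^ κ) ^ 2 * Y v ^ 2 := by positivity
            linarith
        _ = (∑ v, (∑ u, Hd v u * sg (x u)) ^ 2) / (4 ^ κ) ^ 2 := by
            rw [Finset.sum_div]
            apply Finset.sum_congr rfl
            intro v _
            rw [div_pow]
        _ = (∑ u, sg (x u) ^ 2) / (4 ^ κ) ^ 2 := by rw [hiso]
        _ = 1 / 4 ^ κ := by
            have : ∀ u ∈ (univ : Finset (U κ)), sg (x u) ^ 2 = (1 : ℝ) := by
              intro u _
              cases x u <;> simp [sg]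
            rw [Finset.sum_congr rfl this, Finset.sum_const, Finset.card_univ, hcard]
            field_simp
            simp
    calc ml (fun x : U κ → Bool => ml (fun y : U κ → Bool =>
        ((FF (Sum.elim x y) : ℝ) / 8 ^ κ - Sf P) ^ 2) Y) X
        ≤ ml (fun x : U κ → Bool =>
          (fun x : U κ → Bool =>
            (0 + ∑ u, ((∑ v, Hd u v * Y v) / 4 ^ κ) * (sg (x u) - X u)) ^ 2) x +
            (fun _ => 1 / 4 ^ κ) x) X := R1_mono hXb hin
      _ = (∑ u, ((∑ v, Hd u v * Y v) / 4 ^ κ) ^ 2 * (1 - X u ^ 2)) + 1 / 4 ^ κ := by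
          rw [R1_add, R1_sq, R1_const]
          ring
      _ ≤ 1 / 4 ^ κ + 1 / 4 ^ κ := by
          gcongr
          calc ∑ u, ((∑ v, Hd u v * Y v) / 4 ^ κ) ^ 2 * (1 - X u ^ 2)
              ≤ ∑ u, ((∑ v, Hd u v * Y v) / 4 ^ κ) ^ 2 := by
                apply Finset.sum_le_sum
                intro v _
                have : 0 ≤ ((∑ u, Hd v u * Y u) / 4 ^ κ) ^ 2 * X v ^ 2 := by positivity
                linarith
            _ = (∑ v, (∑ u, Hd v u * Y u) ^ 2) / (4 ^ κ) ^ 2 := by
                rw [Finset.sum_div]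
                apply Finset.sum_congr rfl
                intro v _
                rw [div_pow]
            _ = (∑ u, Y u ^ 2) / (4 ^ κ) ^ 2 := by rw [hiso]
            _ ≤ 4 ^ κ / (4 ^ κ) ^ 2 := by
                gcongr
                exact hsq Y hYb
            _ = 1 / 4 ^ κ := by
                field_simp
      _ = 2 / 4 ^ κ := by ring
  -- Chebyshev
  have hpt : ∀ a : U κ ⊕ U κ → Bool,
      (fun _ : U κ ⊕ U κ → Bool => (1 : ℝ)) a + (fun a => (-(4 ^ κ / 100)) *
        (fun a : U κ ⊕ U κ → Bool => ((FF a : ℝ) / 8 ^ κ - Sf P) ^ 2) a) a ≤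
      if |(FF a : ℝ) / 8 ^ κ - Sf P| ≤ 10 / 2 ^ κ then (1 : ℝ) else 0 := by
    intro a
    simp only []
    split_ifs with h
    · have : 0 ≤ (4 : ℝ) ^ κ / 100 * ((FF a : ℝ) / 8 ^ κ - Sf P) ^ 2 := by positivity
      linarith
    · push Not at h
      have h5 : (10 / 2 ^ κ : ℝ) ^ 2 ≤ |(FF a : ℝ) / 8 ^ κ - Sf P| ^ 2 := by
        gcongr
      rw [sq_abs, div_pow, h42] at h5
      have h6 : (4 : ℝ) ^ κ / 100 * (10 ^ 2 / 4 ^ κ) ≤
          4 ^ κ / 100 * ((FF a : ℝ) / 8 ^ κ - Sf P) ^ 2 := by gcongr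
      have h7 : (4 : ℝ) ^ κ / 100 * (10 ^ 2 / 4 ^ κ) = 1 := by
        field_simp
        norm_num
      linarith
  have hfin := R1_mono hP hpt
  rw [R1_add, R1_const, R1_smul] at hfin
  have h8 : (4 : ℝ) ^ κ / 100 * ml (fun a : U κ ⊕ U κ → Bool =>
      ((FF a : ℝ) / 8 ^ κ - Sf P) ^ 2) P ≤ 4 ^ κ / 100 * (2 / 4 ^ κ) := by gcongr
  have h9 : (4 : ℝ) ^ κ / 100 * (2 / 4 ^ κ) = 1 / 50 := by
    field_simp
    norm_num
  linarith

end Pool.Agent.H516R2.EQP
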