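import Pool.Agent.H516R2.EQP.Props

/-!
# Task Z1: room
-/

namespace Pool.Agent.H516R2.EQP

open Pool.Agent.NPC Pool.Agent.H620R2.Gauge Finset H568R2 Pool.Agent.H676

lemma Z1_even {J : Type*} [Fintype J] [DecidableEq J] (z : J → Bool) :
    Even (SS z + Fintype.card J) := by
  have h : SS z + Fintype.card J = ∑ i : J, (sz (z i) + 1) := by
    rw [Finset.sum_add_distrib]
    simp [SS]
  rw [h]
  apply Finset.sum_induction _ (fun n : ℤ => Even n) (fun a b ha hb => ha.add hb) (by simp)
  intro i _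
  cases z i
  · exact ⟨1, by simp [sz]⟩
  · exact ⟨0, by simp [sz]⟩

lemma Z1_flip {J : Type*} [Fintype J] [DecidableEq J] (ρ : Restr J) (w : J → Bool) (b : Bool)
    (T : Finset J) (hT : ∀ i ∈ T, ρ i = none ∧ w i = b) :
    SS (ov ρ (fun i => if i ∈ T then !b else w i)) = SS (ov ρ w) + T.card * (sz (!b) - sz b) := by
  have h : ∀ i : J, sz (ov ρ (fun i => if i ∈ T then !b else w i) i) =
      sz (ov ρ w i) + (if i ∈ T then (sz (!b) - sz b) else 0) := by
    intro i
    by_cases hi : i ∈ T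
    · obtain ⟨h1, h2⟩ := hT i hi
      simp [ov, h1, hi, h2]
    · simp [ov, hi]
  unfold SS
  rw [Finset.sum_congr rfl (fun i _ => h i), Finset.sum_add_distrib, Finset.sum_ite_mem]
  simp
  ring

lemma Z1_main {J : Type*} [Fintype J] [DecidableEq J] (f : (J → Bool) → Bool)
    (ρ : Restr J) (t d D : ℕ) (s : ℤ) (w : J → Bool) (b : Bool) (A : Finset J) (hA : A.card ≤ t)
    (hcert : ∀ y, (∀ i ∈ A, y i = w i) → rs f ρ y = false)
    (hs : ∀ z, SS z = s → f z = true)
    (hD : SS (ov ρ w) + D * (sz (!b) - sz b) = s) (hDd : D ≤ d)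
    (hroom : d + t ≤ (univ.filter (fun i => ρ i = none ∧ w i = b)).card) : False := by
  have h1 : D ≤ ((univ.filter (fun i => ρ i = none ∧ w i = b)) \ A).card := by
    have := Finset.le_card_sdiff A (univ.filter (fun i => ρ i = none ∧ w i = b))
    omega
  obtain ⟨T, hTs, hTc⟩ := Finset.exists_subset_card_eq h1
  have hT : ∀ i ∈ T, ρ i = none ∧ w i = b := by
    intro i hi
    have := hTs hi
    rw [Finset.mem_sdiff, Finset.mem_filter] at this
    exact this.1.2
  have h2 := hs _ (by rw [Z1_flip ρ w b T hT, hTc]; exact hD)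
  have h3 := hcert (fun i => if i ∈ T then !b else w i) (by
    intro i hi
    have : i ∉ T := fun h => (Finset.mem_sdiff.1 (hTs h)).2 hi
    simp [this])
  rw [rs] at h3
  rw [h2] at h3
  exact absurd h3 (by simp)

theorem Z1 : St_Z1 := by
  intro J _ _ f ρ t d s w hcert heven hs hd h1 h2
  by_contra hcon
  have hf : rs f ρ w = false := by
    unfold rs
    simpa using hcon
  obtain ⟨A, hA, hy⟩ := hcert w hf
  have he : Even (s - SS (ov ρ w)) := by
    have := heven.sub (Z1_even (ov ρ w))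
    have e : s + (Fintype.card J : ℤ) - (SS (ov ρ w) + Fintype.card J) = s - SS (ov ρ w) := by ring
    rwa [e] at this
  obtain ⟨r, hr⟩ := he
  rw [abs_le] at hd
  rcases le_total 0 r with h0 | h0
  · obtain ⟨D, rfl⟩ := Int.eq_ofNat_of_zero_le h0
    refine Z1_main f ρ t d D s w true A hA hy hs ?_ (by omega) h1
    simp [sz]
    omega
  · obtain ⟨D, hD⟩ := Int.eq_ofNat_of_zero_le (neg_nonneg.2 h0)
    refine Z1_main f ρ t d D s w false A hA hy hs ?_ (by omega) h2
    simp [sz]
    omega

end Pool.Agent.H516R2.EQP
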