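import Pool.Agent.H516R2.EQP.Props

/-! Task Z2 (helper153): room with high probability. -/

namespace Pool.Agent.H516R2.EQP

open Pool.Agent.NPC Pool.Agent.H620R2.Gauge Finset H568R2 Pool.Agent.H676

section

variable {J : Type} [Fintype J] [DecidableEq J]

private lemma Z2_unif_sum : ∑ a, unif a = 1 := by
  rw [Fintype.sum_bool]; unfold unif; norm_num

private lemma Z2_unif_nonneg (a : Bool) : 0 ≤ unif a := by unfold unif; norm_num

private noncomputable def Z2_s (b : Bool) : ℝ := ((sz b : ℤ) : ℝ)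

private lemma Z2_two (a c : J) :
    Ex unif (fun z : J → Bool => Z2_s (z a) * Z2_s (z c)) = if a = c then (1 : ℝ) else 0 := by
  by_cases h : a = c
  · subst h
    rw [if_pos rfl]
    have : (fun z : J → Bool => Z2_s (z a) * Z2_s (z a)) = fun _ => (1 : ℝ) := by
      funext z
      unfold Z2_s sz
      cases z a <;> simp
    rw [this, Ex_const Z2_unif_sum]
  · rw [if_neg h]
    unfold Ex
    have h1 : ∀ z : J → Bool, (∏ i, unif (z i)) * (Z2_s (z a) * Z2_s (z c)) =
        ∏ i, (unif (z i) * (if i = a then Z2_s (z i) else 1) * (if i = c then Z2_s (z i) else 1)) := by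
      intro z
      rw [Finset.prod_mul_distrib, Finset.prod_mul_distrib, Finset.prod_ite_eq',
        Finset.prod_ite_eq', if_pos (Finset.mem_univ _), if_pos (Finset.mem_univ _)]
      ring
    rw [Finset.sum_congr rfl fun z _ => h1 z]
    rw [sum_prod (fun i b => unif b * (if i = a then Z2_s b else 1) * (if i = c then Z2_s b else 1))]
    apply Finset.prod_eq_zero (Finset.mem_univ a)
    simp only [if_true, if_neg h]
    unfold unif Z2_s sz
    norm_num

private lemma Z2_second : Ex unif (fun z : J → Bool => ((SS z : ℤ) : ℝ) ^ 2) = Fintype.card J := by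
  have h1 : (fun z : J → Bool => ((SS z : ℤ) : ℝ) ^ 2) =
      fun z => ∑ a : J, ∑ c : J, Z2_s (z a) * Z2_s (z c) := by
    funext z
    unfold SS Z2_s
    push_cast
    rw [sq, Finset.sum_mul_sum]
  rw [h1, Ex_sum]
  have h2 : ∀ a : J, Ex unif (fun z : J → Bool => ∑ c : J, Z2_s (z a) * Z2_s (z c)) = 1 := by
    intro a
    rw [Ex_sum, Finset.sum_congr rfl fun c _ => Z2_two a c, Finset.sum_ite_eq]
    simp
  rw [Finset.sum_congr rfl fun a _ => h2 a]
  simp

open Classical in
private lemma Z2_cheb (T : ℝ) (hT : 0 < T) :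
    Ex unif (fun z : J → Bool => if |((SS z : ℤ) : ℝ)| ≤ T then (0 : ℝ) else 1) ≤
      Fintype.card J / T ^ 2 := by
  have h1 : ∀ z : J → Bool, (if |((SS z : ℤ) : ℝ)| ≤ T then (0 : ℝ) else 1) ≤
      (1 / T ^ 2) * ((SS z : ℤ) : ℝ) ^ 2 := by
    intro z
    split_ifs with h
    · positivity
    · push Not at h
      rw [div_mul_eq_mul_div, one_mul, le_div_iff₀ (by positivity), one_mul, ← sq_abs ((SS z : ℤ) : ℝ)]
      exact pow_le_pow_left₀ hT.le h.le 2
  refine (Ex_mono Z2_unif_nonneg h1).trans (le_of_eq ?_)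
  rw [Ex_smul, Z2_second]
  ring

private lemma Z2_SS (w : J → Bool) : (SS w : ℤ) =
    ((Finset.univ.filter (fun i => w i = false)).card : ℤ) -
      ((Finset.univ.filter (fun i => w i = true)).card : ℤ) := by
  unfold SS
  have h1 : ∀ i : J, sz (w i) = (if w i = false then (1 : ℤ) else 0) - (if w i = true then 1 else 0) := by
    intro i
    unfold sz
    cases w i <;> simp
  rw [Finset.sum_congr rfl fun i _ => h1 i, Finset.sum_sub_distrib]
  simp

private lemma Z2_card (w : J → Bool) :
    (Finset.univ.filter (fun i => w i = false)).card +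
      (Finset.univ.filter (fun i => w i = true)).card = Fintype.card J := by
  rw [add_comm]
  have h := Finset.card_filter_add_card_filter_not (s := (Finset.univ : Finset J)) (fun i => w i = true)
  rw [Finset.card_univ] at h
  rw [← h]
  congr 2
  ext i
  simp

private lemma Z2_comm {A B : Type*} [Fintype A] [Fintype B] (w : A → ℝ) (v : B → ℝ)
    (F : (J → A) → (J → B) → ℝ) :
    Ex w (fun ρ => Ex v (fun x => F ρ x)) = Ex v (fun x => Ex w (fun ρ => F ρ x)) := by
  unfold Ex
  simp_rw [Finset.mul_sum]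
  rw [Finset.sum_comm]
  apply Finset.sum_congr rfl
  intro x _
  apply Finset.sum_congr rfl
  intro ρ _
  ring

open Classical in
/-- few stars in the set where `w` takes the value `b` -/
private lemma Z2_few {q : ℝ} (h0 : 0 ≤ q) (h1 : q ≤ 1) {r s : ℕ} (hr : 1 ≤ r)
    (h4 : 4 * r * s ≤ Fintype.card J) (b : Bool) :
    Ex (wq q) (fun ρ : Restr J => Ex unif (fun w : J → Bool =>
      if |((SS w : ℤ) : ℝ)| ≤ (Fintype.card J : ℝ) / 2 ∧
        (univ.filter (fun i => ρ i = none ∧ w i = b)).card < r then (1 : ℝ) else 0)) ≤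
      r * (1 - q) ^ s := by
  rw [Z2_comm]
  have hq : 0 ≤ 1 - q := by linarith
  have key : ∀ w : J → Bool, Ex (wq q) (fun ρ : Restr J =>
      if |((SS w : ℤ) : ℝ)| ≤ (Fintype.card J : ℝ) / 2 ∧
        (univ.filter (fun i => ρ i = none ∧ w i = b)).card < r then (1 : ℝ) else 0) ≤
      r * (1 - q) ^ s := by
    intro w
    by_cases hS : |((SS w : ℤ) : ℝ)| ≤ (Fintype.card J : ℝ) / 2
    · set B : Finset J := Finset.univ.filter (fun i => w i = b) with hB
      have hBcard : r * s ≤ B.card := by
        have h5 := Z2_SS w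
        have h6 := Z2_card w
        have h7 : 2 * |(SS w : ℤ)| ≤ (Fintype.card J : ℤ) := by
          have : 2 * |((SS w : ℤ) : ℝ)| ≤ (Fintype.card J : ℝ) := by linarith
          exact_mod_cast this
        have h8 : Fintype.card J ≤ 4 * B.card := by
          have h9 := le_abs_self (SS w)
          have h10 := neg_abs_le (SS w)
          cases b
          · have : B = Finset.univ.filter (fun i => w i = false) := rfl
            rw [this]; omega
          · have : B = Finset.univ.filter (fun i => w i = true) := rfl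
            rw [this]; omega
        have : 4 * (r * s) ≤ 4 * B.card := by
          have e : 4 * (r * s) = 4 * r * s := by ring
          rw [e]; exact h4.trans h8
        omega
      have h5 := few_stars h0 h1 B (r - 1) s (by rw [Nat.sub_add_cancel hr]; exact hBcard)
      have e : ((r - 1 : ℕ) : ℝ) + 1 = r := by
        have : ((r - 1 : ℕ) : ℝ) = (r : ℝ) - 1 := by
          rw [Nat.cast_sub hr]; norm_num
        rw [this]; ring
      rw [e] at h5
      refine le_trans (Ex_mono (wq_nonneg h0 h1) fun ρ => ?_) h5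
      have e2 : (univ.filter (fun i => ρ i = none ∧ w i = b)) = B.filter (fun i => ρ i = none) := by
        rw [hB, Finset.filter_filter]
        congr 1
        ext i
        tauto
      rw [e2]
      by_cases h6 : (B.filter (fun i => ρ i = none)).card < r
      · rw [if_pos ⟨hS, h6⟩, if_pos (by omega)]
      · rw [if_neg (fun h => h6 h.2)]
        split_ifs <;> norm_num
    · have e : (fun ρ : Restr J => if |((SS w : ℤ) : ℝ)| ≤ (Fintype.card J : ℝ) / 2 ∧
        (univ.filter (fun i => ρ i = none ∧ w i = b)).card < r then (1 : ℝ) else 0) =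
          fun _ => (0 : ℝ) := by
        funext ρ
        rw [if_neg (fun h => hS h.1)]
      rw [e, Ex_const (wq_sum q)]
      positivity
  refine (Ex_mono Z2_unif_nonneg key).trans (le_of_eq ?_)
  rw [Ex_const Z2_unif_sum]

end

theorem Z2 : St_Z2 := by
  intro J _ _ q r s h0 h1 hr hM h4
  classical
  have hM' : (0 : ℝ) < Fintype.card J := by exact_mod_cast hM
  have hsq : 0 < Real.sqrt (Fintype.card J) := Real.sqrt_pos.2 hM'
  have hpt : ∀ (ρ : Restr J) (w : J → Bool),
      (if (|SS (ov ρ w)| : ℝ) ≤ 10 * Real.sqrt (Fintype.card J) ∧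
      r ≤ (univ.filter (fun i => ρ i = none ∧ w i = true)).card ∧
      r ≤ (univ.filter (fun i => ρ i = none ∧ w i = false)).card then (0 : ℝ) else 1) ≤
      ((if |((SS (ov ρ w) : ℤ) : ℝ)| ≤ 10 * Real.sqrt (Fintype.card J) then (0 : ℝ) else 1) +
      (if |((SS w : ℤ) : ℝ)| ≤ (Fintype.card J : ℝ) / 2 then (0 : ℝ) else 1)) +
      ((if |((SS w : ℤ) : ℝ)| ≤ (Fintype.card J : ℝ) / 2 ∧
        (univ.filter (fun i => ρ i = none ∧ w i = true)).card < r then (1 : ℝ) else 0) +
      (if |((SS w : ℤ) : ℝ)| ≤ (Fintype.card J : ℝ) / 2 ∧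
        (univ.filter (fun i => ρ i = none ∧ w i = false)).card < r then (1 : ℝ) else 0)) := by
    intro ρ w
    by_cases hA : |((SS (ov ρ w) : ℤ) : ℝ)| ≤ 10 * Real.sqrt (Fintype.card J)
    · by_cases hB : |((SS w : ℤ) : ℝ)| ≤ (Fintype.card J : ℝ) / 2
      · by_cases hC : (univ.filter (fun i => ρ i = none ∧ w i = true)).card < r
        · rw [if_neg (fun h => by omega), if_pos hA, if_pos hB, if_pos ⟨hB, hC⟩]
          split_ifs <;> norm_num
        · by_cases hD : (univ.filter (fun i => ρ i = none ∧ w i = false)).card < r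
          · rw [if_neg (fun h => by omega), if_pos hA, if_pos hB, if_neg (fun h => hC h.2),
              if_pos ⟨hB, hD⟩]
            norm_num
          · rw [if_pos ⟨hA, by omega, by omega⟩]
            split_ifs <;> norm_num
      · rw [if_neg (c := |((SS w : ℤ) : ℝ)| ≤ (Fintype.card J : ℝ) / 2) hB]
        split_ifs <;> norm_num
    · rw [if_neg (fun h => hA h.1), if_neg hA]
      split_ifs <;> norm_num
  have hmono := Ex_mono (wq_nonneg h0 h1) (fun ρ : Restr J =>
    Ex_mono Z2_unif_nonneg (fun w : J → Bool => hpt ρ w))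
  refine hmono.trans ?_
  have hlin : Ex (wq q) (fun ρ : Restr J => Ex unif (fun w : J → Bool =>
      ((if |((SS (ov ρ w) : ℤ) : ℝ)| ≤ 10 * Real.sqrt (Fintype.card J) then (0 : ℝ) else 1) +
      (if |((SS w : ℤ) : ℝ)| ≤ (Fintype.card J : ℝ) / 2 then (0 : ℝ) else 1)) +
      ((if |((SS w : ℤ) : ℝ)| ≤ (Fintype.card J : ℝ) / 2 ∧
        (univ.filter (fun i => ρ i = none ∧ w i = true)).card < r then (1 : ℝ) else 0) +
      (if |((SS w : ℤ) : ℝ)| ≤ (Fintype.card J : ℝ) / 2 ∧
        (univ.filter (fun i => ρ i = none ∧ w i = false)).card < r then (1 : ℝ) else 0)))) =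
      (Ex (wq q) (fun ρ : Restr J => Ex unif (fun w : J → Bool =>
        (if |((SS (ov ρ w) : ℤ) : ℝ)| ≤ 10 * Real.sqrt (Fintype.card J) then (0 : ℝ) else 1))) +
      Ex (wq q) (fun _ : Restr J => Ex unif (fun w : J → Bool =>
        (if |((SS w : ℤ) : ℝ)| ≤ (Fintype.card J : ℝ) / 2 then (0 : ℝ) else 1)))) +
      (Ex (wq q) (fun ρ : Restr J => Ex unif (fun w : J → Bool =>
        (if |((SS w : ℤ) : ℝ)| ≤ (Fintype.card J : ℝ) / 2 ∧
        (univ.filter (fun i => ρ i = none ∧ w i = true)).card < r then (1 : ℝ) else 0))) +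
      Ex (wq q) (fun ρ : Restr J => Ex unif (fun w : J → Bool =>
        (if |((SS w : ℤ) : ℝ)| ≤ (Fintype.card J : ℝ) / 2 ∧
        (univ.filter (fun i => ρ i = none ∧ w i = false)).card < r then (1 : ℝ) else 0)))) := by
    simp only [Ex_add]
  rw [hlin, Ex_ov (fun z : J → Bool =>
    if |((SS z : ℤ) : ℝ)| ≤ 10 * Real.sqrt (Fintype.card J) then (0 : ℝ) else 1),
    Ex_const (wq_sum q)]
  have b1 := Z2_cheb (J := J) (10 * Real.sqrt (Fintype.card J)) (by positivity)
  have b2 := Z2_cheb (J := J) ((Fintype.card J : ℝ) / 2) (by positivity)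
  have b3 := Z2_few (J := J) h0 h1 hr h4 true
  have b4 := Z2_few (J := J) h0 h1 hr h4 false
  have e1 : (Fintype.card J : ℝ) / (10 * Real.sqrt (Fintype.card J)) ^ 2 = 1 / 100 := by
    rw [mul_pow, Real.sq_sqrt hM'.le]
    field_simp
    norm_num
  have e2 : (Fintype.card J : ℝ) / ((Fintype.card J : ℝ) / 2) ^ 2 = 4 / (Fintype.card J : ℝ) := by
    field_simp
    norm_num
  rw [e1] at b1
  rw [e2] at b2
  linarith

end Pool.Agent.H516R2.EQP
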