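import Pool.Agent.H516R2.EQP.B
import Pool.Agent.H516R2.EQP.QL
import Pool.Agent.H516R2.EQP.QG
import Pool.Agent.H516R2.EQP.QF
import Pool.Agent.H516R2.EQP.QC
import Pool.Agent.H516R2.EQP.AL
import Pool.Agent.H516R2.EQP.DE
import Pool.Agent.H516R2.EQP.DS
import Pool.Agent.H516R2.EQP.DQ
import Pool.Agent.H516R2.EQP.L1
import Pool.Agent.H516R2.EQP.L2
import Pool.Agent.H516R2.EQP.Z1
import Pool.Agent.H516R2.EQP.Z2
import Pool.Agent.H516R2.EQP.Z3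
import Pool.Agent.H516R2.EQP.M1
import Pool.Agent.H516R2.EQP.M2
import Pool.Agent.H516R2.EQP.M3
import Pool.Agent.H516R2.EQP.M4
import Pool.Agent.H516R2.EQP.P1
import Pool.Agent.H516R2.EQP.P2
import Pool.Agent.H516R2.EQP.P3
import Pool.Agent.H516R2.EQP.P4
import Pool.Agent.H516R2.EQP.P5
import Pool.Agent.H516R2.EQP.R1
import Pool.Agent.H516R2.EQP.CM
import Pool.Agent.H516R2.EQP.AS
import Pool.Agent.H516R2.EQP.H1
import Pool.Agent.H516R2.EQP.H2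
import Pool.Agent.H516R2.EQP.FI

/-! The assembly. -/

namespace Pool.Agent.H516R2.EQP

theorem all_H1 : St_H1 :=
  H1 B DS (L2 L1) (Z3 Z1 Z2)
    (CM (M4 (M3 (M1 B) M2) (P3 B)) (P5 (P3 B) (P4 (P1 B) (P2 B) (P3 B))) (R1 B) (P3 B)) AS

theorem all_FI : St_FI := FI (task_QF QL QG) QC AL DE DQ (H2 DS all_H1)

end Pool.Agent.H516R2.EQP
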