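import Pool.Agent.H516R2.EQP.Props

/-! # Every quantified function errs -/

namespace Pool.Agent.H516R2.EQP

open Pool.Agent.NPC Pool.Agent.H620R2.Gauge Finset H568R2 Pool.Agent.H676

/-- the change of signs -/
def H2_c {κ : ℕ} : Cube κ → Bool
  | Sum.inl (Sum.inl _) => false
  | Sum.inl (Sum.inr _) => true
  | Sum.inr _ => true

theorem H2_yes {κ : ℕ} (a : Cube κ → Bool) (h : Yes a) : No (fun i => a i ^^ H2_c i) := by
  unfold Yes at h
  unfold No
  have hsz : ∀ b : Bool, sz (b ^^ true) = - sz b := by
    intro b; cases b <;> simp [sz]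
  have h1 : FF (fun i => (a (Sum.inl i)) ^^ (H2_c (Sum.inl i : Cube κ))) =
      - FF (fun i => a (Sum.inl i)) := by
    unfold FF
    rw [← Finset.sum_neg_distrib]
    refine Finset.sum_congr rfl fun u _ => ?_
    rw [← Finset.sum_neg_distrib]
    refine Finset.sum_congr rfl fun v _ => ?_
    simp only [H2_c, hsz, Bool.xor_false]
    ring
  have h2 : SS (fun w => (a (Sum.inr w)) ^^ (H2_c (Sum.inr w : Cube κ))) =
      - SS (fun w => a (Sum.inr w)) := by
    unfold SS
    rw [← Finset.sum_neg_distrib]
    refine Finset.sum_congr rfl fun w _ => ?_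
    simp only [H2_c, hsz]
  rw [h1, h2]
  linarith

/-- the flip is an involution -/
def H2_e {κ : ℕ} : (Cube κ → Bool) ≃ (Cube κ → Bool) where
  toFun a := fun i => a i ^^ H2_c i
  invFun a := fun i => a i ^^ H2_c i
  left_inv a := by funext i; simp
  right_inv a := by funext i; simp

theorem H2_av {I : Type*} [Fintype I] [DecidableEq I] (g : (I → Bool) → ℝ)
    (e : (I → Bool) ≃ (I → Bool)) : av (fun a => 1 - g (e a)) = 1 - av g := by
  unfold av
  rw [Finset.sum_sub_distrib, Equiv.sum_comp e g, sub_div]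
  congr 1
  rw [Finset.sum_const, Finset.card_univ, Fintype.card_fun, Fintype.card_bool]
  simp

theorem H2 (hds : St_DS) (h1 : St_H1) : St_H2 := by
  intro k p
  obtain ⟨κ₀, h0⟩ := h1 k p
  refine ⟨κ₀, fun κ hκ m F y hA => ?_⟩
  by_contra hcon
  rw [not_or] at hcon
  obtain ⟨hy, hn⟩ := hcon
  have hy' : ∀ a, Yes a → QF m F k true y a = true := by
    intro a ha
    by_contra h
    exact hy ⟨a, ha, by simpa using h⟩
  have hn' : ∀ a, No a → QF m F k true y a = false := by
    intro a ha
    by_contra h
    exact hn ⟨a, ha, by simpa using h⟩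
  have e1 := h0 κ hκ m F y true hA hy'
  set F' : List Bool → (Cube κ → Bool) → Bool := fun y a => !F y (H2_e a) with hF'
  have hQ : ∀ a, QF m F' k false y a = !QF m F k true y (H2_e a) := by
    intro a
    have q1 := hds.2.2.2 (Cube κ) m (fun y a => F y (H2_e a)) k true y a
    have q2 := hds.2.2.1 (Cube κ) (Cube κ) (fun a => H2_e a) m F k true y a
    rw [Bool.not_true] at q1
    rw [hF', q1, ← q2]
  have hA' : Adm κ (p.eval κ) m k F' y := by
    refine ⟨hA.1, hA.2.1, fun y' hy'' => ?_⟩
    have d1 := hds.2.1 (Cube κ) (p.eval κ) (F y') H2_c (hA.2.2 y' hy'')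
    exact DTr.comp (fun b => !b) d1
  have e2 := h0 κ hκ m F' y false hA' (fun a ha => by
    rw [hQ a, show QF m F k true y (H2_e a) = false from hn' _ (H2_yes a ha)]
    rfl)
  have e3 : av (br (QF m F' k false y)) = 1 - av (br (QF m F k true y)) := by
    have e4 : br (QF m F' k false y) = fun a => 1 - br (QF m F k true y) (H2_e a) := by
      funext a
      unfold br
      rw [hQ a]
      cases QF m F k true y (H2_e a) <;> simp
    rw [e4]
    exact H2_av _ _
  rw [e3] at e2
  linarith

end Pool.Agent.H516R2.EQP
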