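import Pool.Agent.H516R2.EQP.Props

/-! Task Z3 (helper602) -/

namespace Pool.Agent.H516R2.EQP

open Pool.Agent.NPC Pool.Agent.H620R2.Gauge Finset H568R2 Pool.Agent.H676

theorem Z3_Ex_unif {I : Type*} [Fintype I] [DecidableEq I] (F : (I → Bool) → ℝ) :
    Ex unif F = av F := by
  unfold Ex av unif
  rw [Finset.sum_div]
  refine Finset.sum_congr rfl fun a _ => ?_
  rw [Finset.prod_const, Finset.card_univ, one_div, inv_pow]
  ring

theorem Z3 (h1 : St_Z1) (h2 : St_Z2) : St_Z3 := by
  intro J _ _ t m k d r q s F y b ht hq0 hq1 hM hF hev hsl hs hr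
  have hQ0 : 0 ≤ q ^ k := pow_nonneg hq0 k
  have hQ1 : q ^ k ≤ 1 := pow_le_one₀ hq0 (by linarith)
  have z2 := h2 J (q ^ k) (d + t) r hQ0 hQ1 (by omega) hM hr
  have z3 := switch_alt ht hq0 hq1 m F k y.length hF
  have hu : ∑ b : Bool, unif b = 1 := by
    rw [Fintype.sum_bool]
    unfold unif
    norm_num
  have hu0 : ∀ b : Bool, 0 ≤ unif b := by
    intro b
    unfold unif
    norm_num
  have hw0 : ∀ a, 0 ≤ wq (q ^ k) a := wq_nonneg hQ0 hQ1
  have e1 : av (br (QF m F k b y)) = Ex (wq (q ^ k)) (fun ρ : Restr J =>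
      Ex unif (fun w : J → Bool => br (QF m F k b y) (ov ρ w))) := by
    rw [Ex_ov, Z3_Ex_unif]
  rw [e1]
  have z3' : Ex (wq (q ^ k)) (fun ρ : Restr J => Ex unif (fun _ : J → Bool =>
      @ite ℝ (¬ ∀ y' : List Bool, y'.length ≤ y.length → ∀ b, DTr t (rs (QF m F k b y') ρ))
        (Classical.propDecidable _) 1 0)) ≤ eps t m k y.length q := by
    unfold eps
    refine le_trans (le_of_eq ?_) z3
    congr 1
    funext ρ
    rw [Ex_const hu]
    split_ifs <;> rfl
  have hpt : ∀ (ρ : Restr J) (w : J → Bool), (1 : ℝ) ≤ br (QF m F k b y) (ov ρ w) +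
      ((if (|SS (ov ρ w)| : ℝ) ≤ 10 * Real.sqrt (Fintype.card J) ∧
      d + t ≤ (univ.filter (fun i => ρ i = none ∧ w i = true)).card ∧
      d + t ≤ (univ.filter (fun i => ρ i = none ∧ w i = false)).card then (0 : ℝ) else 1) +
      @ite ℝ (¬ ∀ y' : List Bool, y'.length ≤ y.length → ∀ b, DTr t (rs (QF m F k b y') ρ))
        (Classical.propDecidable _) 1 0) := by
    intro ρ w
    have hb0 : 0 ≤ br (QF m F k b y) (ov ρ w) := by
      unfold br
      split_ifs <;> norm_num
    by_cases hB : ∀ y' : List Bool, y'.length ≤ y.length → ∀ b, DTr t (rs (QF m F k b y') ρ)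
    · rw [if_neg (not_not.2 hB)]
      split_ifs with hG
      · have hc : Cert t false (rs (QF m F k b y) ρ) := (hB y le_rfl b).cert false
        have habs : |SS (ov ρ w) - s| ≤ 2 * (d : ℤ) := by
          have h3 : (|((SS (ov ρ w) - s : ℤ) : ℝ)|) ≤ 2 * (d : ℝ) := by
            push_cast
            refine (abs_sub _ _).trans ?_
            linarith [hG.1]
          have h4 : (((|SS (ov ρ w) - s| : ℤ)) : ℝ) ≤ ((2 * (d : ℤ) : ℤ) : ℝ) := by
            rw [Int.cast_abs]
            push_cast at h3 ⊢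
            exact h3
          exact_mod_cast h4
        have hf := h1 J (QF m F k b y) ρ t d s w hc hev hsl habs hG.2.1 hG.2.2
        have : br (QF m F k b y) (ov ρ w) = 1 := by
          unfold br
          rw [hf]
          simp
        rw [this]
        norm_num
      · linarith
    · rw [if_pos hB]
      have : (0 : ℝ) ≤ (if (|SS (ov ρ w)| : ℝ) ≤ 10 * Real.sqrt (Fintype.card J) ∧
        d + t ≤ (univ.filter (fun i => ρ i = none ∧ w i = true)).card ∧
        d + t ≤ (univ.filter (fun i => ρ i = none ∧ w i = false)).card then (0 : ℝ) else 1) := by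
        split_ifs <;> norm_num
      linarith
  have hsum : (1 : ℝ) ≤ Ex (wq (q ^ k)) (fun ρ : Restr J =>
      Ex unif (fun w : J → Bool => br (QF m F k b y) (ov ρ w) +
      ((if (|SS (ov ρ w)| : ℝ) ≤ 10 * Real.sqrt (Fintype.card J) ∧
      d + t ≤ (univ.filter (fun i => ρ i = none ∧ w i = true)).card ∧
      d + t ≤ (univ.filter (fun i => ρ i = none ∧ w i = false)).card then (0 : ℝ) else 1) +
      @ite ℝ (¬ ∀ y' : List Bool, y'.length ≤ y.length → ∀ b, DTr t (rs (QF m F k b y') ρ))
        (Classical.propDecidable _) 1 0))) := by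
    have h5 : (1 : ℝ) = Ex (wq (q ^ k)) (fun _ : Restr J => Ex unif (fun _ : J → Bool => (1 : ℝ))) := by
      rw [Ex_const hu, Ex_const (wq_sum _)]
    refine (le_of_eq h5).trans ?_
    exact Ex_mono hw0 fun ρ => Ex_mono hu0 fun w => hpt ρ w
  simp only [Ex_add] at hsum
  push_cast at z2
  linarith

end Pool.Agent.H516R2.EQP
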